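import Pool.Agent.DM.Defs
import Pool.Agent.ZC.BDC

/-!
# DM: bounds for the `T` rows (from `ZC.bd_Cn` with `B := H`, `a := 4 H A`)
-/

namespace Pool.Agent.DM

open Finset Pool.Agent.ZC Pool.Agent.SI

theorem dm_bd_t (H a S : ℕ) (hH : 1 ≤ H) (ha : 1 ≤ a) :
    ∃ M0 : ℕ, ∀ M ≥ M0, ∀ i < 4 * H * ((a + S + 1) * M), ∀ l < (a + S + 1) * M, ∀ m : ℕ,
      |PowerSeries.coeff m (ev ℝ ((a + S + 1) * M) l (Cn ℝ M i))| ≤
        (1000 * (H : ℝ) * (a + S + 1)) ^ (5 * (4 * H * ((a + S + 1) * M))) := by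
  refine ⟨1, fun M hM i hi l hl' m => ?_⟩
  set A : ℕ := a + S + 1 with hA
  set p : ℕ := A * M with hp
  have hA1 : 1 ≤ A := by omega
  have hp1 : 1 ≤ p := Nat.mul_pos (by omega) (by omega)
  have h := bd_Cn (4 * H * A) M H p (Nat.mul_pos (by omega) hA1) hH hp1 (by omega)
    (le_of_eq (by rw [hp]; ring)) l hl' i hi.le m
  refine h.trans ?_
  set n : ℕ := 4 * H * p with hn
  have hMn : M ≤ n := by
    rw [hn, hp]
    calc M = 1 * (1 * M) := by ring
      _ ≤ 4 * H * (A * M) := Nat.mul_le_mul (by omega) (Nat.mul_le_mul_right M hA1)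
  have hexp : Real.exp M ≤ 3 ^ n := by
    have h1 : Real.exp M ≤ Real.exp n := Real.exp_le_exp.2 (by exact_mod_cast hMn)
    have h2 : Real.exp (n : ℝ) = Real.exp 1 ^ n := by rw [← Real.exp_nat_mul, mul_one]
    rw [h2] at h1
    exact h1.trans (pow_le_pow_left₀ (Real.exp_pos _).le Real.exp_one_lt_three.le n)
  have hH1 : (1 : ℝ) ≤ H := by exact_mod_cast hH
  have hA1' : (1 : ℝ) ≤ A := by exact_mod_cast hA1
  have e3 : (a : ℝ) + S + 1 = A := by rw [hA]; push_cast; ring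
  rw [e3]
  calc (10 * ((4 * H * A : ℕ) : ℝ) ^ 2) ^ n * Real.exp M
      ≤ (10 * ((4 * H * A : ℕ) : ℝ) ^ 2) ^ n * 3 ^ n := by gcongr
    _ = (480 * ((H : ℝ) * A) ^ 2) ^ n := by
        rw [← mul_pow]; congr 1; push_cast; ring
    _ ≤ ((1000 * (H : ℝ) * A) ^ 5) ^ n := by
        apply pow_le_pow_left₀ (by positivity)
        have h1 : 1 ≤ (H : ℝ) * A := by nlinarith
        set x := (H : ℝ) * A with hx
        have e : (1000 * (H : ℝ) * A) ^ 5 = 10 ^ 15 * x ^ 5 := by rw [hx]; ring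
        rw [e]
        have h2 : x ^ 2 ≤ x ^ 5 := pow_le_pow_right₀ h1 (by norm_num)
        have h3 : 0 ≤ x ^ 5 := by positivity
        nlinarith
    _ = _ := by rw [← pow_mul]

end Pool.Agent.DM
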