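import Pool.Agent.DM.Defs
import Pool.Agent.ZC.BDC
import Pool.Agent.ZC.BDG
import Pool.Agent.ZC.VBD

/-!
# DM: bounds for the extra coordinates

`|coeff (ev An)|`, `|coeff (ev Cn)|` as in `bd_Cp`, `bd_Cn` (`BDom`); `hs r` costs `binom(m+r, r)`;
`zs` is a fixed polynomial; everything polynomial in `p` is absorbed for `M` large.
-/

namespace Pool.Agent.DM

open Finset Pool.Agent.ZC Pool.Agent.SI

private theorem bdy_zs (b : ℕ) (S : Finset ℕ) (c : ℕ → ℝ) :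
    BDom (zs ℝ b S c) (∑ i ∈ S, Polynomial.C |2 * (b : ℝ) ^ i * c i| * Polynomial.X ^ (i - 1)) := by
  intro r
  rw [zs, map_sum, Polynomial.finsetSum_coeff]
  refine (abs_sum_le_sum_abs _ _).trans (sum_le_sum fun i _ => ?_)
  rw [PowerSeries.coeff_C_mul, PowerSeries.coeff_X_pow, Polynomial.coeff_C_mul,
    Polynomial.coeff_X_pow]
  split_ifs <;> simp

private theorem bdy_eval_nonneg {f : PowerSeries ℝ} {g : Polynomial ℝ} (h : BDom f g) :
    0 ≤ g.eval 1 := by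
  rw [Polynomial.eval_eq_sum_range]
  exact sum_nonneg fun i _ => by rw [one_pow, mul_one]; exact h.nonneg i

private theorem bdy_hs (r m : ℕ) (f : PowerSeries ℝ) {W : ℝ}
    (h : |PowerSeries.coeff (m + r) f| ≤ W) :
    |PowerSeries.coeff m (hs ℝ r f)| ≤ 2 ^ (m + r) * W := by
  rw [hs, PowerSeries.coeff_mk, abs_mul, abs_of_nonneg (Nat.cast_nonneg _)]
  refine mul_le_mul ?_ h (abs_nonneg _) (by positivity)
  exact_mod_cast Nat.choose_le_two_pow (m + r) r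

theorem dm_bd_y (B H a S T : ℕ) (hB : 1 ≤ B) (hBH : B ≤ H) (ha : 1 ≤ a) (c : ℕ → ℝ) :
    ∃ M0 : ℕ, ∀ M ≥ M0, ∀ β < B, ∀ r ≤ S, ∀ j < (4 * H - 2 * (2 * β + 1)) * ((a + S + 1) * M),
      ∀ l < (a + S + 1) * M, ∀ m < a,
      |PowerSeries.coeff m (yRow ℝ M ((a + S + 1) * M) T c l β r j)| ≤
        (1000 * (H : ℝ) * (a + S + 1)) ^ (5 * (4 * H * ((a + S + 1) * M))) := by
  set G : ℕ → ℝ := fun β => ∑ i ∈ oddS T, |2 * (((2 * β + 1 : ℕ)) : ℝ) ^ i * c i| with hG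
  have hG0 : ∀ β, 0 ≤ G β := fun β => sum_nonneg fun _ _ => abs_nonneg _
  obtain ⟨M1, hM1⟩ := pow_unbounded_of_one_lt (∑ β ∈ range B, G β) (show (1 : ℝ) < 2 by norm_num)
  refine ⟨max 1 M1, fun M hM β hβ r hr j hj l hlp m hm => ?_⟩
  have hH : 1 ≤ H := hB.trans hBH
  have hMpos : 1 ≤ M := (le_max_left _ _).trans hM
  have hMM1 : M1 ≤ M := (le_max_right _ _).trans hM
  set p := (a + S + 1) * M with hp
  set n := 4 * H * p with hn
  set A := 4 * H * (a + S + 1) with hA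
  have hp1 : a + S + 1 ≤ p := by rw [hp]; nlinarith
  have hMp : M ≤ p := by rw [hp]; nlinarith
  have hn4 : 4 * p ≤ n := by rw [hn]; nlinarith
  have hA1 : 1 ≤ A := by rw [hA]; nlinarith
  have hnA : 4 * H * p ≤ A * M := by rw [hA, hp]; exact le_of_eq (by ring)
  have hAR : (1 : ℝ) ≤ A := by exact_mod_cast hA1
  have hj' : j ≤ 4 * H * p := by
    have h2 : (4 * H - 2 * (2 * β + 1)) * p ≤ 4 * H * p :=
      Nat.mul_le_mul_right p (Nat.sub_le _ _)
    omega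
  obtain ⟨g1, hg1, hb1⟩ := VBD_dom_An A M H p hA1 hH (by omega) (by omega) hnA l hlp β (by omega)
  obtain ⟨g2, hg2, hb2⟩ := VBD_dom_Cn A M H p hA1 hH (by omega) (by omega) hnA l hlp j hj'
  rw [← hn] at hb1 hb2
  have h3 := bdy_zs (2 * β + 1) (oddS T) c
  have h4 := (BDom.lin (2 * (p : ℝ) - 1 - 2 * (l : ℝ))).pow (r % 2)
  set g4 := (Polynomial.C |2 * (p : ℝ) - 1 - 2 * (l : ℝ)| +
    Polynomial.C (2 : ℝ) * Polynomial.X) ^ (r % 2) with hg4
  have hg1' := bdy_eval_nonneg hg1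
  have hg2' := bdy_eval_nonneg hg2
  have hg4' := bdy_eval_nonneg h4
  have hpR : (1 : ℝ) ≤ p := by exact_mod_cast (by omega : 1 ≤ p)
  have hlR : (l : ℝ) + 1 ≤ p := by exact_mod_cast hlp
  have hl0 : (0 : ℝ) ≤ l := Nat.cast_nonneg _
  -- the factor `w`
  have hb4 : g4.eval 1 ≤ 2 ^ n := by
    rw [hg4]
    simp only [Polynomial.eval_pow, Polynomial.eval_add, Polynomial.eval_C, Polynomial.eval_mul,
      Polynomial.eval_X, mul_one]
    rw [abs_of_nonneg (by linarith)]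
    have h5 : (2 * (p : ℝ) - 1 - 2 * (l : ℝ) + 2) ≤ 2 ^ n := by
      have h6 : (2 * (p : ℝ) - 1 - 2 * (l : ℝ) + 2) ≤ n := by
        have : (4 * (p : ℝ)) ≤ n := by exact_mod_cast hn4
        linarith
      have h7 : (n : ℝ) ≤ 2 ^ n := by exact_mod_cast (Nat.lt_two_pow_self (n := n)).le
      exact h6.trans h7
    have h8 : 1 ≤ 2 * (p : ℝ) - 1 - 2 * (l : ℝ) + 2 := by linarith
    calc (2 * (p : ℝ) - 1 - 2 * (l : ℝ) + 2) ^ (r % 2)
        ≤ (2 * (p : ℝ) - 1 - 2 * (l : ℝ) + 2) ^ 1 := pow_le_pow_right₀ h8 (by omega)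
      _ ≤ 2 ^ n := by rw [pow_one]; exact h5
  -- the constant
  have hb3 : G β ≤ 2 ^ n := by
    have h5 : G β ≤ ∑ β ∈ range B, G β :=
      single_le_sum (f := G) (fun k _ => hG0 k) (mem_range.2 hβ)
    have h6 : (2 : ℝ) ^ M1 ≤ 2 ^ n := pow_le_pow_right₀ (by norm_num) (by omega)
    linarith
  have hexp : Real.exp M * Real.exp M ≤ (8 : ℝ) ^ n := by
    rw [← Real.exp_add]
    have h1 : Real.exp ((M : ℝ) + M) ≤ Real.exp (2 * n) := by
      apply Real.exp_le_exp.2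
      have : (M : ℝ) ≤ n := by exact_mod_cast (by omega : M ≤ n)
      linarith
    have h2 : Real.exp (2 * (n : ℝ)) = (Real.exp 1 ^ 2) ^ n := by
      rw [← pow_mul, ← Real.exp_nat_mul]
      congr 1
      push_cast
      ring
    have h3 : Real.exp 1 ^ 2 ≤ 8 := by
      have := Real.exp_one_lt_d9
      have h4 := Real.exp_pos 1
      nlinarith
    rw [h2] at h1
    exact h1.trans (pow_le_pow_left₀ (by positivity) h3 n)
  have hev : ev ℝ p l (fB ℝ M p β j) =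
      ev ℝ p l (An ℝ M p (2 * β + 1)) * ev ℝ p l (Cn ℝ M j) := by
    simp only [fB, ev, map_mul]
  have hcoef : |PowerSeries.coeff (m + r) (hl ℝ p l ^ (r % 2) * ev ℝ p l (fB ℝ M p β j) *
      zs ℝ (2 * β + 1) (oddS T) c)| ≤
      2 ^ n * ((16 * (A : ℝ) ^ 2) ^ n * Real.exp M * ((10 * (A : ℝ) ^ 2) ^ n * Real.exp M)) *
        2 ^ n := by
    rw [hev]
    refine (((h4.mul (hg1.mul hg2)).mul h3).coeff_le (m + r)).trans ?_
    rw [Polynomial.eval_mul, Polynomial.eval_mul, Polynomial.eval_mul, Polynomial.eval_finsetSum]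
    simp only [Polynomial.eval_mul, Polynomial.eval_C, Polynomial.eval_pow, Polynomial.eval_X,
      one_pow, mul_one]
    refine mul_le_mul ?_ hb3 (hG0 β) (by positivity)
    refine mul_le_mul hb4 ?_ (mul_nonneg hg1' hg2') (by positivity)
    exact mul_le_mul hb1 hb2 hg2' (by positivity)
  have hfin := bdy_hs r m _ hcoef
  refine (le_of_eq ?_).trans (hfin.trans ?_)
  · rfl
  have h2mr : (2 : ℝ) ^ (m + r) ≤ 2 ^ n := pow_le_pow_right₀ (by norm_num) (by omega)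
  have hAx : (A : ℝ) = 4 * ((H : ℝ) * (a + S + 1)) := by rw [hA]; push_cast; ring
  have hHR : (1 : ℝ) ≤ H := by exact_mod_cast hH
  have haR : (1 : ℝ) ≤ a := by exact_mod_cast ha
  have hSR : (0 : ℝ) ≤ S := Nat.cast_nonneg _
  set x : ℝ := (H : ℝ) * (a + S + 1) with hx
  have hx1 : 1 ≤ x := by rw [hx]; nlinarith
  calc 2 ^ (m + r) * (2 ^ n * ((16 * (A : ℝ) ^ 2) ^ n * Real.exp M *
        ((10 * (A : ℝ) ^ 2) ^ n * Real.exp M)) * 2 ^ n)
      = 2 ^ (m + r) * (2 ^ n * ((16 * (A : ℝ) ^ 2) ^ n * (10 * (A : ℝ) ^ 2) ^ n *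
          (Real.exp M * Real.exp M)) * 2 ^ n) := by ring
    _ ≤ 2 ^ n * (2 ^ n * ((16 * (A : ℝ) ^ 2) ^ n * (10 * (A : ℝ) ^ 2) ^ n * 8 ^ n) * 2 ^ n) := by
        gcongr
    _ = (2 * 2 * (16 * (A : ℝ) ^ 2) * (10 * (A : ℝ) ^ 2) * 8 * 2) ^ n := by
        simp only [mul_pow]; ring
    _ ≤ ((1000 * (H : ℝ) * (a + S + 1)) ^ 5) ^ n := by
        apply pow_le_pow_left₀ (by positivity)
        have e1 : (1000 * (H : ℝ) * (a + S + 1)) ^ 5 = 1000000000000000 * x * x ^ 4 := by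
          rw [hx]; ring
        have e2 : 2 * 2 * (16 * (A : ℝ) ^ 2) * (10 * (A : ℝ) ^ 2) * 8 * 2 = 2621440 * x ^ 4 := by
          rw [hAx]; ring
        rw [e1, e2]
        apply mul_le_mul_of_nonneg_right _ (by positivity)
        linarith
    _ = _ := by rw [← pow_mul]

end Pool.Agent.DM
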