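import Pool.Agent.DM.Defs
import Pool.Agent.ZC.COR4

/-!
# DM: rational and real rows
-/

namespace Pool.Agent.DM

open Finset Pool.Agent.ZC Pool.Agent.SI

private theorem lin_map_hl (p l : ℕ) :
    PowerSeries.map (algebraMap ℚ ℝ) (hl ℚ p l) = hl ℝ p l := by
  simp [hl]

private theorem lin_map_fB (M p β j : ℕ) : (fB ℚ M p β j).map (algebraMap ℚ ℝ) = fB ℝ M p β j := by
  simp [fB, map_An, map_Cn]

private theorem lin_map_zs (b : ℕ) (S : Finset ℕ) (z : ℕ → ℚ) :
    PowerSeries.map (algebraMap ℚ ℝ) (zs ℚ b S z) = zs ℝ b S (fun i => (z i : ℝ)) := by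
  simp [zs, map_sum]

private theorem lin_cast (f : PowerSeries ℚ) (m : ℕ) :
    ((PowerSeries.coeff m f : ℚ) : ℝ) = PowerSeries.coeff m (PowerSeries.map (algebraMap ℚ ℝ) f) := by
  rw [PowerSeries.coeff_map]; rfl

theorem dm_cast_d (M p T : ℕ) (z : ℕ → ℚ) (l β r j m : ℕ) :
    ((PowerSeries.coeff m (dRow ℚ M p T z l β r j) : ℚ) : ℝ) =
      PowerSeries.coeff m (dRow ℝ M p T (fun i => (z i : ℝ)) l β r j) := by
  rw [lin_cast, dRow, dRow, map_hs, map_mul, map_mul, map_pow, lin_map_hl, map_ev, lin_map_fB,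
    map_Gs p _ l (by omega)]

theorem dm_cast_y (M p T : ℕ) (c : ℕ → ℚ) (l β r j m : ℕ) :
    ((PowerSeries.coeff m (yRow ℚ M p T c l β r j) : ℚ) : ℝ) =
      PowerSeries.coeff m (yRow ℝ M p T (fun i => (c i : ℝ)) l β r j) := by
  rw [lin_cast, yRow, yRow, map_hs, map_mul, map_mul, map_pow, lin_map_hl, map_ev, lin_map_fB,
    lin_map_zs]

private theorem lin_hs_add (h : ℕ) (f g : PowerSeries ℝ) : hs ℝ h (f + g) = hs ℝ h f + hs ℝ h g := by
  ext r
  simp only [hs, PowerSeries.coeff_mk, map_add]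
  ring

private theorem lin_hs_zero (h : ℕ) : hs ℝ h 0 = 0 := by
  ext r
  simp [hs]

private theorem lin_hs_C (h : ℕ) (c : ℝ) (f : PowerSeries ℝ) :
    hs ℝ h (PowerSeries.C c * f) = PowerSeries.C c * hs ℝ h f := by
  ext r
  simp only [hs, PowerSeries.coeff_mk, PowerSeries.coeff_C_mul]
  ring

private theorem lin_hs_sum {ι : Type*} (s : Finset ι) (h : ℕ) (f : ι → PowerSeries ℝ) :
    hs ℝ h (∑ i ∈ s, f i) = ∑ i ∈ s, hs ℝ h (f i) := by
  classical
  induction s using Finset.induction_on with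
  | empty => simp [lin_hs_zero]
  | insert i s hi ih => rw [sum_insert hi, sum_insert hi, lin_hs_add, ih]

theorem dm_shear (M p T : ℕ) {J : Type} [Fintype J] (z : ℕ → ℚ) (c : ℕ → J → ℚ) (v : J → ℝ)
    (h : ∀ i ∈ oddS T, zr i = z i + ∑ j, (c i j : ℝ) * v j) (l β r j m : ℕ) :
    PowerSeries.coeff m (dRow ℝ M p T zr l β r j) =
      PowerSeries.coeff m (dRow ℝ M p T (fun i => (z i : ℝ)) l β r j) +
        ∑ i, v i * PowerSeries.coeff m (yRow ℝ M p T (fun k => (c k i : ℝ)) l β r j) := by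
  have h1 : zs ℝ (2 * β + 1) (oddS T) zr = zs ℝ (2 * β + 1) (oddS T) (fun i => (z i : ℝ)) +
      ∑ i, PowerSeries.C (v i) * zs ℝ (2 * β + 1) (oddS T) (fun k => (c k i : ℝ)) := by
    unfold zs
    simp only [Finset.mul_sum]
    rw [Finset.sum_comm, ← Finset.sum_add_distrib]
    refine Finset.sum_congr rfl fun i hi => ?_
    rw [h i hi, mul_add, map_add, add_mul]
    congr 1
    rw [Finset.mul_sum, map_sum, Finset.sum_mul]
    refine Finset.sum_congr rfl fun k _ => ?_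
    rw [← mul_assoc (PowerSeries.C _) (PowerSeries.C _), ← map_mul]
    congr 2
    ring
  have h2 : dRow ℝ M p T zr l β r j = dRow ℝ M p T (fun i => (z i : ℝ)) l β r j +
      ∑ i, PowerSeries.C (v i) * yRow ℝ M p T (fun k => (c k i : ℝ)) l β r j := by
    unfold dRow yRow
    rw [Gs_eq, Gs_eq, h1]
    set A := hl ℝ p l ^ (r % 2) * ev ℝ p l (fB ℝ M p β j) with hA
    have e : A * (zs ℝ (2 * β + 1) (oddS T) (fun i => (z i : ℝ)) +
        ∑ i, PowerSeries.C (v i) * zs ℝ (2 * β + 1) (oddS T) (fun k => (c k i : ℝ)) -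
        gs ℝ p (2 * β + 1) l) =
        A * (zs ℝ (2 * β + 1) (oddS T) (fun i => (z i : ℝ)) - gs ℝ p (2 * β + 1) l) +
        ∑ i, PowerSeries.C (v i) *
          (A * zs ℝ (2 * β + 1) (oddS T) (fun k => (c k i : ℝ))) := by
      have e2 : ∑ i, PowerSeries.C (v i) *
          (A * zs ℝ (2 * β + 1) (oddS T) (fun k => (c k i : ℝ))) =
          A * ∑ i, PowerSeries.C (v i) * zs ℝ (2 * β + 1) (oddS T) (fun k => (c k i : ℝ)) := by
        rw [Finset.mul_sum]
        exact Finset.sum_congr rfl fun i _ => by ring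
      rw [e2]; ring
    rw [e, lin_hs_add, lin_hs_sum]
    simp only [lin_hs_C]
  rw [h2, map_add, map_sum]
  simp only [PowerSeries.coeff_C_mul]

end Pool.Agent.DM
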