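import Pool.Agent.DM.Defs
import Pool.Agent.ZC.ENT

/-!
# DM: integrality of the entries
-/

namespace Pool.Agent.DM

open Finset Pool.Agent.ZC Pool.Agent.SI

private theorem ent_hl_mem (d p l : ℕ) : hl ℚ p l ∈ dR d := by
  have h : hl ℚ p l = PowerSeries.C ((2 * (p : ℤ) - 1 - 2 * l : ℤ) : ℚ) +
      PowerSeries.C ((2 : ℕ) : ℚ) * PowerSeries.X := by
    unfold hl
    push_cast
    rfl
  rw [h]
  exact add_mem (C_int_mem _ _) (mul_mem (C_nat_mem d 2) (X_mem _))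

private theorem ent_ev_mul (p l : ℕ) (f g : Polynomial ℚ) :
    ev ℚ p l (f * g) = ev ℚ p l f * ev ℚ p l g := by
  simp [ev]

private theorem ent_hs_C_mul (r : ℕ) (c : ℚ) (f : PowerSeries ℚ) :
    hs ℚ r (PowerSeries.C c * f) = PowerSeries.C c * hs ℚ r f := by
  ext m
  simp only [hs, PowerSeries.coeff_mk, PowerSeries.coeff_C_mul]
  ring

/-- Hasse derivatives cost one power of `d` per order -/
private theorem ent_hs_mem {d : ℕ} {f : PowerSeries ℚ} (hf : f ∈ dR d) (r : ℕ) :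
    PowerSeries.C ((d ^ r : ℕ) : ℚ) * hs ℚ r f ∈ dR d := by
  rw [mem_dR] at hf ⊢
  intro m
  obtain ⟨w, hw⟩ := hf (m + r)
  refine ⟨((m + r).choose r : ℤ) * w, ?_⟩
  rw [PowerSeries.coeff_C_mul, hs, PowerSeries.coeff_mk]
  push_cast
  rw [← hw, pow_add]
  ring

private theorem ent_zs_mem (d b T : ℕ) (z : ℕ → ℚ) (D0 : ℕ)
    (hz : ∀ i ∈ oddS T, ∃ w : ℤ, (D0 : ℚ) * z i = w) :
    PowerSeries.C (D0 : ℚ) * zs ℚ b (oddS T) z ∈ dR d := by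
  rw [zs, mul_sum]
  refine sum_mem fun i hi => ?_
  obtain ⟨w, hw⟩ := hz i hi
  have e : PowerSeries.C (D0 : ℚ) * (PowerSeries.C (2 * (b : ℚ) ^ i * z i) *
      PowerSeries.X ^ (i - 1)) =
      PowerSeries.C ((2 * (b : ℤ) ^ i * w : ℤ) : ℚ) * PowerSeries.X ^ (i - 1) := by
    rw [← mul_assoc, ← map_mul]
    congr 2
    push_cast
    rw [← hw]
    ring
  rw [e]
  exact mul_mem (C_int_mem _ _) (pow_mem (X_mem _) _)

private theorem ent_fin {d a S D0 r m : ℕ} {f : PowerSeries ℚ} (hr : r ≤ S) (hm : m < a)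
    (h1 : PowerSeries.C ((D0 : ℚ) * d) * f ∈ dR d) :
    ∃ w : ℤ, ((D0 * d ^ (a + S + 1) : ℕ) : ℚ) * PowerSeries.coeff m (hs ℚ r f) = w := by
  have h2 := ent_hs_mem h1 r
  rw [ent_hs_C_mul] at h2
  have h3 : PowerSeries.C ((D0 * d ^ (S + 1) : ℕ) : ℚ) * hs ℚ r f ∈ dR d := by
    have e : PowerSeries.C ((D0 * d ^ (S + 1) : ℕ) : ℚ) * hs ℚ r f =
        PowerSeries.C ((d ^ (S - r) : ℕ) : ℚ) *
          (PowerSeries.C ((d ^ r : ℕ) : ℚ) * (PowerSeries.C ((D0 : ℚ) * d) * hs ℚ r f)) := by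
      have e1 : S + 1 = (S - r) + r + 1 := by omega
      rw [e1]
      push_cast
      simp only [map_mul, map_pow, pow_add, pow_one]
      ring
    rw [e]
    exact mul_mem (C_nat_mem _ _) h2
  obtain ⟨w, hw⟩ := coeff_int_of_mem (a := a) h3 hm.le
  refine ⟨w, ?_⟩
  rw [← hw, PowerSeries.coeff_C_mul, add_assoc, pow_add]
  push_cast
  ring

/-- entries of the `F` rows -/
theorem dm_int_d {a S d M : ℕ} (hM : 0 < M) (hd : ∀ q : ℕ, 1 ≤ q → q ≤ M → q ∣ d) (p T : ℕ)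
    (z : ℕ → ℚ) (Q : ℕ) (hQ : ∀ i ∈ oddS T, ∃ w : ℤ, (Q : ℚ) * z i = w)
    (l β r j m : ℕ) (hl : l < p) (hr : r ≤ S) (hm : m < a) :
    ∃ w : ℤ, ((Q * d ^ (a + S + 1) : ℕ) : ℚ) * PowerSeries.coeff m (dRow ℚ M p T z l β r j) = w := by
  have hb : Odd (2 * β + 1) := ⟨_, rfl⟩
  unfold dRow fB
  set b := 2 * β + 1 with hbdef
  refine ent_fin hr hm ?_
  have hC : ev ℚ p l (Cn ℚ M j) ∈ dR d := ev_Cn_mem hM hd _ _ _
  have hH : SI.hl ℚ p l ^ (r % 2) ∈ dR d := pow_mem (ent_hl_mem d p l) _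
  have hA : ev ℚ p l (An ℚ M p b) ∈ dR d := ev_An_mem hM hd p l b hb
  have hAg := ev_An_gs_mem hM hd p l b hb (by omega : l < 2 * p)
  have hZ := ent_zs_mem d b T z Q hQ
  have eG : Gs ℚ p b l (oddS T) z = zs ℚ b (oddS T) z - gs ℚ p b l := rfl
  have e : PowerSeries.C ((Q : ℚ) * d) * (SI.hl ℚ p l ^ (r % 2) *
      ev ℚ p l (An ℚ M p b * Cn ℚ M j) * Gs ℚ p b l (oddS T) z) =
      SI.hl ℚ p l ^ (r % 2) * ev ℚ p l (Cn ℚ M j) *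
        (PowerSeries.C ((d : ℕ) : ℚ) * (ev ℚ p l (An ℚ M p b) *
          (PowerSeries.C (Q : ℚ) * zs ℚ b (oddS T) z)) -
        PowerSeries.C ((Q : ℕ) : ℚ) * (PowerSeries.C (d : ℚ) *
          (ev ℚ p l (An ℚ M p b) * gs ℚ p b l))) := by
    rw [eG, ent_ev_mul, map_mul]
    ring
  rw [e]
  exact mul_mem (mul_mem hH hC) (sub_mem (mul_mem (C_nat_mem _ _) (mul_mem hA hZ))
    (mul_mem (C_nat_mem _ _) hAg))

/-- entries of the extra coordinates -/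
theorem dm_int_y {a S d M : ℕ} (hM : 0 < M) (hd : ∀ q : ℕ, 1 ≤ q → q ≤ M → q ∣ d) (p T : ℕ)
    (c : ℕ → ℚ) (Q : ℕ) (hQ : ∀ i ∈ oddS T, ∃ w : ℤ, (Q : ℚ) * c i = w)
    (l β r j m : ℕ) (hr : r ≤ S) (hm : m < a) :
    ∃ w : ℤ, ((Q * d ^ (a + S + 1) : ℕ) : ℚ) * PowerSeries.coeff m (yRow ℚ M p T c l β r j) = w := by
  have hb : Odd (2 * β + 1) := ⟨_, rfl⟩
  unfold yRow fB
  set b := 2 * β + 1 with hbdef
  refine ent_fin hr hm ?_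
  have hC : ev ℚ p l (Cn ℚ M j) ∈ dR d := ev_Cn_mem hM hd _ _ _
  have hH : SI.hl ℚ p l ^ (r % 2) ∈ dR d := pow_mem (ent_hl_mem d p l) _
  have hA : ev ℚ p l (An ℚ M p b) ∈ dR d := ev_An_mem hM hd p l b hb
  have hZ := ent_zs_mem d b T c Q hQ
  have e : PowerSeries.C ((Q : ℚ) * d) * (SI.hl ℚ p l ^ (r % 2) *
      ev ℚ p l (An ℚ M p b * Cn ℚ M j) * zs ℚ b (oddS T) c) =
      SI.hl ℚ p l ^ (r % 2) * ev ℚ p l (Cn ℚ M j) *
        (PowerSeries.C ((d : ℕ) : ℚ) * (ev ℚ p l (An ℚ M p b) *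
          (PowerSeries.C (Q : ℚ) * zs ℚ b (oddS T) c))) := by
    rw [ent_ev_mul, map_mul]
    ring
  rw [e]
  exact mul_mem (mul_mem hH hC) (mul_mem (C_nat_mem _ _) (mul_mem hA hZ))

/-- entries of the `T` rows -/
theorem dm_int_t {a S d M : ℕ} (hM : 0 < M) (hd : ∀ q : ℕ, 1 ≤ q → q ≤ M → q ∣ d) (p Q : ℕ)
    (l j m : ℕ) (hm : m < a) :
    ∃ w : ℤ, ((Q * d ^ (a + S + 1) : ℕ) : ℚ) * PowerSeries.coeff m (ev ℚ p l (Cn ℚ M j)) = w := by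
  have hC : ev ℚ p l (Cn ℚ M j) ∈ dR d := ev_Cn_mem hM hd _ _ _
  obtain ⟨w, hw⟩ := coeff_int_of_mem (a := a) hC hm.le
  refine ⟨(Q * d ^ (S + 1) : ℕ) * w, ?_⟩
  push_cast
  rw [← hw, add_assoc, pow_add]
  ring

end Pool.Agent.DM
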