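import Pool.Agent.DM.SER
import Pool.Agent.ZC.BDG

/-!
# DM: bound for the terms of the expansion of the `F` rows
-/

namespace Pool.Agent.DM

open Finset Pool.Agent.ZC Pool.Agent.SI

private theorem bds_gam (a M B p : ℕ) (ha : 1 ≤ a) (_hB : 1 ≤ B) (hBa : B ≤ a) (hp : 1 ≤ p)
    (hM : 0 < M) (hMa : 4 * B * p ≤ a * M) (β : ℕ) (hβ : β < B) (j : ℕ)
    (hj : j < (4 * B - 2 * (2 * β + 1)) * p) (l : ℕ) (hl : l < p) (r k δ : ℕ) :
    |gam (4 * B * p + δ) p (2 * β + 1) (An ℝ M p (2 * β + 1) * Cn ℝ M j) k *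
      PowerSeries.coeff r (yl ℝ p l ^ (4 * B * p + k))| ≤
      (300 * (p : ℝ) ^ 2 * (a : ℝ) ^ 3 * (10 * (a : ℝ) ^ 2) ^ (4 * B * p) * Real.exp (2 * M)) *
        (3 / 4 : ℝ) ^ (2 * k) := by
  set b := 2 * β + 1 with hb
  set n := 4 * B * p with hn
  have hbB : b < 2 * B := by omega
  have hj' : 2 * b * p + j < n := by
    have h1 : (4 * B - 2 * b) * p = 4 * B * p - 2 * b * p := Nat.sub_mul _ _ _
    rw [h1] at hj
    omega
  have hpR : (1 : ℝ) ≤ p := by exact_mod_cast hp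
  have haR : (1 : ℝ) ≤ a := by exact_mod_cast ha
  have hb0 : (0 : ℝ) < b := by rw [hb]; positivity
  set P := 2 * (p : ℝ) + 1 with hP
  have hP0 : 0 < P := by positivity
  set W := (10 * (a : ℝ) ^ 2) ^ n * Real.exp (2 * M) with hW
  have hW0 : 0 < W := by positivity
  have hcoef := yl_pow_le p l hl (n + k) r
  -- the terms of the series
  have hterm : ∀ i : ℕ, ‖4 * nd p b (i + 1) *
      (An ℝ M p b * Cn ℝ M j).eval (nd p b (i + 1) ^ 2) /
        (nd p b (i + 1) ^ 2) ^ (n + δ + k + 1)‖ ≤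
      (9 * p * (a : ℝ) ^ 2 * W * (3 / 4) ^ (2 * k) / P ^ (2 * (n + k))) *
        (1 / ((i : ℝ) + 1) ^ 2) := by
    intro i
    rcases lt_or_ge (nd p b (i + 1)) (4 * p) with hlt | hge
    · have h0 := an_root M p b (i + 1) hp ⟨β, hb⟩ (by omega) hlt
      rw [Polynomial.eval_mul, h0]
      simp only [zero_mul, mul_zero, zero_div, norm_zero]
      positivity
    · set s := nd p b (i + 1) with hs
      have hs0 : 0 < s := by linarith
      have hs1 : 1 ≤ s := by linarith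
      have hf := f_le a M B p ha hp hM hMa b j hbB hj' s hge
      rw [← hn, ← hP, ← hW] at hf
      have hs2 : 2 * ((i : ℝ) + 1) / b ≤ s := by
        rw [hs, nd]; push_cast; linarith
      have hs3 : 16 * (p : ℝ) * ((i : ℝ) + 1) ^ 2 ≤ s ^ 3 * (b : ℝ) ^ 2 := by
        have h1 : (2 * ((i : ℝ) + 1) / b) ^ 2 ≤ s ^ 2 := pow_le_pow_left₀ (by positivity) hs2 2
        have h2 : (4 * (p : ℝ)) * (2 * ((i : ℝ) + 1) / b) ^ 2 ≤ s * s ^ 2 :=
          mul_le_mul hge h1 (by positivity) hs0.le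
        have h3 : (4 * (p : ℝ)) * (2 * ((i : ℝ) + 1) / b) ^ 2 * (b : ℝ) ^ 2 =
            16 * (p : ℝ) * ((i : ℝ) + 1) ^ 2 := by
          field_simp; ring
        rw [← h3]
        have h4 : s ^ 3 = s * s ^ 2 := by ring
        rw [h4]
        exact mul_le_mul_of_nonneg_right h2 (by positivity)
      have hba : (b : ℝ) ^ 2 ≤ 4 * (a : ℝ) ^ 2 := by
        have h1 : (b : ℝ) ≤ 2 * a := by
          have : b ≤ 2 * a := by omega
          exact_mod_cast this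
        nlinarith
      have hqk : (P / s) ^ (2 * k) ≤ (3 / 4 : ℝ) ^ (2 * k) := by
        apply pow_le_pow_left₀ (by positivity)
        rw [div_le_iff₀ hs0, hP]; linarith
      have hdec : ‖4 * s * (An ℝ M p b * Cn ℝ M j).eval (s ^ 2) / (s ^ 2) ^ (n + δ + k + 1)‖ ≤
          4 * s * |(An ℝ M p b * Cn ℝ M j).eval (s ^ 2)| / (s ^ 2) ^ (n + k + 1) := by
        rw [Real.norm_eq_abs, abs_div, abs_mul, abs_mul, abs_of_pos hs0,
          abs_of_pos (show (0 : ℝ) < 4 by norm_num),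
          abs_of_pos (show (0 : ℝ) < (s ^ 2) ^ (n + δ + k + 1) by positivity)]
        apply div_le_div_of_nonneg_left (by positivity) (by positivity)
        exact pow_le_pow_right₀ (one_le_pow₀ hs1) (by omega)
      refine hdec.trans ?_
      have key : 4 * s * |(An ℝ M p b * Cn ℝ M j).eval (s ^ 2)| / (s ^ 2) ^ (n + k + 1) =
          (|(An ℝ M p b * Cn ℝ M j).eval (s ^ 2)| * (P / s) ^ (2 * (n - 1))) *
            (P / s) ^ (2 * k) * (4 * P ^ 2 / s ^ 3) / P ^ (2 * (n + k)) := by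
        obtain ⟨n', hn'⟩ : ∃ n', n = n' + 1 := ⟨n - 1, by omega⟩
        rw [hn']
        simp only [Nat.add_sub_cancel, div_pow]
        rw [← pow_mul]
        have e1 : s ^ (2 * (n' + 1 + k + 1)) = s ^ (2 * n') * s ^ (2 * k) * s ^ 3 * s := by ring
        have e2 : P ^ (2 * (n' + 1 + k)) = P ^ (2 * n') * P ^ (2 * k) * P ^ 2 := by ring
        rw [e1, e2]
        field_simp
      rw [key]
      have hlast : 4 * P ^ 2 / s ^ 3 ≤ 9 * p * (a : ℝ) ^ 2 * (1 / ((i : ℝ) + 1) ^ 2) := by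
        rw [div_le_iff₀ (by positivity)]
        have hP3 : P ^ 2 ≤ 9 * (p : ℝ) ^ 2 := by
          have : P ≤ 3 * p := by rw [hP]; linarith
          nlinarith
        have h5 : 0 < ((i : ℝ) + 1) ^ 2 := by positivity
        have h6 : 9 * p * (a : ℝ) ^ 2 * (1 / ((i : ℝ) + 1) ^ 2) * s ^ 3 =
            9 * p * ((a : ℝ) ^ 2 * s ^ 3) / ((i : ℝ) + 1) ^ 2 := by ring
        rw [h6, le_div_iff₀ h5]
        have h7 : 16 * (p : ℝ) * ((i : ℝ) + 1) ^ 2 ≤ s ^ 3 * (4 * (a : ℝ) ^ 2) :=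
          hs3.trans (mul_le_mul_of_nonneg_left hba (by positivity))
        have h8 : 4 * P ^ 2 * ((i : ℝ) + 1) ^ 2 ≤ 4 * (9 * (p : ℝ) ^ 2) * ((i : ℝ) + 1) ^ 2 := by
          apply mul_le_mul_of_nonneg_right _ h5.le
          linarith
        nlinarith
      calc (|(An ℝ M p b * Cn ℝ M j).eval (s ^ 2)| * (P / s) ^ (2 * (n - 1))) *
            (P / s) ^ (2 * k) * (4 * P ^ 2 / s ^ 3) / P ^ (2 * (n + k))
          ≤ (W * (3 / 4) ^ (2 * k) * (9 * p * (a : ℝ) ^ 2 * (1 / ((i : ℝ) + 1) ^ 2))) /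
            P ^ (2 * (n + k)) := by
            apply div_le_div_of_nonneg_right _ (by positivity)
            apply mul_le_mul _ hlast (by positivity) (by positivity)
            exact mul_le_mul hf hqk (by positivity) (by positivity)
        _ = _ := by ring
  have hsum := hasSum_inv_sq.mul_left
    (9 * p * (a : ℝ) ^ 2 * W * (3 / 4) ^ (2 * k) / P ^ (2 * (n + k)))
  have hg : |gam (n + δ) p b (An ℝ M p b * Cn ℝ M j) k| ≤
      (9 * p * (a : ℝ) ^ 2 * W * (3 / 4) ^ (2 * k) / P ^ (2 * (n + k))) * (Real.pi ^ 2 / 6) := by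
    have := tsum_of_norm_bounded hsum hterm
    rwa [Real.norm_eq_abs] at this
  rw [abs_mul]
  have hpi : Real.pi ^ 2 / 6 ≤ 2 := by
    have h1 := Real.pi_lt_d2
    have h2 := Real.pi_pos
    nlinarith
  calc |gam (n + δ) p b (An ℝ M p b * Cn ℝ M j) k| * |PowerSeries.coeff r (yl ℝ p l ^ (n + k))|
      ≤ ((9 * p * (a : ℝ) ^ 2 * W * (3 / 4) ^ (2 * k) / P ^ (2 * (n + k))) *
          (Real.pi ^ 2 / 6)) * P ^ (2 * (n + k)) :=
        mul_le_mul hg hcoef (abs_nonneg _) (by positivity)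
    _ = (9 * p * (a : ℝ) ^ 2 * (Real.pi ^ 2 / 6)) * (W * (3 / 4) ^ (2 * k)) := by
        have : P ^ (2 * (n + k)) ≠ 0 := by positivity
        field_simp
    _ ≤ (300 * (p : ℝ) ^ 2 * (a : ℝ) ^ 3) * (W * (3 / 4) ^ (2 * k)) := by
        apply mul_le_mul_of_nonneg_right _ (by positivity)
        have h1 : (p : ℝ) ≤ (p : ℝ) ^ 2 := by nlinarith
        have h2 : (a : ℝ) ^ 2 ≤ (a : ℝ) ^ 3 := pow_le_pow_right₀ haR (by norm_num)
        have h3 : (p : ℝ) * (a : ℝ) ^ 2 ≤ (p : ℝ) ^ 2 * (a : ℝ) ^ 3 :=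
          mul_le_mul h1 h2 (by positivity) (by positivity)
        have h4 : 0 ≤ (p : ℝ) * (a : ℝ) ^ 2 := by positivity
        nlinarith
    _ = _ := by rw [hW]; ring

private theorem bds_choose (m r : ℕ) (x : ℝ) (hx : 0 < x) :
    (m.choose r : ℝ) ≤ (1 + x) ^ m * (1 / x) ^ r := by
  rcases Nat.lt_or_ge m r with h | h
  · rw [Nat.choose_eq_zero_of_lt h]
    push_cast
    positivity
  · have h1 : x ^ r * 1 ^ (m - r) * (m.choose r : ℝ) ≤ (x + 1) ^ m := by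
      rw [add_pow]
      exact single_le_sum (f := fun i => x ^ i * 1 ^ (m - i) * (m.choose i : ℝ))
        (fun i _ => by positivity) (mem_range.2 (by omega))
    rw [one_pow, mul_one] at h1
    rw [one_div, inv_pow, ← div_eq_mul_inv, le_div_iff₀ (by positivity)]
    calc (m.choose r : ℝ) * x ^ r = x ^ r * (m.choose r : ℝ) := by ring
      _ ≤ (x + 1) ^ m := h1
      _ = (1 + x) ^ m := by rw [add_comm]

/-- terms of the expansion of the `F` rows of order `r`; `A` with `4 H p ≤ A M` -/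
theorem bd_dlam (A M H p S : ℕ) (hA : 1 ≤ A) (hH : 1 ≤ H) (hHA : H ≤ A) (hp : 1 ≤ p)
    (hM : 0 < M) (hMA : 4 * H * p ≤ A * M) (hMn : M ≤ 4 * H * p) (hS : S ≤ 4 * H * p)
    (β : ℕ) (hβ : β < H) (j : ℕ) (hj : j < (4 * H - 2 * (2 * β + 1)) * p) (l : ℕ) (hl : l < p)
    (r : ℕ) (hr : r ≤ S) (m κ : ℕ) :
    |dlam (4 * H * p) p (2 * β + 1) r (An ℝ M p (2 * β + 1) * Cn ℝ M j) κ *
      PowerSeries.coeff m (yl ℝ p l ^ (4 * H * p + κ))| ≤
      (100 * (A : ℝ)) ^ (5 * (4 * H * p)) * (4 / 5 : ℝ) ^ (2 * κ) := by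
  have h0 := bds_gam A M H p hA hH hHA hp hM hMA β hβ j hj l hl m κ (dl 0 r)
  set n := 4 * H * p with hn
  set G := gam (n + dl 0 r) p (2 * β + 1) (An ℝ M p (2 * β + 1) * Cn ℝ M j) κ with hG
  set Y := PowerSeries.coeff m (yl ℝ p l ^ (n + κ)) with hY
  have hAR : (1 : ℝ) ≤ A := by exact_mod_cast hA
  have hdl : 2 * dl 0 r + r % 2 = r := by unfold dl; omega
  have hn1 : 1 ≤ n := by
    have : 1 * 1 ≤ 4 * H * p := Nat.mul_le_mul (by omega) hp
    omega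
  have hrn : r ≤ n := hr.trans hS
  -- binomial
  have hch := bds_choose (2 * (n + dl 0 r + κ) + r % 2) r (1 / 15) (by norm_num)
  have hbin : ((2 * (n + dl 0 r + κ) + r % 2).choose r : ℝ) * 2 ^ r ≤
      (37 : ℝ) ^ n * (16 / 15 : ℝ) ^ (2 * κ) := by
    have e1 : (1 + (1 : ℝ) / 15) ^ (2 * (n + dl 0 r + κ) + r % 2) ≤
        (16 / 15 : ℝ) ^ (3 * n) * (16 / 15 : ℝ) ^ (2 * κ) := by
      rw [← pow_add, show (1 : ℝ) + 1 / 15 = 16 / 15 by norm_num]
      exact pow_le_pow_right₀ (by norm_num) (by omega)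
    have e2 : ((1 : ℝ) / (1 / 15)) ^ r * 2 ^ r ≤ (30 : ℝ) ^ n := by
      rw [← mul_pow, show (1 : ℝ) / (1 / 15) * 2 = 30 by norm_num]
      exact pow_le_pow_right₀ (by norm_num) hrn
    calc ((2 * (n + dl 0 r + κ) + r % 2).choose r : ℝ) * 2 ^ r
        ≤ ((1 + (1 : ℝ) / 15) ^ (2 * (n + dl 0 r + κ) + r % 2) * (1 / (1 / 15)) ^ r) * 2 ^ r :=
          mul_le_mul_of_nonneg_right hch (by positivity)
      _ = (1 + (1 : ℝ) / 15) ^ (2 * (n + dl 0 r + κ) + r % 2) * ((1 / (1 / 15)) ^ r * 2 ^ r) := by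
          ring
      _ ≤ ((16 / 15 : ℝ) ^ (3 * n) * (16 / 15 : ℝ) ^ (2 * κ)) * (30 : ℝ) ^ n :=
          mul_le_mul e1 e2 (by positivity) (by positivity)
      _ = (((16 / 15 : ℝ) ^ 3) ^ n * (30 : ℝ) ^ n) * (16 / 15 : ℝ) ^ (2 * κ) := by
          rw [← pow_mul]; ring
      _ ≤ (37 : ℝ) ^ n * (16 / 15 : ℝ) ^ (2 * κ) := by
          apply mul_le_mul_of_nonneg_right _ (by positivity)
          rw [← mul_pow]
          exact pow_le_pow_left₀ (by positivity) (by norm_num) n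
  have hexp : Real.exp (2 * M) ≤ (8 : ℝ) ^ n := by
    have h1 : Real.exp (2 * M) ≤ Real.exp (2 * n) := by
      apply Real.exp_le_exp.2
      have : (M : ℝ) ≤ n := by exact_mod_cast hMn
      linarith
    have h2 : Real.exp (2 * (n : ℝ)) = (Real.exp 1 ^ 2) ^ n := by
      rw [← pow_mul, ← Real.exp_nat_mul]
      congr 1
      push_cast
      ring
    have h3 : Real.exp 1 ^ 2 ≤ 8 := by
      have := Real.exp_one_lt_d9
      have h4 := Real.exp_pos 1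
      nlinarith
    rw [h2] at h1
    exact h1.trans (pow_le_pow_left₀ (by positivity) h3 n)
  have hp2 : 300 * (p : ℝ) ^ 2 ≤ (1200 : ℝ) ^ n := by
    have h1 : (p : ℝ) ≤ 2 ^ n := by
      have h2 : p ≤ n := by rw [hn]; nlinarith
      have h3 : p ≤ 2 ^ n := h2.trans (Nat.lt_two_pow_self (n := n)).le
      exact_mod_cast h3
    have hp0 : (0 : ℝ) ≤ p := by positivity
    have h4 : (p : ℝ) ^ 2 ≤ 4 ^ n := by
      calc (p : ℝ) ^ 2 ≤ (2 ^ n) ^ 2 := pow_le_pow_left₀ hp0 h1 2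
        _ = 4 ^ n := by rw [← pow_mul, mul_comm, pow_mul]; norm_num
    have h5 : (300 : ℝ) ≤ 300 ^ n := by
      calc (300 : ℝ) = 300 ^ 1 := by norm_num
        _ ≤ 300 ^ n := pow_le_pow_right₀ (by norm_num) hn1
    calc 300 * (p : ℝ) ^ 2 ≤ 300 ^ n * 4 ^ n := mul_le_mul h5 h4 (by positivity) (by positivity)
      _ = 1200 ^ n := by rw [← mul_pow]; norm_num
  have hA3 : (A : ℝ) ^ 3 ≤ ((A : ℝ) ^ 3) ^ n := by
    calc (A : ℝ) ^ 3 = ((A : ℝ) ^ 3) ^ 1 := by rw [pow_one]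
      _ ≤ ((A : ℝ) ^ 3) ^ n := pow_le_pow_right₀ (one_le_pow₀ hAR) hn1
  have hN : 300 * (p : ℝ) ^ 2 * (A : ℝ) ^ 3 * (10 * (A : ℝ) ^ 2) ^ n * Real.exp (2 * M) ≤
      (96000 * (A : ℝ) ^ 5) ^ n := by
    calc 300 * (p : ℝ) ^ 2 * (A : ℝ) ^ 3 * (10 * (A : ℝ) ^ 2) ^ n * Real.exp (2 * M)
        ≤ (1200 : ℝ) ^ n * ((A : ℝ) ^ 3) ^ n * (10 * (A : ℝ) ^ 2) ^ n * (8 : ℝ) ^ n := by
          gcongr
      _ = (96000 * (A : ℝ) ^ 5) ^ n := by
          rw [← mul_pow, ← mul_pow, ← mul_pow]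
          congr 1
          ring
  have habs : |dlam n p (2 * β + 1) r (An ℝ M p (2 * β + 1) * Cn ℝ M j) κ * Y| =
      |G * Y| * (((2 * (n + dl 0 r + κ) + r % 2).choose r : ℝ) * 2 ^ r) := by
    unfold dlam
    rw [← hG, abs_mul, abs_mul G, abs_mul G Y, abs_of_nonneg (show (0 : ℝ) ≤
      (((2 * (n + dl 0 r + κ) + r % 2).choose r : ℝ) * 2 ^ r) by positivity)]
    ring
  rw [habs]
  calc |G * Y| * (((2 * (n + dl 0 r + κ) + r % 2).choose r : ℝ) * 2 ^ r)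
      ≤ ((96000 * (A : ℝ) ^ 5) ^ n * (3 / 4 : ℝ) ^ (2 * κ)) *
        ((37 : ℝ) ^ n * (16 / 15 : ℝ) ^ (2 * κ)) := by
        apply mul_le_mul _ hbin (by positivity) (by positivity)
        exact h0.trans (mul_le_mul_of_nonneg_right hN (by positivity))
    _ = ((96000 * (A : ℝ) ^ 5) * 37) ^ n * ((3 / 4 : ℝ) * (16 / 15)) ^ (2 * κ) := by
        rw [mul_pow (96000 * (A : ℝ) ^ 5) 37, mul_pow (3 / 4 : ℝ)]; ring
    _ ≤ (100 * (A : ℝ)) ^ (5 * n) * (4 / 5 : ℝ) ^ (2 * κ) := by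
        rw [show (3 / 4 : ℝ) * (16 / 15) = 4 / 5 by norm_num, pow_mul (100 * (A : ℝ)) 5 n]
        apply mul_le_mul_of_nonneg_right _ (by positivity)
        apply pow_le_pow_left₀ (by positivity)
        have h5 : (0 : ℝ) ≤ (A : ℝ) ^ 5 := by positivity
        have e : (100 * (A : ℝ)) ^ 5 = 10000000000 * (A : ℝ) ^ 5 := by ring
        rw [e]
        nlinarith

end Pool.Agent.DM
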