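import Pool.Agent.ZC.LA4
import Pool.Agent.DIM.JDI

/-!
# DM: joint determinant inequality (abstract)

Rows `(cT, 0)`, `(cF, Y)` in the space of the columns `Col ⊕ (J × Col)`. Choose `T' ⊂ Tt` and
`I ⊂ Fi` such that the rows of `T'` and `I` form a basis of the span of all rows; `|I| - rank Y ≥ f`
by `SS`. The columns of the minor are chosen so that those in `J × Col` span all of them, real shear
of the columns, expansion over the subsets of `I` (`MultilinearMap.map_add_univ`), `good_lemma` for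
the others (see `Pool.Agent.DIM.JDI`).
-/

namespace Pool.Agent.DM

open Finset Pool.Agent.ZC

theorem det_ineq_joint {Tt Fi Col J : Type} [Fintype Tt] [Fintype Fi] [Fintype Col] [Fintype J]
    (cT : Tt → Col → ℚ) (cF : Fi → Col → ℚ) (Y : Fi → J → Col → ℚ) (v : J → ℝ)
    (D : ℕ) (hD : 0 < D) (hiT : ∀ i x, ∃ w : ℤ, (D : ℚ) * cT i x = w)
    (hiF : ∀ y x, ∃ w : ℤ, (D : ℚ) * cF y x = w) (hiY : ∀ y j x, ∃ w : ℤ, (D : ℚ) * Y y j x = w)
    (N t : ℝ) (hN : 1 ≤ N) (ht0 : 0 < t) (ht1 : t < 1) (lam : Fi → ℕ → ℝ) (u : ℕ → Col → ℝ)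
    (h1 : ∀ i x, |(cT i x : ℝ)| ≤ N) (hY : ∀ y j x, |(Y y j x : ℝ)| ≤ N)
    (h2 : ∀ y k x, |lam y k * u k x| ≤ N * t ^ (2 * k))
    (h3 : ∀ y, ∃ α : Tt → ℝ, ∀ x, HasSum (fun k => lam y k * u k x)
      ((cF y x : ℝ) + ∑ j, v j * (Y y j x : ℝ) - ∑ i, α i * (cT i x : ℝ)))
    (f : ℕ) (SS : Submodule ℚ (Fi → ℚ)) (hf : f ≤ Module.finrank ℚ SS)
    (hS : ∀ s ∈ SS, (∀ j x, ∑ y, s y * Y y j x = 0) ∧
      (∀ e : Tt → ℚ, (∀ x, ∑ y, s y * cF y x + ∑ i, e i * cT i x = 0) → s = 0)) :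
    1 ≤ ((D : ℝ) * (2 * N) * (1 / (1 - t))) ^ (Fintype.card Tt + Fintype.card Fi) *
      (((((Fintype.card J + 1) * Fintype.card Col).factorial : ℕ) : ℝ) *
        (1 + ∑ j, |v j|) ^ ((Fintype.card J + 1) * Fintype.card Col)) * t ^ (f * (f - 1) / 2) := by
  classical
  obtain ⟨R, hR1, hR2, hR⟩ := joint_det_ineq (Cc := Tt) (Fi := Fi) (Col := Col) (Ex := J × Col)
    (Sum.elim cT cF) (fun y e => Y y e.1 e.2) f SS hf
    (fun s hs e => (hS s hs).1 e.1 e.2)
    (fun s hs c h => (hS s hs).2 c fun x => by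
      have := h x
      simp only [Sum.elim_inl, Sum.elim_inr] at this
      rw [add_comm]
      exact this)
    D hD
    (by
      rintro (i | y) x
      · exact hiT i x
      · exact hiF y x)
    (fun y e => hiY y e.1 e.2) N t (by linarith) ht0.le ht1 lam u h1 (fun y e => hY y e.1 e.2) h2
    (fun e x => if e.2 = x then v e.1 else 0)
    (by
      intro y
      obtain ⟨α, hα⟩ := h3 y
      refine ⟨α, fun x => ?_⟩
      have e1 : ∑ e : J × Col, (if e.2 = x then v e.1 else 0) * (Y y e.1 e.2 : ℝ) =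
          ∑ j, v j * (Y y j x : ℝ) := by
        rw [Fintype.sum_prod_type]
        refine sum_congr rfl fun j _ => ?_
        simp only [ite_mul, zero_mul, Finset.sum_ite_eq', Finset.mem_univ, if_true]
      simp only [Sum.elim_inl, Sum.elim_inr]
      rw [e1]
      exact hα x)
  have ht : (1 : ℝ) ≤ 1 / (1 - t) := by
    rw [one_le_div (by linarith)]
    linarith
  have hD1 : (1 : ℝ) ≤ D := by exact_mod_cast hD
  have hv : (1 : ℝ) ≤ 1 + ∑ j, |v j| := by
    have : 0 ≤ ∑ j, |v j| := Finset.sum_nonneg fun j _ => abs_nonneg _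
    linarith
  set n := Fintype.card Tt + Fintype.card Fi with hn
  have hR3 : R ≤ (Fintype.card J + 1) * Fintype.card Col := by
    rw [Fintype.card_prod] at hR2
    linarith [add_mul (Fintype.card J) 1 (Fintype.card Col)]
  have hfac : ((R.factorial : ℕ) : ℝ) ≤
      ((((Fintype.card J + 1) * Fintype.card Col).factorial : ℕ) : ℝ) := by
    exact_mod_cast Nat.factorial_le hR3
  have hb1 : (D : ℝ) ^ R ≤ (D : ℝ) ^ n := pow_le_pow_right₀ hD1 hR1
  have hb2 : (2 : ℝ) ^ R * N ^ R ≤ (2 * N) ^ n := by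
    rw [← mul_pow]
    exact pow_le_pow_right₀ (by linarith) hR1
  have hb3 : (1 / (1 - t)) ^ Fintype.card Fi ≤ (1 / (1 - t)) ^ n :=
    pow_le_pow_right₀ ht (by omega)
  have hb4 : (1 : ℝ) ≤ (1 + ∑ j, |v j|) ^ ((Fintype.card J + 1) * Fintype.card Col) :=
    one_le_pow₀ hv
  refine hR.trans ?_
  have hN0 : (0 : ℝ) ≤ N := by linarith
  have hfac0 : (0 : ℝ) ≤ ((R.factorial : ℕ) : ℝ) := by positivity
  have hinv : (0 : ℝ) ≤ 1 / (1 - t) := by linarith
  calc (D : ℝ) ^ R * (2 ^ R * ((R.factorial : ℝ) * N ^ R * t ^ (f * (f - 1) / 2) *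
        (1 / (1 - t)) ^ Fintype.card Fi))
      = (D : ℝ) ^ R * (2 ^ R * N ^ R) * (1 / (1 - t)) ^ Fintype.card Fi * (R.factorial : ℝ) * 1 *
          t ^ (f * (f - 1) / 2) := by ring
    _ ≤ (D : ℝ) ^ n * (2 * N) ^ n * (1 / (1 - t)) ^ n *
          ((((Fintype.card J + 1) * Fintype.card Col).factorial : ℕ) : ℝ) *
          (1 + ∑ j, |v j|) ^ ((Fintype.card J + 1) * Fintype.card Col) *
          t ^ (f * (f - 1) / 2) := by
        gcongr
    _ = _ := by
        have e9 : ((D : ℝ) * (2 * N) * (1 / (1 - t))) ^ n =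
            (D : ℝ) ^ n * (2 * N) ^ n * (1 / (1 - t)) ^ n := by
          rw [← mul_pow, ← mul_pow]
        rw [e9]
        ring

end Pool.Agent.DM
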