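import Pool.Agent.DM.ZDF
import Pool.Agent.ZC.CORA

/-!
# DM, zero estimate: operators which come from combinations of rows
-/

namespace Pool.Agent.DM

open Finset Polynomial Pool.Agent.ZC Pool.Agent.SI

variable {K : Type*} [Field K]

private theorem dis_split {M : Type*} [AddCommMonoid M] (N : ℕ) (g : ℕ → M) :
    ∑ i ∈ range (2 * N), g i = ∑ i ∈ range N, (g (2 * i) + g (2 * i + 1)) := by
  induction N with
  | zero => simp
  | succ N ih =>
    rw [show 2 * (N + 1) = 2 * N + 1 + 1 by ring, Finset.sum_range_succ, Finset.sum_range_succ,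
      Finset.sum_range_succ, ih, add_assoc]

private theorem dis_sum_comp (s : Finset ℕ) (g : ℕ → K[X]) (q : K[X]) :
    (∑ k ∈ s, g k).comp q = ∑ k ∈ s, (g k).comp q := by
  have h := map_sum (compRingHom q) g s
  simpa only [coe_compRingHom_apply] using h

/-- polynomials of parity `e` in `w` -/
private theorem dis_par [CharZero K] (p e : ℕ) (he : e < 2) (F : K[X])
    (h : C ((-1) ^ e) * F.comp (C (-(2 * (p : K) - 1)) - X) = F) : ∃ f, F = pw p e f := by
  set L : K[X] := C (1 / 2) * X - C ((2 * (p : K) - 1) / 2) with hL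
  set Q := F.comp L with hQ
  have hLw : L.comp (wpol K p) = X := by
    rw [hL, wpol]
    simp only [sub_comp, mul_comp, C_comp, X_comp]
    rw [mul_add, ← mul_assoc, ← C_mul, ← C_mul, show (1 / 2 : K) * 2 = 1 by rw [one_div, inv_mul_cancel₀ two_ne_zero], C_1, one_mul,
      show (1 / 2 : K) * (2 * (p : K) - 1) = (2 * (p : K) - 1) / 2 by ring]
    ring
  have hF : F = Q.comp (wpol K p) := by
    rw [hQ, comp_assoc, hLw, comp_X]
  have hneg : C ((-1) ^ e) * Q.comp (C (-1) * X) = Q := by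
    have h1 : Q.comp (C (-1) * X) = (F.comp (C (-(2 * (p : K) - 1)) - X)).comp L := by
      rw [hQ, comp_assoc, comp_assoc]
      congr 1
      rw [hL]
      simp only [sub_comp, mul_comp, C_comp, X_comp]
      rw [show (C (-(2 * (p : K) - 1)) : K[X]) =
        - C ((2 * (p : K) - 1) / 2) - C ((2 * (p : K) - 1) / 2) by
          rw [← C_neg, ← C_sub]; congr 1; ring]
      rw [show (C (-1) : K[X]) = -1 by rw [C_neg, C_1]]
      ring
    rw [h1]
    have h2 := congrArg (fun q => q.comp L) h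
    simp only [mul_comp, C_comp] at h2
    exact h2
  have hco : ∀ i, (-1 : K) ^ e * (Q.coeff i * (-1) ^ i) = Q.coeff i := by
    intro i
    have h2 := congrArg (fun q => q.coeff i) hneg
    simp only [coeff_C_mul, comp_C_mul_X_coeff] at h2
    exact h2
  have hvan : ∀ i, (i + e) % 2 = 1 → Q.coeff i = 0 := by
    intro i hi
    have h2 := hco i
    have h3 : (-1 : K) ^ e * (-1) ^ i = -1 := by
      rw [← pow_add, add_comm e i]
      exact Odd.neg_one_pow (Nat.odd_iff.2 hi)
    have h4 : (-1 : K) ^ e * (Q.coeff i * (-1) ^ i) = -Q.coeff i := by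
      linear_combination (Q.coeff i) * h3
    rw [h4] at h2
    have h5 : (2 : K) * Q.coeff i = 0 := by linear_combination -h2
    exact (mul_eq_zero.1 h5).resolve_left two_ne_zero
  refine ⟨∑ i ∈ range (Q.natDegree + 1), C (Q.coeff (2 * i + e)) * X ^ i, ?_⟩
  have hsum : Q = ∑ i ∈ range (Q.natDegree + 1), C (Q.coeff (2 * i + e)) * X ^ (2 * i + e) := by
    have h1 : Q = ∑ i ∈ range (2 * (Q.natDegree + 1)), C (Q.coeff i) * X ^ i :=
      Polynomial.as_sum_range_C_mul_X_pow' Q (by omega)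
    conv_lhs => rw [h1]
    rw [dis_split]
    refine Finset.sum_congr rfl fun i _ => ?_
    rcases (show e = 0 ∨ e = 1 by omega) with rfl | rfl
    · rw [hvan (2 * i + 1) (by omega)]; simp
    · rw [hvan (2 * i) (by omega)]; simp
  rw [hF]
  conv_lhs => rw [hsum]
  rw [pw, dis_sum_comp, dis_sum_comp, Finset.mul_sum]
  refine Finset.sum_congr rfl fun i _ => ?_
  simp only [mul_comp, C_comp, pow_comp, X_comp]
  rw [← wpol_sq, ← pow_mul, pow_add]
  ring

/-- divisibility by the multiplier -/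
private theorem dis_An [CharZero K] (M p b : ℕ) (hb : 0 < b) (f : K[X])
    (hz : ∀ k < 2 * b * p, f.eval (((2 * (k : K) + 1) / b) ^ 2) = 0) :
    ∃ g, f = An K M p b * g := by
  have hb0 : (b : K) ≠ 0 := Nat.cast_ne_zero.2 (by omega)
  set r : ℕ → K := fun k => ((2 * (k : K) + 1) / b) ^ 2 with hr
  have hinj : Function.Injective r := by
    intro k k' h
    simp only [hr] at h
    rw [div_pow, div_pow] at h
    have h1 : (2 * (k : K) + 1) ^ 2 = (2 * (k' : K) + 1) ^ 2 := by
      rwa [div_left_inj' (pow_ne_zero 2 hb0)] at h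
    have h2 : (2 * k + 1) ^ 2 = (2 * k' + 1) ^ 2 := by exact_mod_cast h1
    have h3 := Nat.pow_left_injective (n := 2) (by norm_num) h2
    omega
  have hdvd : ∏ k ∈ range (2 * b * p), (X - C (r k)) ∣ f := by
    refine Finset.prod_dvd_of_coprime ?_ ?_
    · intro i _ j _ hij
      exact Polynomial.pairwise_coprime_X_sub_C hinj hij
    · intro k hk
      rw [Polynomial.dvd_iff_isRoot]
      exact hz k (mem_range.1 hk)
  obtain ⟨h, hh⟩ := hdvd
  have hAn : An K M p b = C ((((4 ^ (2 * b * p) * bf M (4 * b * p) : ℕ) : K))⁻¹ *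
      ((b : K) ^ 2) ^ (2 * b * p)) * ∏ k ∈ range (2 * b * p), (X - C (r k)) := by
    rw [An, Cp, Polynomial.prod_comp, C_mul,
      mul_assoc (C ((((4 ^ (2 * b * p) * bf M (4 * b * p) : ℕ) : K))⁻¹))]
    congr 1
    have h1 : (C (((b : K) ^ 2) ^ (2 * b * p)) : K[X]) =
        ∏ k ∈ range (2 * b * p), C ((b : K) ^ 2) := by
      rw [prod_const, card_range, ← C_pow]
    rw [h1, ← prod_mul_distrib]
    refine prod_congr rfl fun k _ => ?_
    rw [sub_comp, X_comp, C_comp, mul_sub, ← C_mul]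
    congr 2
    simp only [hr]
    field_simp
  set c := (((4 ^ (2 * b * p) * bf M (4 * b * p) : ℕ) : K))⁻¹ *
      ((b : K) ^ 2) ^ (2 * b * p) with hc
  have hc0 : c ≠ 0 := by
    have := bf_pos M (4 * b * p)
    have h2 : (((4 ^ (2 * b * p) * bf M (4 * b * p) : ℕ) : K)) ≠ 0 :=
      Nat.cast_ne_zero.2 (by positivity)
    exact mul_ne_zero (inv_ne_zero h2) (pow_ne_zero _ (pow_ne_zero _ hb0))
  refine ⟨C c⁻¹ * h, ?_⟩
  rw [hAn, hh]
  have h1 : (C c : K[X]) * C c⁻¹ = 1 := by rw [← C_mul, mul_inv_cancel₀ hc0, C_1]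
  linear_combination (-(∏ k ∈ range (2 * b * p), (X - C (r k))) * h) * h1

/-- one component -/
private theorem dis_one [CharZero K] (B H p M β r : ℕ) (hBH : B ≤ H) (hp : 0 < p) (hβ : β < B) (F : K[X])
    (hpar : C ((-1) ^ r) * F.comp (C (-(2 * (p : K) - 1)) - X) = F)
    (hdeg : F.natDegree < 2 * (4 * H * p))
    (hz : ∀ w0 : ℚ, odp β w0 → |w0| < 4 * (p : ℚ) →
      F.eval (((w0 - (2 * (p : ℚ) - 1)) / 2 : ℚ) : K) = 0) :
    ∃ x : Fin ((4 * H - 2 * (2 * β + 1)) * p) → K,
      pw p (r % 2) (An K M p (2 * β + 1) * ∑ j, C (x j) * Cn K M (j : ℕ)) = F := by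
  have hr2 : ((-1 : K)) ^ (r % 2) = (-1) ^ r := by
    conv_rhs => rw [← Nat.div_add_mod r 2]
    rw [pow_add, pow_mul]
    norm_num
  obtain ⟨f, hf⟩ := dis_par p (r % 2) (Nat.mod_lt _ (by norm_num)) F (by rw [hr2]; exact hpar)
  have hw : ∀ w0 : ℚ, (wpol K p).eval (((w0 - (2 * (p : ℚ) - 1)) / 2 : ℚ) : K) = (w0 : K) := by
    intro w0
    rw [wpol]
    simp only [eval_add, eval_mul, eval_C, eval_X]
    push_cast
    field_simp
    ring
  have hfz : ∀ k < 2 * (2 * β + 1) * p, f.eval (((2 * (k : K) + 1) / (2 * β + 1 : ℕ)) ^ 2) = 0 := by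
    intro k hk
    set w0 : ℚ := (2 * (k : ℚ) + 1) / (2 * β + 1 : ℕ) with hw0
    have hb0 : (0 : ℚ) < ((2 * β + 1 : ℕ) : ℚ) := by positivity
    have hpos : 0 < w0 := by rw [hw0]; positivity
    have h1 : odp β w0 := by
      refine ⟨k, ?_⟩
      rw [hw0]
      push_cast
      field_simp
    have h2 : |w0| < 4 * (p : ℚ) := by
      rw [abs_of_pos hpos, hw0, div_lt_iff₀ hb0]
      have h3 : 2 * k + 1 < 4 * p * (2 * β + 1) := by
        have : 2 * (2 * (2 * β + 1) * p) = 4 * p * (2 * β + 1) := by ring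
        omega
      exact_mod_cast h3
    have h3 := hz w0 h1 h2
    rw [hf, pw, eval_mul, eval_pow, hw, eval_comp, ← wpol_sq, eval_pow, hw] at h3
    have hc : ((2 * (k : K) + 1) / (2 * β + 1 : ℕ)) = (w0 : K) := by
      rw [hw0]
      push_cast
      rfl
    rw [hc]
    rcases mul_eq_zero.1 h3 with h4 | h4
    · exact absurd h4 (pow_ne_zero _ (Rat.cast_ne_zero.2 hpos.ne'))
    · exact h4
  obtain ⟨g, hg⟩ := dis_An M p (2 * β + 1) (by omega) f hfz
  have hgdeg : g ∈ Polynomial.degreeLT K ((4 * H - 2 * (2 * β + 1)) * p) := by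
    rw [Polynomial.mem_degreeLT]
    by_cases hg0 : g = 0
    · rw [hg0, degree_zero]
      exact WithBot.bot_lt_coe _
    have hAd := An_degree K M p (2 * β + 1) (by omega)
    have hA0 : An K M p (2 * β + 1) ≠ 0 := by
      intro h0
      rw [h0, degree_zero] at hAd
      exact WithBot.bot_ne_coe hAd
    have hAn := Polynomial.natDegree_eq_of_degree_eq_some hAd
    have hf0 : f ≠ 0 := by rw [hg]; exact mul_ne_zero hA0 hg0
    have hfc : f.comp (tp K p) ≠ 0 := by
      intro h0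
      have := comp_tp_injective (K := K) p (show f.comp (tp K p) = (0 : K[X]).comp (tp K p) by
        rw [h0, zero_comp])
      exact hf0 this
    have hFd : F.natDegree = (r % 2) + 2 * f.natDegree := by
      rw [hf, pw, natDegree_mul (pow_ne_zero _ (wpol_ne_zero p)) hfc, natDegree_pow,
        natDegree_wpol, natDegree_comp_tp, mul_one]
    have hfd : f.natDegree = 2 * (2 * β + 1) * p + g.natDegree := by
      rw [hg, natDegree_mul hA0 hg0, hAn]
    rw [degree_eq_natDegree hg0]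
    have h1 : (4 * H - 2 * (2 * β + 1)) * p = 4 * H * p - 2 * (2 * β + 1) * p :=
      Nat.sub_mul _ _ _
    have h2 : 2 * (2 * β + 1) * p ≤ 4 * H * p := Nat.mul_le_mul_right _ (by omega)
    have h3 : g.natDegree < (4 * H - 2 * (2 * β + 1)) * p := by
      rw [h1]
      omega
    exact_mod_cast h3
  obtain ⟨x, hx⟩ := exists_comb K M _ g hgdeg
  exact ⟨x, by rw [← hx, ← hg, ← hf]⟩

/-- operators with the right parity and degree which satisfy the conditions -/
theorem thx_surj [CharZero K] (B H S p M : ℕ) (hBH : B ≤ H) (hM : 0 < M) (hp : 0 < p) (P : ℕ → ℕ → K[X])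
    (hsup : ∀ β k, P β k ≠ 0 → β < B ∧ k ≤ S)
    (hpar : ∀ β k, C ((-1) ^ k) * (P β k).comp (C (-(2 * (p : K) - 1)) - X) = P β k)
    (hdeg : ∀ β k, (P β k).natDegree < 2 * (4 * H * p))
    (hA : ∀ β < B, ∀ w0 : ℚ, odp β w0 → |w0| < 4 * (p : ℚ) → ∀ r ≤ S,
      (rf S (P β) r).eval (((w0 - (2 * (p : ℚ) - 1)) / 2 : ℚ) : K) = 0) :
    ∃ x : FI B H S p → K, ∀ β k, k ≤ S → thx B H S p M x β k = P β k := by
  have key : ∀ (β : Fin B) (r : Fin (S + 1)),
      ∃ x : Fin ((4 * H - 2 * (2 * (β : ℕ) + 1)) * p) → K,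
      pw p ((r : ℕ) % 2) (An K M p (2 * (β : ℕ) + 1) * ∑ j, C (x j) * Cn K M (j : ℕ)) =
        rf S (P β) r := by
    intro β r
    have hr : (r : ℕ) ≤ S := by have := r.2; omega
    refine dis_one B H p M β r hBH hp β.2 _ ?_ ?_ ?_
    · have h1 := rf_refl S (P β) (r : ℕ) (-(2 * (p : K) - 1))
      rw [← h1]
      congr 1
      funext k
      exact hpar β k
    · have h1 : 0 < 4 * H * p := Nat.mul_pos (by have := β.2; omega) hp
      exact natDegree_rf_lt S (P β) r _ (by omega) fun k _ => hdeg β k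
    · intro w0 h1 h2
      exact hA β β.2 w0 h1 h2 r hr
  choose x hx using key
  refine ⟨fun y => x y.1 y.2.1 y.2.2, fun β k hk => ?_⟩
  unfold thx
  by_cases hβ : β < B
  · have h1 : ∀ r ∈ Icc k S, fx B H S p M (fun y => x y.1 y.2.1 y.2.2) β r = rf S (P β) r := by
      intro r hr
      rw [mem_Icc] at hr
      unfold fx
      rw [dif_pos ⟨hβ, by omega⟩]
      exact hx ⟨β, hβ⟩ ⟨r, by omega⟩
    have h2 : lf S (fx B H S p M (fun y => x y.1 y.2.1 y.2.2) β) k = lf S (rf S (P β)) k := by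
      unfold lf
      exact Finset.sum_congr rfl fun r hr => by rw [h1 r hr]
    rw [h2, lf_rf S (P β) k hk]
  · have h1 : P β k = 0 := by
      by_contra h
      exact hβ (hsup β k h).1
    rw [h1]
    unfold lf
    refine Finset.sum_eq_zero fun r _ => ?_
    unfold fx
    rw [dif_neg (fun h => hβ h.1), map_zero]

end Pool.Agent.DM
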