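import Pool.Agent.DM.ZDF
import Pool.Agent.ZC.CORA

/-!
# DM, zero estimate: dictionary between combinations of rows and operators
-/

namespace Pool.Agent.DM

open Finset Polynomial Pool.Agent.ZC Pool.Agent.SI

variable {K : Type*} [Field K]

private theorem dix_An_ne_zero [CharZero K] (M p b : ℕ) (hb : b ≠ 0) : An K M p b ≠ 0 := by
  intro h0
  have h1 := An_degree K M p b hb
  rw [h0, degree_zero] at h1
  exact WithBot.bot_ne_coe h1

private noncomputable def dix_seq (K : Type*) [Field K] [CharZero K] (M : ℕ) :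
    Polynomial.Sequence K where
  elems' := fun j => Cn K M j
  degree_eq' := fun j => Cn_degree K M j

private theorem dix_sum_eq_zero [CharZero K] (M n : ℕ) (g : Fin n → K)
    (h : ∑ j : Fin n, C (g j) * Cn K M j = 0) : ∀ j, g j = 0 := by
  have h1 : LinearIndependent K (fun j : Fin n => Cn K M j) :=
    (dix_seq K M).linearIndependent.comp (fun j : Fin n => (j : ℕ)) Fin.val_injective
  exact Fintype.linearIndependent_iff.1 h1 g (by simpa only [Polynomial.smul_eq_C_mul] using h)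

private theorem dix_ev_mul (p l : ℕ) (f g : K[X]) : ev K p l (f * g) = ev K p l f * ev K p l g := by
  unfold ev
  rw [map_mul]

private theorem dix_ev_sum {ι : Type*} (s : Finset ι) (p l : ℕ) (f : ι → K[X]) :
    ev K p l (∑ i ∈ s, f i) = ∑ i ∈ s, ev K p l (f i) := by
  unfold ev
  rw [map_sum]

private theorem dix_pw_add (p e : ℕ) (f g : K[X]) : pw p e (f + g) = pw p e f + pw p e g := by
  unfold pw
  rw [add_comp, mul_add]

private theorem dix_pw_C_mul (p e : ℕ) (c : K) (f : K[X]) :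
    pw p e (C c * f) = C c * pw p e f := by
  unfold pw
  rw [mul_comp, C_comp]
  ring

private theorem dix_fx_add (B H S p M : ℕ) (x y : FI B H S p → K) (β r : ℕ) :
    fx B H S p M (x + y) β r = fx B H S p M x β r + fx B H S p M y β r := by
  unfold fx
  split_ifs with h
  · rw [← dix_pw_add, ← mul_add, ← Finset.sum_add_distrib]
    congr 2
    refine Finset.sum_congr rfl fun j _ => ?_
    rw [Pi.add_apply, C_add, add_mul]
  · rw [add_zero]

private theorem dix_fx_smul (B H S p M : ℕ) (c : K) (x : FI B H S p → K) (β r : ℕ) :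
    fx B H S p M (c • x) β r = c • fx B H S p M x β r := by
  unfold fx
  split_ifs with h
  · rw [smul_eq_C_mul, ← dix_pw_C_mul]
    have key : ∑ j, C ((c • x) ⟨⟨β, h.1⟩, (⟨r, h.2⟩, j)⟩) * Cn K M (j : ℕ) =
        C c * ∑ j, C (x ⟨⟨β, h.1⟩, (⟨r, h.2⟩, j)⟩) * Cn K M (j : ℕ) := by
      rw [Finset.mul_sum]
      refine Finset.sum_congr rfl fun j _ => ?_
      rw [Pi.smul_apply, smul_eq_mul, C_mul, mul_assoc]
    rw [key, mul_left_comm]
  · rw [smul_zero]

theorem thx_add (B H S p M : ℕ) (x y : FI B H S p → K) :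
    thx B H S p M (x + y) = thx B H S p M x + thx B H S p M y := by
  funext β k
  simp only [Pi.add_apply, thx, lf, dix_fx_add, map_add, Finset.sum_add_distrib]

theorem thx_smul (B H S p M : ℕ) (c : K) (x : FI B H S p → K) :
    thx B H S p M (c • x) = c • thx B H S p M x := by
  funext β k
  simp only [Pi.smul_apply, thx, lf, dix_fx_smul, map_smul, Finset.smul_sum]

private theorem dix_comp_tp [CharZero K] (p : ℕ) (f : K[X]) (h : f.comp (tp K p) = 0) : f = 0 := by
  rcases comp_eq_zero_iff.1 h with h1 | ⟨_, h1⟩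
  · exact h1
  · exfalso
    have h2 : (tp K p).natDegree = 2 := by
      rw [← wpol_sq, natDegree_pow, natDegree_wpol]
    rw [h1, natDegree_C] at h2
    omega

theorem thx_inj [CharZero K] (B H S p M : ℕ) (hM : 0 < M) (x : FI B H S p → K)
    (h : ∀ β < B, ∀ k ≤ S, thx B H S p M x β k = 0) : x = 0 := by
  have h1 : ∀ β < B, ∀ r ≤ S, fx B H S p M x β r = 0 := by
    intro β hβ r hr
    rw [← rf_lf S (fx B H S p M x β) r hr]
    unfold rf
    refine Finset.sum_eq_zero fun k hk => ?_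
    rw [mem_Icc] at hk
    have h2 := h β hβ k hk.2
    unfold thx at h2
    rw [h2, map_zero, mul_zero]
  funext y
  obtain ⟨⟨β, hβ⟩, ⟨r, hr⟩, j⟩ := y
  have h2 := h1 β hβ r (by omega)
  unfold fx at h2
  rw [dif_pos ⟨hβ, hr⟩] at h2
  unfold pw at h2
  have h3 : (An K M p (2 * β + 1) * ∑ j, C (x ⟨⟨β, hβ⟩, (⟨r, hr⟩, j)⟩) * Cn K M (j : ℕ)).comp
      (tp K p) = 0 := (mul_eq_zero.1 h2).resolve_left (pow_ne_zero _ (wpol_ne_zero p))
  have h4 := (mul_eq_zero.1 (dix_comp_tp p _ h3)).resolve_left (dix_An_ne_zero M p (2 * β + 1) (by omega))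
  exact dix_sum_eq_zero M _ _ h4 j

private theorem dix_ev [CharZero K] (p l e : ℕ) (f : K[X]) :
    loc K l (pw p e f) = hl K p l ^ e * ev K p l f := by
  unfold pw
  rw [map_mul, map_pow, loc_wpol, ← ev_eq_loc]
  rfl

private theorem dix_ev_C (p l : ℕ) (c : K) (f : K[X]) :
    ev K p l (C c * f) = PowerSeries.C c * ev K p l f := by
  unfold ev
  rw [map_mul, Polynomial.aeval_C]
  rfl

/-- combinations of rows -/
theorem thx_row [CharZero K] (B H S p M : ℕ) (x : FI B H S p → K) (l : ℕ) (G : ℕ → PowerSeries K) :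
    ∑ y : FI B H S p, PowerSeries.C (x y) * hs K (y.2.1 : ℕ) (hl K p l ^ ((y.2.1 : ℕ) % 2) *
        ev K p l (fB K M p (y.1 : ℕ) (y.2.2 : ℕ)) * G (y.1 : ℕ)) =
      ∑ β ∈ range B, ∑ k ∈ range (S + 1), loc K l (thx B H S p M x β k) * hs K k (G β) := by
  have h1 : ∀ β : Fin B, ∑ y : Fin (S + 1) × Fin ((4 * H - 2 * (2 * (β : ℕ) + 1)) * p),
      PowerSeries.C (x ⟨β, y⟩) * hs K (y.1 : ℕ) (hl K p l ^ ((y.1 : ℕ) % 2) *
        ev K p l (fB K M p (β : ℕ) (y.2 : ℕ)) * G (β : ℕ)) =
      ∑ r ∈ range (S + 1), hs K r (loc K l (fx B H S p M x β r) * G β) := by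
    intro β
    rw [Fintype.sum_prod_type, Finset.sum_range]
    refine Finset.sum_congr rfl fun r _ => ?_
    unfold fx
    rw [dif_pos ⟨β.2, r.2⟩, dix_ev, dix_ev_mul, dix_ev_sum, Finset.mul_sum, Finset.mul_sum,
      Finset.sum_mul, hs_sum]
    refine Finset.sum_congr rfl fun j _ => ?_
    rw [dix_ev_C, ← hs_C_mul]
    congr 1
    unfold fB
    rw [dix_ev_mul]
    ring
  rw [Fintype.sum_sigma, Finset.sum_congr rfl fun β _ => h1 β]
  simp only [sum_hs_loc]
  rw [Finset.sum_range]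
  rfl

end Pool.Agent.DM
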