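import Pool.Agent.DM.REL
import Pool.Agent.DM.DIX
import Pool.Agent.DM.DIS

/-!
# DM: zero estimate over a general field
-/

namespace Pool.Agent.DM

open Finset Polynomial Pool.Agent.ZC Pool.Agent.SI

variable {K : Type*} [Field K]

theorem zeg_sg_zs (b : ℕ) (T : ℕ) (z : ℕ → K) :
    PowerSeries.evalNegHom (zs K b (oddS T) z) = zs K b (oddS T) z := by
  unfold zs
  rw [map_sum]
  refine Finset.sum_congr rfl fun i hi => ?_
  have h1 : Odd i := (Finset.mem_filter.1 hi).2
  rw [map_mul, sg_C, sg_X_pow h1]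

theorem zeg_hs_zero (b T s0 k : ℕ) (hk : s0 ≤ k) (z : ℕ → K)
    (hz : ∀ i ∈ oddS T, s0 < i → z i = 0) : hs K k (zs K b (oddS T) z) = 0 := by
  ext m
  rw [coeff_hs]
  have h1 : PowerSeries.coeff (m + k) (zs K b (oddS T) z) = 0 := by
    unfold zs
    rw [map_sum]
    refine Finset.sum_eq_zero fun i hi => ?_
    rw [PowerSeries.coeff_C_mul, PowerSeries.coeff_X_pow]
    by_cases h2 : s0 < i
    · rw [hz i hi h2, mul_zero, zero_mul]
    · have h3 : 3 ≤ i := (Finset.mem_Icc.1 (Finset.mem_filter.1 hi).1).1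
      rw [if_neg (by omega), mul_zero]
  rw [h1, mul_zero, map_zero]

/-- relations at the poles `l < p` hold at all poles -/
theorem zeg_rel_all [CharZero K] (B S a p : ℕ) (hp : 1 ≤ p) (I : Finset ℕ)
    (hI : ∀ i ∈ I, Odd i) (z : ℕ → K)
    (q : K[X]) (P : ℕ → ℕ → K[X])
    (hpar : ∀ β k, C ((-1) ^ k) * (P β k).comp (C (-(2 * (p : K) - 1)) - X) = P β k)
    (hrel : ∀ l < p, (PowerSeries.X : PowerSeries K) ^ a ∣ loc K l (q.comp (tp K p)) +
      ∑ β ∈ range B, ∑ k ∈ range (S + 1), loc K l (P β k) * hs K k (Gs K p (2 * β + 1) l I z)) :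
    ∀ l ≤ 2 * p - 1, (PowerSeries.X : PowerSeries K) ^ a ∣ loc K l (q.comp (tp K p)) +
      ∑ β ∈ range B, ∑ k ∈ range (S + 1),
        loc K l (P β k) * hs K k (Gs K p (2 * β + 1) l I z) := by
  intro l hl
  by_cases hlp : l < p
  · exact hrel l hlp
  · have h1 := X_pow_dvd_sg (hrel (2 * p - 1 - l) (by omega))
    have hl' : 2 * p - 1 - l ≤ 2 * p - 1 := by omega
    have h2 : 2 * p - 1 - (2 * p - 1 - l) = l := by omega
    rw [map_add, map_sum] at h1
    rw [← ev_eq_loc, sg_ev hp hl', h2, ev_eq_loc] at h1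
    refine h1.trans (dvd_of_eq ?_)
    congr 1
    refine Finset.sum_congr rfl fun β _ => ?_
    rw [map_sum]
    refine Finset.sum_congr rfl fun k _ => ?_
    rw [map_mul, sg_hs, sg_Gs hl' (2 * β + 1) (by omega) I hI z, h2]
    have h3 : loc K l (P β k) = PowerSeries.C ((-1) ^ k) *
        PowerSeries.evalNegHom (loc K (2 * p - 1 - l) (P β k)) := by
      conv_lhs => rw [← hpar β k]
      rw [map_mul, loc_C]
      congr 1
      rw [← jet_neg, ← jet_neg]
      have h4 := jet_refl (-(l : K)) (-(2 * (p : K) - 1)) (P β k)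
      rw [h4]
      congr 2
      rw [cast_sub_sym hp hl]
      ring_nf
    rw [h3]
    ring

/-- `f ↦ w^e f(w^2)` as a linear map -/
noncomputable def pwl (p e : ℕ) : K[X] →ₗ[K] K[X] where
  toFun f := pw p e f
  map_add' f g := by
    unfold pw
    rw [add_comp, mul_add]
  map_smul' c f := by
    unfold pw
    rw [smul_comp, RingHom.id_apply, mul_smul_comm]

/-- polynomials of degree `< n` from their coefficients -/
noncomputable def fromc (m n : ℕ) : (Fin m → Fin n → K) →ₗ[K] (Fin m → K[X]) :=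
  LinearMap.pi fun i => (degreeLT K n).subtype ∘ₗ (degreeLTEquiv K n).symm.toLinearMap ∘ₗ
    LinearMap.proj i

theorem fromc_mem (m n : ℕ) (v : Fin m → Fin n → K) (i : Fin m) :
    fromc m n v i ∈ degreeLT K n := ((degreeLTEquiv K n).symm (v i)).2

theorem fromc_inj (m n : ℕ) (v : Fin m → Fin n → K) (h : fromc m n v = 0) : v = 0 := by
  funext i
  have h1 : ((degreeLTEquiv K n).symm (v i) : K[X]) = 0 := congrFun h i
  have h2 : (degreeLTEquiv K n).symm (v i) = 0 := Subtype.ext h1
  have h3 : v i = 0 := by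
    rw [LinearEquiv.map_eq_zero_iff] at h2
    exact h2
  rw [h3]
  rfl

/-- the operator of the coefficients `v` -/
noncomputable def opv (p n : ℕ) {m : ℕ} (ε : Fin m → ℕ) (w : Fin m → ℕ → ℕ → K) :
    (Fin m → Fin n → K) →ₗ[K] (ℕ → ℕ → K[X]) :=
  comb w ∘ₗ (LinearMap.pi fun i => pwl p (ε i) ∘ₗ LinearMap.proj i) ∘ₗ fromc m n

theorem opv_apply (p n : ℕ) {m : ℕ} (ε : Fin m → ℕ) (w : Fin m → ℕ → ℕ → K)
    (v : Fin m → Fin n → K) :
    opv p n ε w v = comb w (fun i => pw p (ε i) (fromc m n v i)) := rfl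

/-- combinations of rows as operators -/
noncomputable def thl (B H S p M : ℕ) : (FI B H S p → K) →ₗ[K] (ℕ → ℕ → K[X]) where
  toFun x := thx B H S p M x
  map_add' := thx_add B H S p M
  map_smul' := thx_smul B H S p M

/-- the full family has few conditions -/
theorem zeg_full (B H a S s0 f0 d p : ℕ)
    (hI1 : 2 * B ^ 2 * (S + 1) + d * a + f0 ≤ 4 * H * B * (S + 1 - s0))
    {J : Type*} [Fintype J] (hd : Fintype.card J ≤ d) (θ : J → ℕ → PowerSeries K) {m : ℕ}
    (hm : m = B * (S + 1 - s0)) (w : Fin m → ℕ → ℕ → K) :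
    p * f0 + ks B S a p θ w ≤ 4 * H * p * m := by
  classical
  have h1 : ks B S a p θ w ≤ 2 * B ^ 2 * p * (S + 1) + p * (d * a) := by
    unfold ks
    refine (Finset.sum_le_sum fun w0 _ => kap_le B S a θ (fun β => odp β w0) (isPole p w0) w).trans ?_
    rw [Finset.sum_add_distrib, ← Finset.sum_mul, ← Finset.sum_filter, Finset.sum_const,
      smul_eq_mul]
    have h2 := sum_card_posP B p
    have h3 := card_posP_pole B p
    refine Nat.add_le_add (Nat.mul_le_mul_right _ ?_) (Nat.mul_le_mul ?_ (Nat.mul_le_mul_right _ hd))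
    · convert h2
    · convert h3
  have h2 : p * (2 * B ^ 2 * (S + 1) + d * a + f0) ≤ p * (4 * H * B * (S + 1 - s0)) :=
    Nat.mul_le_mul_left _ hI1
  have h3 : p * (2 * B ^ 2 * (S + 1) + d * a + f0) =
      p * f0 + (2 * B ^ 2 * p * (S + 1) + p * (d * a)) := by ring
  have h4 : p * (4 * H * B * (S + 1 - s0)) = 4 * H * p * m := by rw [hm]; ring
  rw [h3, h4] at h2
  exact (Nat.add_le_add_left h1 _).trans h2

/-- **zero estimate** over a field of characteristic 0 -/
theorem dm_ze_gen [CharZero K] (B H a S s0 f0 d : ℕ) (hB : 1 ≤ B) (hBH : B ≤ H)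
    (hI1 : 2 * B ^ 2 * (S + 1) + d * a + f0 ≤ 4 * H * B * (S + 1 - s0))
    (hI2 : f0 + 12 * H + 1 ≤ a) {J : Type*} [Fintype J] (J1 : Finset J) (hd : J1.card ≤ d)
    (z : ℕ → K) (c : ℕ → J → K) (hlow : ∀ j ∉ J1, ∀ i ∈ oddS (a + S), s0 < i → c i j = 0) :
    ∃ p0 : ℕ, ∀ p ≥ p0, ∀ M : ℕ, 0 < M → ∃ SS : Submodule K (FI B H S p → K),
      p * f0 ≤ Module.finrank K SS ∧ ∀ x ∈ SS,
        (∀ j : J, ∀ l < p, ∀ m < a, ∑ y : FI B H S p, x y * PowerSeries.coeff m
          (yRow K M p (a + S) (fun i => c i j) l (y.1 : ℕ) (y.2.1 : ℕ) (y.2.2 : ℕ)) = 0) ∧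
        (∀ e : Fin (4 * H * p) → K, (∀ l < p, ∀ m < a,
          ∑ y : FI B H S p, x y * PowerSeries.coeff m
            (dRow K M p (a + S) z l (y.1 : ℕ) (y.2.1 : ℕ) (y.2.2 : ℕ)) +
          ∑ i, e i * PowerSeries.coeff m (ev K p l (Cn K M (i : ℕ))) = 0) → x = 0) := by
  classical
  refine ⟨cRel B S a J1.card + B * (S + 1) + 1, fun p hp M hM => ?_⟩
  have hp1 : 1 ≤ p := by omega
  have hH1 : 1 ≤ H := by omega
  obtain ⟨n, hn⟩ : ∃ n, n = 4 * H * p := ⟨_, rfl⟩
  have hnpos : 0 < n := by
    rw [hn]; positivity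
  set θ : J1 → ℕ → PowerSeries K := fun j β =>
    zs K (2 * β + 1) (oddS (a + S)) (fun i => c i j) with hθ
  have hθs : ∀ j β, PowerSeries.evalNegHom (θ j β) = θ j β := fun j β => zeg_sg_zs _ _ _
  have hcJ : Fintype.card J1 = J1.card := Fintype.card_coe J1
  -- the minimal family
  obtain ⟨m, ε, w, hw, hwN, hmin⟩ := min_fam B S s0 a p n (p * f0) (by omega) θ (by
    obtain ⟨ε, w, hw⟩ := full_fam (K := K) B S s0
    refine ⟨_, ε, w, hw, ?_⟩
    rw [hn]
    exact zeg_full B H a S s0 f0 d p hI1 (by rw [hcJ]; exact hd) θ rfl w)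
  -- the killers
  set G := opv p n ε w with hG
  set T : ℚ → (Fin m → Fin n → K) →ₗ[K] (Fin B → Fin (S + 1) → K) × (J1 → Fin a → K) :=
    fun w0 => cnd B S a θ (fun β => odp β w0) (isPole p w0)
      (((w0 - (2 * (p : ℚ) - 1)) / 2 : ℚ) : K) ∘ₗ G with hT
  set Kil : Submodule K (Fin m → Fin n → K) := ⨅ w0 ∈ posP B p, LinearMap.ker (T w0) with hKil
  have hKil1 : p * f0 ≤ Module.finrank K Kil := by
    have h1 := cnt_inf (posP B p) T
    have h2 : Module.finrank K (Fin m → Fin n → K) = n * m := by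
      rw [Module.finrank_pi_fintype]
      simp [mul_comm]
    have h3 : ∑ w0 ∈ posP B p, Module.finrank K (LinearMap.range (T w0)) ≤ ks B S a p θ w := by
      unfold ks
      refine Finset.sum_le_sum fun w0 _ => ?_
      rw [← kap_eq B S a θ (fun β => odp β w0) (isPole p w0) w
        (((w0 - (2 * (p : ℚ) - 1)) / 2 : ℚ) : K)]
      apply Submodule.finrank_mono
      rintro _ ⟨v, rfl⟩
      exact ⟨_, rfl⟩
    rw [h2] at h1
    change n * m ≤ Module.finrank K Kil + _ at h1
    omega
  have hGinj : Function.Injective G := by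
    rw [injective_iff_map_eq_zero]
    intro v hv
    rw [hG, opv_apply] at hv
    have h1 := comb_pw_inj B S s0 ε w hw p _ hv
    exact fromc_inj m n v h1
  have hker : ∀ v ∈ Kil, ∀ w0 ∈ posP B p, cnd B S a θ (fun β => odp β w0) (isPole p w0)
      (((w0 - (2 * (p : ℚ) - 1)) / 2 : ℚ) : K) (G v) = 0 := by
    intro v hv w0 hw0
    rw [hKil] at hv
    have h1 := (Submodule.mem_iInf _).1 hv w0
    have h2 := (Submodule.mem_iInf _).1 h1 hw0
    exact h2
  -- the conditions at all positions
  have hall : ∀ v ∈ Kil, ∀ w0 : ℚ, |w0| < 4 * (p : ℚ) → (∃ β < B, odp β w0) →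
      cnd B S a θ (fun β => odp β w0) (isPole p w0)
        (((w0 - (2 * (p : ℚ) - 1)) / 2 : ℚ) : K) (G v) = 0 := by
    intro v hv w0 h1 h2
    rcases lt_trichotomy w0 0 with h3 | h3 | h3
    · have h4 : -w0 ∈ posP B p := by
        rw [mem_posP]
        refine ⟨by linarith, ?_, ?_⟩
        · rw [abs_of_neg h3] at h1; exact h1
        · obtain ⟨β, hβ, h5⟩ := h2
          exact ⟨β, hβ, (odp_neg β w0).2 h5⟩
      have h5 := hker v hv _ h4
      have e1 : (fun β => odp β (-w0)) = fun β => odp β w0 :=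
        funext fun β => propext (odp_neg β w0)
      have e2 : isPole p (-w0) = isPole p w0 := propext (isPole_neg p w0)
      rw [e1, e2] at h5
      have e3 : (((-w0 - (2 * (p : ℚ) - 1)) / 2 : ℚ) : K) = -(2 * (p : K) - 1) -
          (((w0 - (2 * (p : ℚ) - 1)) / 2 : ℚ) : K) := by
        have : (-w0 - (2 * (p : ℚ) - 1)) / 2 = -(2 * (p : ℚ) - 1) - (w0 - (2 * (p : ℚ) - 1)) / 2 := by
          ring
        rw [this]
        push_cast
        ring
      rw [e3] at h5
      have h6 := cnd_refl B S a θ hθs _ _ _ _ _ h5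
      have h7 : (fun β k => C ((-1) ^ k) * (G v β k).comp (C (-(2 * (p : K) - 1)) - X)) = G v := by
        funext β k
        rw [hG, opv_apply]
        exact comb_pw_parity B S s0 ε w hw p _ β k
      rw [h7] at h6
      exact h6
    · exfalso
      obtain ⟨β, _, k, hk⟩ := h2
      rw [h3, mul_zero] at hk
      have : (0 : ℤ) = 2 * k + 1 := by exact_mod_cast hk
      omega
    · apply hker v hv
      rw [mem_posP]
      rw [abs_of_pos h3] at h1
      exact ⟨h3, h1, h2⟩
  -- killers come from combinations of rows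
  have hrange : Kil.map G ≤ LinearMap.range (thl (K := K) B H S p M) := by
    rintro _ ⟨v, hv, rfl⟩
    have hsup : ∀ β k, G v β k ≠ 0 → β < B ∧ k ≤ S := by
      intro β k h0
      by_contra hcon
      apply h0
      rw [hG, opv_apply]
      show ∑ i, pw p (ε i) (fromc m n v i) * C (w i β k) = 0
      refine Finset.sum_eq_zero fun i _ => ?_
      have h1 : w i β k = 0 := by
        by_contra h2
        have h3 := hw.2 i β k h2
        exact hcon ⟨h3.1, h3.2.2.1⟩
      rw [h1, C_0, mul_zero]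
    obtain ⟨x, hx⟩ := thx_surj B H S p M hBH hM hp1 (G v) hsup (by
        intro β k
        rw [hG, opv_apply]
        exact comb_pw_parity B S s0 ε w hw p _ β k) (by
        intro β k
        rw [hG, opv_apply, ← hn]
        exact comb_pw_natDegree B S s0 ε w hw p n hnpos _ (fun i => fromc_mem m n v i) β k) (by
        intro β hβ w0 h1 h2 r hr
        have h3 := hall v hv w0 h2 ⟨β, hβ, h1⟩
        rw [cnd_eq_zero_iff] at h3
        exact h3.1 β hβ h1 r hr)
    refine ⟨x, ?_⟩
    funext β k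
    show thx B H S p M x β k = G v β k
    by_cases hk : k ≤ S
    · exact hx β k hk
    · have h1 : G v β k = 0 := by
        by_contra h2
        exact hk (hsup β k h2).2
      rw [h1]
      unfold thx lf
      rw [Finset.Icc_eq_empty (by omega), Finset.sum_empty]
  refine ⟨(Kil.map G).comap (thl B H S p M), ?_, ?_⟩
  · have h1 := Submodule.map_comap_eq_self hrange
    have h2 : Module.finrank K (Kil.map G) = Module.finrank K Kil :=
      (LinearEquiv.finrank_eq (Submodule.equivMapOfInjective G hGinj Kil)).symm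
    have h3 := Submodule.finrank_map_le (thl (K := K) B H S p M) ((Kil.map G).comap (thl B H S p M))
    rw [h1, h2] at h3
    omega
  · intro x hx
    obtain ⟨v, hv, hvx⟩ := hx
    have hvx' : G v = thx B H S p M x := hvx
    have hP0 : ∀ β k, k < s0 → G v β k = 0 := by
      intro β k hk
      rw [hG, opv_apply]
      show ∑ i, pw p (ε i) (fromc m n v i) * C (w i β k) = 0
      refine Finset.sum_eq_zero fun i _ => ?_
      have h1 : w i β k = 0 := by
        by_contra h2
        have h3 := hw.2 i β k h2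
        omega
      rw [h1, C_0, mul_zero]
    have hrow : ∀ (l m' : ℕ) (R : FI B H S p → PowerSeries K) (g : ℕ → PowerSeries K),
        (∀ y, R y = hs K (y.2.1 : ℕ) (hl K p l ^ ((y.2.1 : ℕ) % 2) *
          ev K p l (fB K M p (y.1 : ℕ) (y.2.2 : ℕ)) * g (y.1 : ℕ))) →
        ∑ y, x y * PowerSeries.coeff m' (R y) = PowerSeries.coeff m'
          (∑ β ∈ range B, ∑ k ∈ range (S + 1), loc K l (G v β k) * hs K k (g β)) := by
      intro l m' R g hR
      rw [hvx', ← thx_row B H S p M x l g, map_sum]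
      refine Finset.sum_congr rfl fun y _ => ?_
      rw [PowerSeries.coeff_C_mul, hR y]
    constructor
    · intro j l hlp m' hm'
      rw [hrow l m' (fun y => yRow K M p (a + S) (fun i => c i j) l (y.1 : ℕ) (y.2.1 : ℕ)
        (y.2.2 : ℕ)) (fun β => zs K (2 * β + 1) (oddS (a + S)) (fun i => c i j)) (fun y => rfl)]
      by_cases hj : j ∈ J1
      · have hpole : isPole p (2 * (p : ℚ) - 1 - 2 * (l : ℚ)) := by
          rw [isPole_iff]
          exact ⟨l, by omega, hp1, rfl⟩
        have h1 := hall v hv (2 * (p : ℚ) - 1 - 2 * (l : ℚ)) (by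
          refine hpole.2.trans_le ?_
          have : (0 : ℚ) ≤ p := Nat.cast_nonneg p
          linarith) ⟨0, by omega, hpole.1⟩
        rw [cnd_eq_zero_iff] at h1
        have h2 := h1.2 hpole ⟨j, hj⟩ m' hm'
        have e1 : (((2 * (p : ℚ) - 1 - 2 * (l : ℚ) - (2 * (p : ℚ) - 1)) / 2 : ℚ) : K) =
            -(l : K) := by
          have : (2 * (p : ℚ) - 1 - 2 * (l : ℚ) - (2 * (p : ℚ) - 1)) / 2 = -(l : ℚ) := by ring
          rw [this]
          push_cast
          rfl
        rw [e1] at h2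
        unfold opj at h2
        rw [jet_neg] at h2
        exact h2
      · rw [map_sum]
        refine Finset.sum_eq_zero fun β _ => ?_
        rw [map_sum]
        refine Finset.sum_eq_zero fun k _ => ?_
        by_cases hk : k < s0
        · rw [hP0 β k hk, map_zero, zero_mul, map_zero]
        · rw [zeg_hs_zero _ _ s0 k (by omega) _ (fun i hi hi2 => hlow j hj i hi hi2), mul_zero,
            map_zero]
    · intro e he
      set q : K[X] := ∑ i, C (e i) * Cn K M (i : ℕ) with hq
      have hev : ∀ l, loc K l (q.comp (tp K p)) = ∑ i, PowerSeries.C (e i) *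
          ev K p l (Cn K M (i : ℕ)) := by
        intro l
        rw [← ev_eq_loc, hq]
        unfold ev
        rw [map_sum]
        refine Finset.sum_congr rfl fun i _ => ?_
        rw [map_mul, aeval_C]
        rfl
      have hrel0 : ∀ l < p, (PowerSeries.X : PowerSeries K) ^ a ∣ loc K l (q.comp (tp K p)) +
          ∑ β ∈ range B, ∑ k ∈ range (S + 1), loc K l (G v β k) *
            hs K k (Gs K p (2 * β + 1) l (oddS (a + S)) z) := by
        intro l hlp
        rw [PowerSeries.X_pow_dvd_iff]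
        intro m' hm'
        have h1 := he l hlp m' hm'
        rw [hrow l m' (fun y => dRow K M p (a + S) z l (y.1 : ℕ) (y.2.1 : ℕ) (y.2.2 : ℕ))
          (fun β => Gs K p (2 * β + 1) l (oddS (a + S)) z) (fun y => rfl)] at h1
        rw [map_add, add_comm, ← h1]
        congr 1
        rw [hev, map_sum]
        refine Finset.sum_congr rfl fun i _ => ?_
        rw [PowerSeries.coeff_C_mul]
      have hrel := zeg_rel_all B S a p hp1 (oddS (a + S))
        (fun i hi => (Finset.mem_filter.1 hi).2) z q (G v) (by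
          intro β k
          rw [hG, opv_apply]
          exact comb_pw_parity B S s0 ε w hw p _ β k) hrel0
      by_contra hx0
      have hf : fromc m n v ≠ 0 := by
        intro h0
        apply hx0
        apply thx_inj B H S p M hM x
        intro β _ k _
        rw [← hvx', hG, opv_apply, h0]
        show ∑ i, pw p (ε i) ((0 : Fin m → K[X]) i) * C (w i β k) = 0
        refine Finset.sum_eq_zero fun i _ => ?_
        rw [Pi.zero_apply, pw, zero_comp, mul_zero, zero_mul]
      have hqd : (q.comp (tp K p)).natDegree ≤ 2 * (4 * H * p) := by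
        rw [natDegree_comp_tp]
        apply Nat.mul_le_mul_left
        rw [hq]
        refine Polynomial.natDegree_sum_le_of_forall_le _ _ fun i _ => ?_
        refine (Polynomial.natDegree_C_mul_le _ _).trans ?_
        rw [natDegree_eq_of_degree_eq_some (Cn_degree K M (i : ℕ))]
        exact i.2.le
      obtain ⟨ζ, ε', w', hζ, hw', hest⟩ := rel_est B H a S s0 p hB (by omega) θ (oddS (a + S)) z
        ε w hw (fromc m n v) (fun i => by rw [← hn]; exact fromc_mem m n v i) hf
        (q.comp (tp K p)) hqd (hall v hv) hrel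
      have h1 := hmin ζ ε' w' hζ hw'
      rw [hcJ, ← hn] at hest
      have h2 : p * (f0 + 12 * H + 1) ≤ p * a := Nat.mul_le_mul_left _ hI2
      have h3 : p * (f0 + 12 * H + 1) = p * f0 + 3 * n + p := by rw [hn]; ring
      have h4 : a * (2 * p) = 2 * (p * a) := by ring
      have h5 : 2 * n * ζ = 2 * (n * ζ) := by ring
      rw [h4, h5] at hest
      omega

end Pool.Agent.DM
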