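import Pool.Agent.DM.Defs
import Pool.Agent.DM.ZEG

/-!
# DM: zero estimate (section 4 of the paper)
-/

namespace Pool.Agent.DM

open Finset Pool.Agent.ZC Pool.Agent.SI

theorem dm_ze (B H a S s0 f0 d : ℕ) (hB : 1 ≤ B) (hBH : B ≤ H)
    (hI1 : 2 * B ^ 2 * (S + 1) + d * a + f0 ≤ 4 * H * B * (S + 1 - s0))
    (hI2 : f0 + 12 * H + 1 ≤ a) {J : Type} [Fintype J] (J1 : Finset J) (hd : J1.card ≤ d)
    (z : ℕ → ℚ) (c : ℕ → J → ℚ) (hlow : ∀ j ∉ J1, ∀ i ∈ oddS (a + S), s0 < i → c i j = 0) :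
    ∃ p0 : ℕ, ∀ p ≥ p0, ∀ M : ℕ, 0 < M → ∃ SS : Submodule ℚ (FI B H S p → ℚ),
      p * f0 ≤ Module.finrank ℚ SS ∧ ∀ x ∈ SS,
        (∀ j : J, ∀ l < p, ∀ m < a, ∑ y : FI B H S p, x y * PowerSeries.coeff m
          (yRow ℚ M p (a + S) (fun i => c i j) l (y.1 : ℕ) (y.2.1 : ℕ) (y.2.2 : ℕ)) = 0) ∧
        (∀ e : Fin (4 * H * p) → ℚ, (∀ l < p, ∀ m < a,
          ∑ y : FI B H S p, x y * PowerSeries.coeff m
            (dRow ℚ M p (a + S) z l (y.1 : ℕ) (y.2.1 : ℕ) (y.2.2 : ℕ)) +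
          ∑ i, e i * PowerSeries.coeff m (ev ℚ p l (Cn ℚ M (i : ℕ))) = 0) → x = 0) :=
  dm_ze_gen B H a S s0 f0 d hB hBH hI1 hI2 J1 hd z c hlow

end Pool.Agent.DM
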