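import Pool.Agent.DM.ENT
import Pool.Agent.DM.SER
import Pool.Agent.DM.BDS
import Pool.Agent.DM.BDT
import Pool.Agent.DM.BDY
import Pool.Agent.DM.LIN
import Pool.Agent.DM.JLA
import Pool.Agent.DM.ZED
import Pool.Agent.ZC.COR4
import Pool.Agent.SI.ONE

/-!
# DM: the determinant inequality for fixed data and `M` large

`det_ineq_joint` with `Tt = Fin (4Hp)`, `Fi = FI B H S p`, `Col = Fin p × Fin a`, `p = A M`,
`D = D0 (lcmUpto M)^A` (`D0` = common denominator of the `z i`, `c i j`), `N = (1000 H A)^(5n)`,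
`t = 4/5`, `u κ = coeff (yl^(n+κ))`, `f = p f0`; series: `dm_level` (`SER`), bound `bd_dlam` (`BDS`)
with `A := 4 H (a+S+1)`. The real polynomial `Q` of degree `< n` in
`dm_level` is a combination of the `Cn i` (`exists_comb`).
`card (FI B H S p) ≤ 4 H B (S+1) p`.
-/

namespace Pool.Agent.DM

open Finset Pool.Agent.ZC Pool.Agent.SI

theorem card_FI_le (B H S p : ℕ) : Fintype.card (FI B H S p) ≤ B * (S + 1) * (4 * H * p) := by
  rw [Fintype.card_sigma]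
  calc ∑ β : Fin B, Fintype.card (Fin (S + 1) × Fin ((4 * H - 2 * (2 * (β : ℕ) + 1)) * p))
      ≤ ∑ _β : Fin B, (S + 1) * (4 * H * p) := by
        refine sum_le_sum fun β _ => ?_
        simp only [Fintype.card_prod, Fintype.card_fin]
        exact Nat.mul_le_mul_left _ (Nat.mul_le_mul_right _ (Nat.sub_le _ _))
    _ = B * (S + 1) * (4 * H * p) := by
        rw [sum_const, card_univ, Fintype.card_fin, smul_eq_mul]
        ring

theorem fB_mem (H M p β j : ℕ) (hj : j < (4 * H - 2 * (2 * β + 1)) * p) :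
    fB ℝ M p β j ∈ Polynomial.degreeLT ℝ (4 * H * p) := by
  rw [fB, Polynomial.mem_degreeLT, Polynomial.degree_mul, An_degree ℝ M p _ (by omega), Cn_degree]
  have h0 : 0 < 4 * H - 2 * (2 * β + 1) := by
    rcases Nat.eq_zero_or_pos (4 * H - 2 * (2 * β + 1)) with h | h
    · rw [h] at hj; omega
    · exact h
  have h1 : 4 * H * p = (4 * H - 2 * (2 * β + 1)) * p + 2 * (2 * β + 1) * p := by
    rw [← add_mul]
    congr 1
    omega
  have h2 : 2 * (2 * β + 1) * p + j < 4 * H * p := by omega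
  exact_mod_cast h2

theorem dm_one (B H a S s0 f0 d : ℕ) (hB : 1 ≤ B) (hBH : B ≤ H)
    (hI1 : 2 * B ^ 2 * (S + 1) + d * a + f0 ≤ 4 * H * B * (S + 1 - s0))
    (hI2 : f0 + 12 * H + 1 ≤ a) {J : Type} [Fintype J] (J1 : Finset J) (hd : J1.card ≤ d)
    (z : ℕ → ℚ) (c : ℕ → J → ℚ) (hlow : ∀ j ∉ J1, ∀ i ∈ oddS (a + S), s0 < i → c i j = 0)
    (v : J → ℝ) (hz : ∀ i ∈ oddS (a + S), zr i = z i + ∑ j, (c i j : ℝ) * v j) :
    ∃ D0 : ℕ, 0 < D0 ∧ ∃ M0 : ℕ, ∀ M ≥ M0,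
      1 ≤ (((D0 * Nat.lcmUpto M ^ (a + S + 1) : ℕ) : ℝ) *
          (2 * (1000 * (H : ℝ) * (a + S + 1)) ^ (5 * (4 * H * ((a + S + 1) * M)))) *
          (1 / (1 - 4 / 5))) ^ (4 * H * (B * (S + 1) + 1) * ((a + S + 1) * M)) *
        (((((Fintype.card J + 1) * (((a + S + 1) * M) * a)).factorial : ℕ) : ℝ) *
          (1 + ∑ j, |v j|) ^ ((Fintype.card J + 1) * (((a + S + 1) * M) * a))) *
        (4 / 5 : ℝ) ^ ((((a + S + 1) * M) * f0) * ((((a + S + 1) * M) * f0) - 1) / 2) := by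
  classical
  have hH : 1 ≤ H := hB.trans hBH
  have ha : 1 ≤ a := by omega
  obtain ⟨D0, hD0, hDz, hDc⟩ := ONE_den (a + S + 1) (a + S)
    (fun j : J => PowerSeries.mk fun i => c i j) z
  obtain ⟨p0, hp0⟩ := dm_ze B H a S s0 f0 d hB hBH hI1 hI2 J1 hd z c hlow
  obtain ⟨M2, hM2⟩ := dm_bd_t H a S hH ha
  have hy := fun j : J => dm_bd_y B H a S (a + S) hB hBH ha (fun k => (c k j : ℝ))
  choose M3 hM3 using hy
  refine ⟨D0, hD0, p0 + M2 + (∑ j, M3 j) + 1, fun M hM => ?_⟩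
  have hMM3 : ∀ j, M3 j ≤ M := fun j => by
    have := single_le_sum (f := M3) (fun _ _ => Nat.zero_le _) (mem_univ j)
    omega
  have hT := hM2 M (by omega)
  have hY := fun j => hM3 j M (hMM3 j)
  have hMpos : 0 < M := by omega
  obtain ⟨p, hp⟩ : ∃ p, p = (a + S + 1) * M := ⟨_, rfl⟩
  have hpM : M ≤ p := by rw [hp]; exact Nat.le_mul_of_pos_left _ (by omega)
  have hp1 : 1 ≤ p := by omega
  rw [← hp] at hT hY ⊢
  obtain ⟨SS, hSS1, hSS2⟩ := hp0 p (by omega) M hMpos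
  set dd := Nat.lcmUpto M with hdd
  have hdd0 : 0 < dd := Nat.lcmUpto_pos _
  have hdv : ∀ q : ℕ, 1 ≤ q → q ≤ M → q ∣ dd := fun q h1 h2 => dvd_lcmUpto h1 h2
  have hDc' : ∀ j : J, ∀ i ∈ oddS (a + S), ∃ w : ℤ, (D0 : ℚ) * c i j = w := by
    intro j i hi
    simp only [oddS, mem_filter, mem_Icc] at hi
    obtain ⟨w, hw⟩ := hDc j i (by omega)
    rw [PowerSeries.coeff_mk] at hw
    exact ⟨w, hw⟩
  have hHr : (1 : ℝ) ≤ H := by exact_mod_cast hH
  have hN1 : (1 : ℝ) ≤ (1000 * (H : ℝ) * (a + S + 1)) ^ (5 * (4 * H * p)) := by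
    apply one_le_pow₀
    have h1 : (1 : ℝ) ≤ (a : ℝ) + S + 1 := by
      have h2 : (0 : ℝ) ≤ a := by positivity
      have h3 : (0 : ℝ) ≤ S := by positivity
      linarith
    nlinarith
  have hmain := det_ineq_joint (Tt := Fin (4 * H * p)) (Fi := FI B H S p) (Col := Fin p × Fin a)
    (J := J)
    (fun i x => PowerSeries.coeff (x.2 : ℕ) (ev ℚ p x.1 (Cn ℚ M i)))
    (fun y x => PowerSeries.coeff (x.2 : ℕ)
      (dRow ℚ M p (a + S) z x.1 (y.1 : ℕ) (y.2.1 : ℕ) (y.2.2 : ℕ)))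
    (fun y j x => PowerSeries.coeff (x.2 : ℕ)
      (yRow ℚ M p (a + S) (fun i => c i j) x.1 (y.1 : ℕ) (y.2.1 : ℕ) (y.2.2 : ℕ)))
    v (D0 * dd ^ (a + S + 1)) (by positivity)
    (fun i x => dm_int_t hMpos hdv p D0 x.1 i x.2 x.2.2)
    (fun y x => dm_int_d hMpos hdv p (a + S) z D0 hDz x.1 y.1 y.2.1 y.2.2 x.2 x.1.2
      (Nat.lt_succ_iff.1 y.2.1.2) x.2.2)
    (fun y j x => dm_int_y hMpos hdv p (a + S) (fun i => c i j) D0 (hDc' j) x.1 y.1 y.2.1 y.2.2 x.2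
      (Nat.lt_succ_iff.1 y.2.1.2) x.2.2)
    ((1000 * (H : ℝ) * (a + S + 1)) ^ (5 * (4 * H * p))) (4 / 5) hN1 (by norm_num) (by norm_num)
    (fun y κ => dlam (4 * H * p) p (2 * (y.1 : ℕ) + 1) y.2.1 (fB ℝ M p y.1 y.2.2) κ)
    (fun κ x => PowerSeries.coeff (x.2 : ℕ) (yl ℝ p x.1 ^ (4 * H * p + κ)))
    (by
      intro i x
      have h1 := hT i i.2 x.1 x.1.2 x.2
      rw [← map_Cn, ← map_ev, PowerSeries.coeff_map] at h1
      exact h1)
    (by
      intro y j x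
      rw [dm_cast_y]
      exact hY j y.1 y.1.2 y.2.1 (Nat.lt_succ_iff.1 y.2.1.2) y.2.2 y.2.2.2 x.1 x.1.2 x.2 x.2.2)
    (by
      intro y κ x
      have h1 := bd_dlam (4 * H * (a + S + 1)) M H p S (Nat.mul_pos (by omega) (by omega)) hH
        (by nlinarith) hp1 hMpos (by rw [hp]; exact (by ring_nf; exact le_rfl))
        (by nlinarith) (by nlinarith) y.1
        (lt_of_lt_of_le y.1.2 hBH) y.2.2 y.2.2.2 x.1 x.1.2 y.2.1 (Nat.lt_succ_iff.1 y.2.1.2) x.2 κ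
      refine h1.trans ?_
      have h2 : (100 * ((4 * H * (a + S + 1) : ℕ) : ℝ)) ^ (5 * (4 * H * p)) ≤
          (1000 * (H : ℝ) * (a + S + 1)) ^ (5 * (4 * H * p)) := by
        refine pow_le_pow_left₀ (by positivity) ?_ _
        push_cast
        have h3 : (0 : ℝ) ≤ (H : ℝ) * (a + S + 1) := by positivity
        linarith
      exact mul_le_mul_of_nonneg_right h2 (by positivity))
    (by
      intro y
      obtain ⟨Q, hQ, hser⟩ := dm_level p (2 * (y.1 : ℕ) + 1) (4 * H * p) (a + S) S y.2.1 hp1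
        (by omega) (Nat.lt_succ_iff.1 y.2.1.2) (fB ℝ M p y.1 y.2.2)
        (fB_mem H M p y.1 y.2.2 y.2.2.2)
        (fun k hk hkp => by
          rw [fB, Polynomial.eval_mul, an_root M p _ k hp1 (odd_two_mul_add_one _) hk hkp, zero_mul])
      obtain ⟨α, hα⟩ := exists_comb ℝ M (4 * H * p) Q hQ
      refine ⟨α, fun x => ?_⟩
      have h1 := hser x.1 x.1.2 x.2 (by
        have h2 := x.2.2
        omega)
      convert h1 using 1
      have h4 := dm_shear M p (a + S) z c v hz x.1 y.1 y.2.1 y.2.2 x.2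
      have h5 : PowerSeries.coeff (x.2 : ℕ) (dRow ℝ M p (a + S) zr x.1 y.1 y.2.1 y.2.2) =
          PowerSeries.coeff (x.2 : ℕ) (hs ℝ y.2.1 (hl ℝ p x.1 ^ ((y.2.1 : ℕ) % 2) *
            ev ℝ p x.1 (fB ℝ M p y.1 y.2.2) * Gs ℝ p (2 * (y.1 : ℕ) + 1) x.1 (oddS (a + S)) zr)) :=
        rfl
      have h6 : PowerSeries.coeff (x.2 : ℕ) (ev ℝ p x.1 Q) =
          ∑ i, α i * ((PowerSeries.coeff (x.2 : ℕ) (ev ℚ p x.1 (Cn ℚ M i)) : ℚ) : ℝ) := by
        rw [hα, ONE_ev_sum, map_sum]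
        refine sum_congr rfl fun i _ => ?_
        rw [ONE_ev_mul, ONE_ev_C, PowerSeries.coeff_C_mul, ← map_Cn, ← map_ev,
          PowerSeries.coeff_map]
        rfl
      rw [← h5, h4, h6, dm_cast_d]
      congr 2
      exact sum_congr rfl fun j _ => by rw [dm_cast_y])
    (p * f0) SS hSS1
    (by
      intro s hs
      obtain ⟨h1, h2⟩ := hSS2 s hs
      refine ⟨fun j x => h1 j x.1 x.1.2 x.2 x.2.2, fun e he => h2 e fun l hl m hm => ?_⟩
      exact he (⟨l, hl⟩, ⟨m, hm⟩))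
  have hcT : Fintype.card (Fin (4 * H * p)) = 4 * H * p := Fintype.card_fin _
  have hcC : Fintype.card (Fin p × Fin a) = p * a := by
    simp only [Fintype.card_prod, Fintype.card_fin]
  rw [hcT, hcC] at hmain
  refine hmain.trans ?_
  have hbase : (1 : ℝ) ≤ ((D0 * dd ^ (a + S + 1) : ℕ) : ℝ) *
      (2 * (1000 * (H : ℝ) * (a + S + 1)) ^ (5 * (4 * H * p))) * (1 / (1 - 4 / 5)) := by
    have h1 : (1 : ℝ) ≤ ((D0 * dd ^ (a + S + 1) : ℕ) : ℝ) := by
      have : 1 ≤ D0 * dd ^ (a + S + 1) := Nat.succ_le_of_lt (by positivity)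
      exact_mod_cast this
    have h2 : (1 : ℝ) ≤ 2 * (1000 * (H : ℝ) * (a + S + 1)) ^ (5 * (4 * H * p)) := by linarith
    have h3 : (1 : ℝ) ≤ 1 / (1 - 4 / 5) := by norm_num
    have h4 := one_le_mul_of_one_le_of_one_le h1 h2
    exact one_le_mul_of_one_le_of_one_le h4 h3
  have hexp : 4 * H * p + Fintype.card (FI B H S p) ≤ 4 * H * (B * (S + 1) + 1) * p := by
    have := card_FI_le B H S p
    calc 4 * H * p + Fintype.card (FI B H S p) ≤ 4 * H * p + B * (S + 1) * (4 * H * p) :=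
          Nat.add_le_add_left this _
      _ = 4 * H * (B * (S + 1) + 1) * p := by ring
  have hpw := pow_le_pow_right₀ hbase hexp
  have hs0 : (0 : ℝ) ≤ 1 + ∑ j, |v j| := by
    have : (0 : ℝ) ≤ ∑ j, |v j| := sum_nonneg fun _ _ => abs_nonneg _
    linarith
  gcongr

end Pool.Agent.DM
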