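import Pool.Agent.DM.ZDF

/-!
# DM, zero estimate: properties of the conditions
-/

namespace Pool.Agent.DM

open Finset Polynomial Pool.Agent.ZC Pool.Agent.SI

variable {K : Type*} [Field K]

theorem cnd_eq_zero_iff (B S a : ℕ) {J : Type*} (θ : J → ℕ → PowerSeries K) (A : ℕ → Prop)
    (c : Prop) (t0 : K) (P : ℕ → ℕ → K[X]) :
    cnd B S a θ A c t0 P = 0 ↔
      (∀ β < B, A β → ∀ r ≤ S, (rf S (P β) r).eval t0 = 0) ∧
      (c → ∀ j, ∀ m < a, PowerSeries.coeff m (opj B S (θ j) t0 P) = 0) := by
  classical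
  rw [Prod.ext_iff]
  refine and_congr ?_ ?_
  · constructor
    · intro h β hβ hA r hr
      have h1 := congrFun (congrFun h ⟨β, hβ⟩) ⟨r, Nat.lt_succ_of_le hr⟩
      simpa [cnd, hA] using h1
    · intro h
      funext β r
      by_cases hA : A β
      · have h1 := h β β.2 hA r (Nat.le_of_lt_succ r.2)
        simpa [cnd, hA] using h1
      · simp [cnd, hA]
  · constructor
    · intro h hc j m hm
      have h1 := congrFun (congrFun h j) ⟨m, hm⟩
      simpa [cnd, hc] using h1
    · intro h
      funext j m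
      by_cases hc : c
      · have h1 := h hc j m m.2
        simpa [cnd, hc] using h1
      · simp [cnd, hc]

theorem jet_X_sub (t0 : K) : jet t0 (X - C t0) = PowerSeries.X := by
  unfold jet
  simp

theorem jet_comp_add (t0 s : K) (f : K[X]) : jet t0 (f.comp (X + C s)) = jet (t0 + s) f := by
  unfold jet
  simp only [RingHom.comp_apply, coe_compRingHom_apply, comp_assoc]
  congr 2
  simp only [add_comp, X_comp, C_comp, C_add]
  ring

theorem rf_X_sub_pow (S : ℕ) (P : ℕ → K[X]) (n r : ℕ) (x : K) :
    (rf S (fun k => (X - C x) ^ n * P k) r).eval x = (-1) ^ n * ((rf S P (r + n)).eval x) := by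
  induction n generalizing r with
  | zero => simp
  | succ n ih =>
    have h1 : (fun k => (X - C x) ^ (n + 1) * P k) =
        fun k => (X - C x) * ((X - C x) ^ n * P k) := by
      funext k
      rw [pow_succ]
      ring
    rw [h1, rf_X_sub S (fun k => (X - C x) ^ n * P k) r x, ih (r + 1), pow_succ,
      show r + 1 + n = r + (n + 1) by ring]
    ring

theorem rf_eval_big (S : ℕ) (P : ℕ → K[X]) (r : ℕ) (hr : S < r) (x : K) :
    (rf S P r).eval x = 0 := by
  unfold rf
  rw [Icc_eq_empty (by omega)]
  simp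

theorem opj_mul_left (B S : ℕ) (θ : ℕ → PowerSeries K) (t0 : K) (P : ℕ → ℕ → K[X]) (g : K[X]) :
    opj B S θ t0 (fun β k => g * P β k) = jet t0 g * opj B S θ t0 P := by
  unfold opj
  simp only [map_mul, Finset.mul_sum, mul_assoc]

theorem cnd_X_sub (B S a : ℕ) {J : Type*} (θ : J → ℕ → PowerSeries K) (A : ℕ → Prop) (c : Prop)
    (t0 : K) (P : ℕ → ℕ → K[X]) (h : cnd B S a θ A c t0 P = 0) :
    cnd B S a θ A c t0 (fun β k => (X - C t0) * P β k) = 0 := by
  rw [cnd_eq_zero_iff] at h ⊢
  refine ⟨?_, ?_⟩
  · intro β hβ hA r hr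
    rw [rf_X_sub S (P β) r t0]
    by_cases hr' : r + 1 ≤ S
    · rw [h.1 β hβ hA (r + 1) hr', neg_zero]
    · rw [rf_eval_big S (P β) (r + 1) (by omega), neg_zero]
  · intro hc j m hm
    rw [opj_mul_left, jet_X_sub]
    rcases m with _ | m
    · simp
    · rw [PowerSeries.coeff_succ_X_mul]
      exact h.2 hc j m (by omega)

theorem cnd_X_sub_pow (B S a : ℕ) {J : Type*} (θ : J → ℕ → PowerSeries K) (A : ℕ → Prop)
    (c : Prop) (t0 : K) (P : ℕ → ℕ → K[X]) :
    cnd B S a θ A c t0 (fun β k => (X - C t0) ^ (a + S + 1) * P β k) = 0 := by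
  rw [cnd_eq_zero_iff]
  refine ⟨?_, ?_⟩
  · intro β hβ hA r hr
    rw [rf_X_sub_pow S (P β) (a + S + 1) r t0, rf_eval_big S (P β) _ (by omega), mul_zero]
  · intro hc j m hm
    rw [opj_mul_left, map_pow, jet_X_sub, PowerSeries.coeff_X_pow_mul', if_neg (by omega)]

theorem cnd_shift [CharZero K] (B S a : ℕ) {J : Type*} (θ : J → ℕ → PowerSeries K) (A : ℕ → Prop)
    (c : Prop) (t0 s : K) (P : ℕ → ℕ → K[X]) :
    cnd B S a θ A c t0 (fun β k => (P β k).comp (X + C s)) = cnd B S a θ A c (t0 + s) P := by
  classical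
  refine Prod.ext ?_ ?_
  · funext β r
    have h1 := rf_shift S (P β) (r : ℕ) s
    simp only [cnd, LinearMap.coe_mk, AddHom.coe_mk]
    rw [h1, eval_comp]
    simp
  · funext j m
    simp only [cnd, LinearMap.coe_mk, AddHom.coe_mk]
    have h1 : opj B S (θ j) t0 (fun β k => (P β k).comp (X + C s)) =
        opj B S (θ j) (t0 + s) P := by
      unfold opj
      simp only [jet_comp_add]
    rw [h1]

theorem jet_refl (t0 c0 : K) (f : K[X]) :
    jet t0 (f.comp (C c0 - X)) = PowerSeries.evalNegHom (jet (c0 - t0) f) := by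
  have h1 : ∀ g : K[X], PowerSeries.evalNegHom (g : PowerSeries K) =
      ((g.comp (-X) : K[X]) : PowerSeries K) := by
    intro g
    ext r
    have h2 : (-X : K[X]) = C (-1) * X := by rw [C_neg, C_1]; ring
    rw [PowerSeries.evalNegHom, PowerSeries.coeff_rescale, Polynomial.coeff_coe,
      Polynomial.coeff_coe, h2, Polynomial.comp_C_mul_X_coeff, mul_comm]
  unfold jet
  simp only [RingHom.comp_apply, coe_compRingHom_apply, comp_assoc,
    Polynomial.coeToPowerSeries.ringHom_apply]
  rw [h1, comp_assoc]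
  congr 2
  simp only [add_comp, sub_comp, X_comp, C_comp, C_sub]
  ring

theorem cnd_refl [CharZero K] (B S a : ℕ) {J : Type*} (θ : J → ℕ → PowerSeries K)
    (hθ : ∀ j β, PowerSeries.evalNegHom (θ j β) = θ j β) (A : ℕ → Prop) (c : Prop) (t0 c0 : K)
    (P : ℕ → ℕ → K[X]) (h : cnd B S a θ A c (c0 - t0) P = 0) :
    cnd B S a θ A c t0 (fun β k => C ((-1) ^ k) * (P β k).comp (C c0 - X)) = 0 := by
  rw [cnd_eq_zero_iff] at h ⊢
  refine ⟨?_, ?_⟩
  · intro β hβ hA r hr
    have h1 := rf_refl S (P β) r c0
    rw [h1, eval_mul, eval_comp]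
    simp only [eval_sub, eval_C, eval_X]
    rw [h.1 β hβ hA r hr, mul_zero]
  · intro hc j m hm
    have h1 : opj B S (θ j) t0 (fun β k => C ((-1) ^ k) * (P β k).comp (C c0 - X)) =
        PowerSeries.evalNegHom (opj B S (θ j) (c0 - t0) P) := by
      unfold opj
      rw [map_sum]
      refine Finset.sum_congr rfl fun β _ => ?_
      rw [map_sum]
      refine Finset.sum_congr rfl fun k _ => ?_
      rw [map_mul, map_mul, jet_refl, sg_hs, hθ]
      have h2 : jet t0 (C ((-1 : K) ^ k)) = PowerSeries.C ((-1 : K) ^ k) := by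
        simp [jet]
      rw [h2]
      ring
    rw [h1, PowerSeries.evalNegHom, PowerSeries.coeff_rescale, h.2 hc j m hm, mul_zero]

/-- the number of conditions does not depend on the point -/
theorem kap_eq [CharZero K] (B S a : ℕ) {J : Type*} (θ : J → ℕ → PowerSeries K) (A : ℕ → Prop)
    (c : Prop) {m : ℕ} (w : Fin m → ℕ → ℕ → K) (t0 : K) :
    Module.finrank K (LinearMap.range ((cnd B S a θ A c t0) ∘ₗ comb w)) =
      kap B S a θ A c w := by
  let sh : (Fin m → K[X]) →ₗ[K] (Fin m → K[X]) :=
    { toFun := fun f i => (f i).comp (X + C t0)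
      map_add' := fun f g => by funext i; simp
      map_smul' := fun x f => by funext i; simp }
  have hsh : LinearMap.range sh = ⊤ := by
    rw [LinearMap.range_eq_top]
    intro f
    refine ⟨fun i => (f i).comp (X - C t0), ?_⟩
    funext i
    show ((f i).comp (X - C t0)).comp (X + C t0) = f i
    rw [comp_assoc]
    simp
  have h1 : (cnd B S a θ A c t0) ∘ₗ comb w = ((cnd B S a θ A c (0 : K)) ∘ₗ comb w) ∘ₗ sh := by
    refine LinearMap.ext fun f => ?_
    simp only [LinearMap.comp_apply]
    have h2 := cnd_shift B S a θ A c 0 t0 (comb w f)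
    rw [zero_add] at h2
    rw [← h2]
    congr 1
    funext β k
    show (∑ i, f i * C (w i β k)).comp (X + C t0) = ∑ i, (f i).comp (X + C t0) * C (w i β k)
    have h3 := map_sum (compRingHom (X + C t0)) (fun i => f i * C (w i β k)) Finset.univ
    simp only [coe_compRingHom_apply] at h3
    rw [h3]
    refine Finset.sum_congr rfl fun i _ => ?_
    rw [mul_comp, C_comp]
  unfold kap
  rw [h1, LinearMap.range_comp_of_range_eq_top _ hsh]

theorem kap_mono (B S a : ℕ) {J : Type*} [Fintype J] (θ : J → ℕ → PowerSeries K)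
    (A : ℕ → Prop) (c : Prop) {m : ℕ} (w : Fin (m + 1) → ℕ → ℕ → K) :
    kap B S a θ A c (fun i : Fin m => w i.castSucc) ≤ kap B S a θ A c w := by
  unfold kap
  apply Submodule.finrank_mono
  rintro _ ⟨f, rfl⟩
  refine ⟨Fin.snoc f 0, ?_⟩
  simp only [LinearMap.comp_apply]
  congr 1
  funext β k
  show ∑ i : Fin (m + 1), (Fin.snoc f 0 : Fin (m + 1) → K[X]) i * C (w i β k) =
    ∑ i : Fin m, f i * C (w i.castSucc β k)
  rw [Fin.sum_univ_castSucc]
  simp

open Classical in
theorem card_act (B : ℕ) (A : ℕ → Prop) :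
    Fintype.card {β : Fin B // A β} = ((range B).filter A).card := by
  rw [Fintype.card_subtype, ← Finset.card_map Fin.valEmbedding]
  congr 1
  ext x
  simp only [Finset.mem_map, Finset.mem_filter, Finset.mem_univ, true_and, Fin.valEmbedding_apply,
    Finset.mem_range]
  constructor
  · rintro ⟨y, hy, rfl⟩
    exact ⟨y.2, hy⟩
  · rintro ⟨h1, h2⟩
    exact ⟨⟨x, h1⟩, h2, rfl⟩

open Classical in
theorem kap_le (B S a : ℕ) {J : Type*} [Fintype J] (θ : J → ℕ → PowerSeries K)
    (A : ℕ → Prop) (c : Prop) {m : ℕ} (w : Fin m → ℕ → ℕ → K) :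
    kap B S a θ A c w ≤ ((range B).filter A).card * (S + 1) +
      (if c then Fintype.card J * a else 0) := by
  unfold kap
  by_cases hc : c
  · rw [if_pos hc]
    let ι : (({β : Fin B // A β} → Fin (S + 1) → K) × (J → Fin a → K)) →ₗ[K]
        ((Fin B → Fin (S + 1) → K) × (J → Fin a → K)) :=
      { toFun := fun x => (fun β r => if h : A β then x.1 ⟨β, h⟩ r else 0, x.2)
        map_add' := fun x y => by
          refine Prod.ext ?_ rfl
          funext β r
          simp only [Prod.fst_add, Pi.add_apply]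
          split_ifs <;> simp
        map_smul' := fun s x => by
          refine Prod.ext ?_ rfl
          funext β r
          simp only [Prod.smul_fst, Pi.smul_apply, RingHom.id_apply]
          split_ifs <;> simp }
    have h1 : LinearMap.range ((cnd B S a θ A c (0 : K)) ∘ₗ comb w) ≤ LinearMap.range ι := by
      rintro _ ⟨f, rfl⟩
      refine ⟨(fun β r => (cnd B S a θ A c (0 : K) (comb w f)).1 β r,
        (cnd B S a θ A c (0 : K) (comb w f)).2), ?_⟩
      refine Prod.ext ?_ rfl
      funext β r
      show (if h : A β then (cnd B S a θ A c (0 : K) (comb w f)).1 β r else 0) =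
        (cnd B S a θ A c (0 : K) (comb w f)).1 β r
      split_ifs with h
      · rfl
      · simp [cnd, h]
    refine (Submodule.finrank_mono h1).trans ((LinearMap.finrank_range_le ι).trans ?_)
    simp only [Module.finrank_prod, Module.finrank_pi_fintype, Module.finrank_self,
      Finset.sum_const, Finset.card_univ, smul_eq_mul, Fintype.card_fin, mul_one]
    rw [card_act]
  · rw [if_neg hc, add_zero]
    let ι : (({β : Fin B // A β} → Fin (S + 1) → K)) →ₗ[K]
        ((Fin B → Fin (S + 1) → K) × (J → Fin a → K)) :=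
      { toFun := fun x => (fun β r => if h : A β then x ⟨β, h⟩ r else 0, 0)
        map_add' := fun x y => by
          refine Prod.ext ?_ (by simp)
          funext β r
          simp only [Prod.fst_add, Pi.add_apply]
          split_ifs <;> simp
        map_smul' := fun s x => by
          refine Prod.ext ?_ (by simp)
          funext β r
          simp only [Prod.smul_fst, Pi.smul_apply, RingHom.id_apply]
          split_ifs <;> simp }
    have h1 : LinearMap.range ((cnd B S a θ A c (0 : K)) ∘ₗ comb w) ≤ LinearMap.range ι := by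
      rintro _ ⟨f, rfl⟩
      refine ⟨fun β r => (cnd B S a θ A c (0 : K) (comb w f)).1 β r, ?_⟩
      refine Prod.ext ?_ ?_
      · funext β r
        show (if h : A β then (cnd B S a θ A c (0 : K) (comb w f)).1 β r else 0) =
          (cnd B S a θ A c (0 : K) (comb w f)).1 β r
        split_ifs with h
        · rfl
        · simp [cnd, h]
      · funext j r
        show (0 : K) = (cnd B S a θ A c (0 : K) (comb w f)).2 j r
        simp [cnd, hc]
    refine (Submodule.finrank_mono h1).trans ((LinearMap.finrank_range_le ι).trans ?_)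
    simp only [Module.finrank_pi_fintype, Module.finrank_self,
      Finset.sum_const, Finset.card_univ, smul_eq_mul, Fintype.card_fin, mul_one]
    rw [card_act]

theorem kap_le' (B S a : ℕ) {J : Type*} [Fintype J] (θ : J → ℕ → PowerSeries K)
    (A : ℕ → Prop) (c : Prop) {m : ℕ} (w : Fin m → ℕ → ℕ → K) :
    kap B S a θ A c w ≤ B * (S + 1) + Fintype.card J * a := by
  classical
  refine (kap_le B S a θ A c w).trans ?_
  refine Nat.add_le_add (Nat.mul_le_mul_right _ ?_) ?_
  · exact (Finset.card_filter_le _ _).trans (by rw [Finset.card_range])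
  · split_ifs
    · exact le_rfl
    · exact Nat.zero_le _

end Pool.Agent.DM
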