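import Pool.Agent.DM.GL
import Pool.Agent.SI.WM

/-!
# DM: the Casorati estimate, with conditions
-/

namespace Pool.Agent.DM

open Polynomial Pool.Agent.ZC Pool.Agent.SI

variable {K : Type*} [Field K]

/-- first column of the Casorati matrix -/
noncomputable def fcol (den q : K[X]) {k : ℕ} (u num : Fin k → K[X]) (s : ℕ) : K[X] :=
  denK den k * q.comp (X + C (s : K)) +
    ∑ z, (u z).comp (X + C (s : K)) * ∑ r ∈ Finset.range s, numK den (num z) k r

/-- the Casorati matrix -/
noncomputable def vMat (den q : K[X]) {k : ℕ} (u num : Fin k → K[X]) :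
    Matrix (Fin (k + 1)) (Fin (k + 1)) K[X] :=
  Matrix.of fun s j => Fin.cases (motive := fun _ => K[X]) (fcol den q u num s)
    (fun z => (u z).comp (X + C ((s : ℕ) : K))) j

theorem vMat_zero (den q : K[X]) {k : ℕ} (u num : Fin k → K[X]) (s : Fin (k + 1)) :
    vMat den q u num s 0 = fcol den q u num s := rfl

theorem vMat_succ (den q : K[X]) {k : ℕ} (u num : Fin k → K[X]) (s : Fin (k + 1)) (z : Fin k) :
    vMat den q u num s z.succ = (u z).comp (X + C ((s : ℕ) : K)) := rfl

theorem vMat_det [CharZero K] {k : ℕ} (u : Fin k → K[X]) (hu : LinearIndependent K u) (q : K[X])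
    (den : K[X]) (hden : den ≠ 0) (num : Fin k → K[X])
    (hns : ∀ α : Fin k → FractionRing K[X], ¬ ∀ z,
      emb K (num z) / emb K den = α z - shf K (α z)) : (vMat den q u num).det ≠ 0 := by
  intro h0
  obtain ⟨α, hα⟩ := lemmaZ u hu (fun z => emb K (num z) / emb K den) (emb K q) (by
    have hD0 : emb K (denK den k) ≠ 0 := emb_ne_zero (denK_ne_zero hden k)
    have hden0 : ∀ r : ℕ, emb K (den.comp (X + C (r : K))) ≠ 0 := fun r =>
      emb_ne_zero (comp_shift_ne_zero hden _)
    have hmat : (emb K).mapMatrix (vMat den q u num) = psiMat (shf K) (fun z => emb K (u z))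
        (fun z => emb K (num z) / emb K den) (emb K q) *
        Matrix.diagonal (fun j : Fin (k + 1) => Fin.cases (motive := fun _ => FractionRing K[X])
          (emb K (denK den k)) (fun _ => 1) j) := by
      ext s j
      rw [Matrix.mul_diagonal]
      refine Fin.cases ?_ (fun z => ?_) j
      · simp only [RingHom.mapMatrix_apply, Matrix.map_apply, vMat_zero, Fin.cases_zero, psiMat,
          Matrix.of_apply, fcol, psi, map_add, map_mul, map_sum]
        have hs := s.2
        rw [iterate_shf q s, add_mul, Finset.sum_mul]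
        congr 1
        · rw [mul_comm]
        · refine Finset.sum_congr rfl fun z _ => ?_
          rw [mul_assoc, iterate_shf (u z) s]
          congr 1
          rw [Finset.sum_mul]
          refine Finset.sum_congr rfl fun r hr => ?_
          rw [Finset.mem_range] at hr
          have h1 := congrArg (emb K) (denK_mul den (show r < k by omega) (num z))
          rw [map_mul, map_mul] at h1
          have h2 : ((shf K)^[r]) (emb K (num z) / emb K den) =
              emb K ((num z).comp (X + C (r : K))) / emb K (den.comp (X + C (r : K))) := by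
            rw [iter_div, emb, iterate_shf, iterate_shf]
          rw [h2, div_mul_eq_mul_div, eq_div_iff (hden0 r)]
          linear_combination -h1
      · simp only [RingHom.mapMatrix_apply, Matrix.map_apply, vMat_succ, Fin.cases_succ, psiMat,
          Matrix.of_apply, mul_one]
        rw [emb, iterate_shf]
    have h1 : (emb K (vMat den q u num).det) = 0 := by rw [h0, map_zero]
    rw [RingHom.map_det, hmat, Matrix.det_mul, Matrix.det_diagonal] at h1
    rcases mul_eq_zero.1 h1 with h1 | h1
    · exact h1
    · exfalso
      rw [Fin.prod_univ_succ] at h1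
      simp only [Fin.cases_zero, Fin.cases_succ, Finset.prod_const_one, mul_one] at h1
      exact hD0 h1)
  exact hns α hα

theorem vMat_row {k : ℕ} (u : Fin k → K[X]) (q : K[X]) (η : Fin k → ℕ → PowerSeries K)
    (a L : ℕ) (hrel : ∀ l ≤ L, (PowerSeries.X : PowerSeries K) ^ a ∣
      loc K l q + ∑ z, loc K l (u z) * η z l)
    (den : K[X]) (num : Fin k → K[X])
    (hshift : ∀ l < L, ∀ z, loc K (l + 1) den * (η z l - η z (l + 1)) = loc K (l + 1) (num z))
    (l : ℕ) (hl : k ≤ l) (hlL : l ≤ L) (s : Fin (k + 1)) :
    (PowerSeries.X : PowerSeries K) ^ a ∣ loc K l (vMat den q u num s 0) +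
      ∑ z : Fin k, loc K l (vMat den q u num s z.succ) * (loc K l (denK den k) * η z l) := by
  have hs := s.2
  -- the shift of `η`
  have hη : ∀ z, ∀ s : ℕ, s ≤ k → loc K l (denK den k) * η z (l - s) =
      loc K l (denK den k) * η z l + ∑ r ∈ Finset.range s, loc K l (numK den (num z) k r) := by
    intro z s
    induction s with
    | zero => intro _; simp
    | succ s ih =>
      intro hsk
      rw [Finset.sum_range_succ, ← add_assoc, ← ih (by omega)]
      have h2 := hshift (l - (s + 1)) (by omega) z
      have h3 : l - (s + 1) + 1 = l - s := by omega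
      rw [h3] at h2
      have h4 : loc K l (denK den k) = loc K (l - s) den *
          loc K l (∏ r' ∈ (Finset.range k).erase s, den.comp (X + C (r' : K))) := by
        rw [← loc_shift l s (by omega), ← map_mul]
        unfold denK
        rw [Finset.mul_prod_erase (Finset.range k) (fun r' => den.comp (X + C (r' : K)))
          (Finset.mem_range.2 (by omega))]
      have h5 : loc K l (numK den (num z) k s) =
          loc K l (∏ r' ∈ (Finset.range k).erase s, den.comp (X + C (r' : K))) *
            loc K (l - s) (num z) := by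
        unfold numK
        rw [map_mul, loc_shift l s (by omega)]
      rw [h5, ← h2, h4]
      ring
  have h6 : loc K l (vMat den q u num s 0) +
      ∑ z : Fin k, loc K l (vMat den q u num s z.succ) * (loc K l (denK den k) * η z l) =
      loc K l (denK den k) *
      (loc K (l - s) q + ∑ z, loc K (l - s) (u z) * η z (l - s)) := by
    simp only [vMat_zero, vMat_succ, fcol, map_add, map_mul, map_sum]
    rw [loc_shift l s (by omega), mul_add, add_assoc, ← Finset.sum_add_distrib, Finset.mul_sum]
    congr 1
    refine Finset.sum_congr rfl fun z _ => ?_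
    rw [loc_shift l s (by omega)]
    have := hη z s (by omega)
    linear_combination (-(loc K (l - s) (u z))) * this
  rw [h6]
  exact Dvd.dvd.mul_left (hrel _ (by omega)) _

theorem natDegree_vMat {k : ℕ} (u : Fin k → K[X]) (q : K[X]) (D : ℕ)
    (hD : ∀ z, (u z).natDegree ≤ D) (hq : q.natDegree ≤ D) (den : K[X]) (num : Fin k → K[X])
    (hnum : ∀ z, (num z).natDegree ≤ den.natDegree) :
    (vMat den q u num).det.natDegree ≤ k * den.natDegree + (k + 1) * D := by
  have h4 : (vMat den q u num).det.natDegree ≤
      ∑ j : Fin (k + 1), Fin.cases (motive := fun _ => ℕ)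
      (k * den.natDegree + D) (fun _ => D) j := by
    refine natDegree_det_le _ _ fun s j => ?_
    have hs := s.2
    refine Fin.cases ?_ (fun z => ?_) j
    · simp only [vMat_zero, Fin.cases_zero, fcol]
      refine (Polynomial.natDegree_add_le _ _).trans (max_le ?_ ?_)
      · refine Polynomial.natDegree_mul_le.trans ?_
        rw [natDegree_comp_shift]
        exact Nat.add_le_add (natDegree_denK_le _ _) hq
      · refine Polynomial.natDegree_sum_le_of_forall_le _ _ fun z _ => ?_
        refine Polynomial.natDegree_mul_le.trans ?_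
        rw [natDegree_comp_shift, add_comm]
        refine Nat.add_le_add ?_ (hD z)
        refine Polynomial.natDegree_sum_le_of_forall_le _ _ fun r hr => ?_
        rw [Finset.mem_range] at hr
        exact natDegree_numK_le (hnum z) (by omega)
    · simp only [vMat_succ, Fin.cases_succ]
      rw [natDegree_comp_shift]
      exact hD z
  refine h4.trans (le_of_eq ?_)
  rw [Fin.sum_univ_succ]
  simp only [Fin.cases_zero, Fin.cases_succ, Finset.sum_const, Finset.card_univ, Fintype.card_fin,
    smul_eq_mul]
  ring

theorem loc_X_add (l : ℕ) : loc K l (X - C (-(l : K))) = PowerSeries.X := by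
  rw [loc_apply]
  simp

/-- the conditions at a pole, together with the relation -/
noncomputable def polemap {k : ℕ} (a l : ℕ) (w : Fin k → PowerSeries K) {Q : Type*}
    [AddCommGroup Q] [Module K Q] (T : (Fin k → K[X]) →ₗ[K] Q) :
    (Fin (k + 1) → K[X]) →ₗ[K] (Fin a → K) × Q where
  toFun r := (fun m => PowerSeries.coeff (m : ℕ) (loc K l (r 0) + ∑ z : Fin k, loc K l (r z.succ) * w z),
    T (fun z => r z.succ))
  map_add' r r' := by
    refine Prod.ext ?_ ?_
    · funext m
      simp only [Pi.add_apply, map_add, add_mul, Finset.sum_add_distrib, Prod.fst_add]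
      ring
    · rw [Prod.snd_add, ← map_add]
      rfl
  map_smul' c r := by
    have hc : ∀ f : K[X], loc K l (c • f) = PowerSeries.C c * loc K l f := by
      intro f
      rw [smul_eq_C_mul, map_mul, loc_apply, C_comp, Polynomial.coe_C]
    refine Prod.ext ?_ ?_
    · funext m
      simp only [Pi.smul_apply, hc, mul_assoc, ← Finset.mul_sum, ← mul_add,
        PowerSeries.coeff_C_mul, Prod.smul_fst, smul_eq_mul, RingHom.id_apply]
    · rw [Prod.smul_snd, RingHom.id_apply, ← map_smul]
      rfl

theorem polemap_fst {k : ℕ} (a l : ℕ) (w : Fin k → PowerSeries K) {Q : Type*}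
    [AddCommGroup Q] [Module K Q] (T : (Fin k → K[X]) →ₗ[K] Q) (r : Fin (k + 1) → K[X]) :
    (polemap a l w T r).1 = 0 ↔ (PowerSeries.X : PowerSeries K) ^ a ∣
      loc K l (r 0) + ∑ z : Fin k, loc K l (r z.succ) * w z := by
  rw [PowerSeries.X_pow_dvd_iff]
  constructor
  · intro h m hm
    exact congrFun h ⟨m, hm⟩
  · intro h
    funext m
    exact h m m.2

theorem polemap_rank {k : ℕ} (a l : ℕ) (w : Fin k → PowerSeries K) {Q : Type*}
    [AddCommGroup Q] [Module K Q] [FiniteDimensional K Q] (T : (Fin k → K[X]) →ₗ[K] Q) :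
    a + Module.finrank K (LinearMap.range T) ≤
      Module.finrank K (LinearMap.range (polemap a l w T)) := by
  set V := LinearMap.range (polemap a l w T) with hV
  set g : V →ₗ[K] Q := (LinearMap.snd K (Fin a → K) Q) ∘ₗ V.subtype with hg
  have h1 := LinearMap.finrank_range_add_finrank_ker g
  have h2 : Module.finrank K (LinearMap.range T) ≤ Module.finrank K (LinearMap.range g) := by
    apply Submodule.finrank_mono
    rintro _ ⟨r, rfl⟩
    refine ⟨⟨polemap a l w T (Fin.cases 0 r), ⟨_, rfl⟩⟩, ?_⟩
    simp [hg, polemap]
  have h3 : a ≤ Module.finrank K (LinearMap.ker g) := by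
    have hinj : ∃ e : (Fin a → K) →ₗ[K] LinearMap.ker g, Function.Injective e := by
      have hmem : ∀ c : Fin a → K, ((c, 0) : (Fin a → K) × Q) ∈ V := by
        intro c
        refine ⟨Fin.cases ((∑ m : Fin a, C (c m) * X ^ (m : ℕ)).comp (X + C (l : K))) (fun _ => 0), ?_⟩
        refine Prod.ext ?_ ?_
        · funext m
          simp only [polemap, LinearMap.coe_mk, AddHom.coe_mk, Fin.cases_zero, Fin.cases_succ, map_zero,
            zero_mul, Finset.sum_const_zero, add_zero]
          rw [loc_apply, comp_assoc]
          have : (X + C (l : K)).comp (X - C (l : K)) = X := by simp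
          rw [this, comp_X, Polynomial.coeff_coe, finsetSum_coeff]
          simp only [coeff_C_mul, coeff_X_pow]
          rw [Finset.sum_eq_single m]
          · simp
          · intro j _ hj
            rw [if_neg, mul_zero]
            intro h0
            exact hj (Fin.ext h0.symm)
          · intro h0
            exact absurd (Finset.mem_univ _) h0
        · simp only [polemap, LinearMap.coe_mk, AddHom.coe_mk, Fin.cases_succ]
          exact map_zero T
      refine ⟨LinearMap.codRestrict _ (LinearMap.codRestrict V (LinearMap.inl K (Fin a → K) Q)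
        (fun c => hmem c)) (fun c => ?_), ?_⟩
      · rw [LinearMap.mem_ker]
        rfl
      · intro c c' h
        have h1 := congrArg (fun x : LinearMap.ker g => ((x : V) : (Fin a → K) × Q).1) h
        exact h1
    obtain ⟨e, he⟩ := hinj
    have := LinearMap.finrank_le_finrank_of_injective he
    simpa using this
  omega

/-- **Casorati estimate** -/
theorem cz [CharZero K] {k : ℕ} (u : Fin k → K[X]) (hu : LinearIndependent K u) (q : K[X]) (D : ℕ)
    (hD : ∀ z, (u z).natDegree ≤ D) (hq : q.natDegree ≤ D) (η : Fin k → ℕ → PowerSeries K)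
    (a L : ℕ) (hrel : ∀ l ≤ L, (PowerSeries.X : PowerSeries K) ^ a ∣
      loc K l q + ∑ z, loc K l (u z) * η z l)
    (den : K[X]) (hden : den ≠ 0) (num : Fin k → K[X])
    (hnum : ∀ z, (num z).natDegree ≤ den.natDegree)
    (hshift : ∀ l < L, ∀ z, loc K (l + 1) den * (η z l - η z (l + 1)) = loc K (l + 1) (num z))
    (hns : ∀ α : Fin k → FractionRing K[X], ¬ ∀ z,
      emb K (num z) / emb K den = α z - shf K (α z))
    {Q : Type*} [AddCommGroup Q] [Module K Q] [FiniteDimensional K Q]
    (T : K → (Fin k → K[X]) →ₗ[K] Q)
    (hT1 : ∀ x r, T x r = 0 → T x ((X - C x) • r) = 0)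
    (hT2 : ∀ x, ∃ m : ℕ, ∀ r, T x ((X - C x) ^ m • r) = 0)
    (S1 : Finset ℕ) (hS1 : ∀ l ∈ S1, k ≤ l ∧ l ≤ L) (S2 : Finset K)
    (hS12 : ∀ l ∈ S1, -(l : K) ∉ S2)
    (hT3 : ∀ l ∈ S1, ∀ s ≤ k, T (-(l : K)) (fun z => (u z).comp (X + C (s : K))) = 0)
    (hT4 : ∀ x ∈ S2, ∀ s ≤ k, T x (fun z => (u z).comp (X + C (s : K))) = 0) :
    ∑ l ∈ S1, (a + Module.finrank K (LinearMap.range (T (-(l : K))))) +
      ∑ x ∈ S2, Module.finrank K (LinearMap.range (T x)) ≤
        k * den.natDegree + (k + 1) * D := by
  classical
  have hdet := vMat_det u hu q den hden num hns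
  refine le_trans ?_ (natDegree_vMat u q D hD hq den num hnum)
  -- the orders
  have ho1 : ∀ l ∈ S1, (X - C (-(l : K))) ^ (a + Module.finrank K (LinearMap.range (T (-(l : K))))) ∣
      (vMat den q u num).det := by
    intro l hl
    obtain ⟨m, hm⟩ := hT2 (-(l : K))
    refine (pow_dvd_pow _ (polemap_rank a l (fun z => loc K l (denK den k) * η z l)
      (T (-(l : K))))).trans ?_
    have hX : ∀ (n : ℕ) (r : Fin (k + 1) → K[X]), loc K l (((X - C (-(l : K))) ^ n • r) 0) +
        ∑ z : Fin k, loc K l (((X - C (-(l : K))) ^ n • r) z.succ) * (loc K l (denK den k) * η z l) =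
        PowerSeries.X ^ n * (loc K l (r 0) + ∑ z : Fin k, loc K l (r z.succ) *
          (loc K l (denK den k) * η z l)) := by
      intro n r
      simp only [Pi.smul_apply, smul_eq_mul, map_mul, map_pow, loc_X_add]
      rw [mul_add, Finset.mul_sum]
      congr 1
      refine Finset.sum_congr rfl fun z _ => ?_
      ring
    refine gl (-(l : K)) _ ?_ (a + m) ?_ _ ?_
    · intro r hr
      have h0 : (polemap a l (fun z => loc K l (denK den k) * η z l) (T (-(l : K))) r).1 = 0 := by
        rw [hr]; rfl
      have h0' : T (-(l : K)) (fun z => r z.succ) = 0 := congrArg Prod.snd hr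
      refine Prod.ext ?_ ?_
      · rw [Prod.fst_zero, polemap_fst]
        rw [polemap_fst] at h0
        have := hX 1 r
        rw [pow_one] at this
        rw [this]
        exact Dvd.dvd.mul_left h0 _
      · exact hT1 _ _ h0'
    · intro r
      refine Prod.ext ?_ ?_
      · rw [Prod.fst_zero, polemap_fst, hX, pow_add, mul_assoc]
        exact Dvd.intro _ rfl
      · show T (-(l : K)) (fun z => ((X - C (-(l : K))) ^ (a + m) • r) z.succ) = 0
        have : (fun z : Fin k => ((X - C (-(l : K))) ^ (a + m) • r) z.succ) =
            (X - C (-(l : K))) ^ m • ((X - C (-(l : K))) ^ a • fun z : Fin k => r z.succ) := by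
          rw [smul_smul, ← pow_add, add_comm m a]
          rfl
        rw [this]
        exact hm _
    · intro s
      refine Prod.ext ?_ ?_
      · rw [Prod.fst_zero, polemap_fst]
        exact vMat_row u q η a L hrel den num hshift l (hS1 l hl).1 (hS1 l hl).2 s
      · exact hT3 l hl s (Nat.lt_succ_iff.1 s.2)
  have ho2 : ∀ x ∈ S2, (X - C x) ^ (Module.finrank K (LinearMap.range (T x))) ∣
      (vMat den q u num).det := by
    intro x hx
    obtain ⟨m, hm⟩ := hT2 x
    set T' : (Fin (k + 1) → K[X]) →ₗ[K] Q := T x ∘ₗ (LinearMap.funLeft K K[X] Fin.succ) with hT'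
    have hr : LinearMap.range T' = LinearMap.range (T x) := by
      rw [hT', LinearMap.range_comp_of_range_eq_top]
      rw [LinearMap.range_eq_top]
      exact LinearMap.funLeft_surjective_of_injective K K[X] _ (Fin.succ_injective k)
    rw [← hr]
    refine gl x T' ?_ m ?_ _ ?_
    · intro r hr
      exact hT1 x _ hr
    · intro r
      exact hm _
    · intro s
      exact hT4 x hx s (Nat.lt_succ_iff.1 s.2)
  -- the sum
  set e : K → ℕ := fun x => if x ∈ S2 then Module.finrank K (LinearMap.range (T x)) else
    a + Module.finrank K (LinearMap.range (T x)) with he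
  set S1' : Finset K := S1.image fun l : ℕ => -(l : K) with hS1'
  have hinj : Set.InjOn (fun l : ℕ => -(l : K)) S1 := by
    intro x _ y _ hxy
    simp only [neg_inj] at hxy
    exact_mod_cast hxy
  have hdisj : Disjoint S1' S2 := by
    rw [Finset.disjoint_left]
    intro x hx
    rw [hS1', Finset.mem_image] at hx
    obtain ⟨l, hl, rfl⟩ := hx
    exact hS12 l hl
  have h5 := sum_le_natDegree hdet (S1' ∪ S2) e (by
    intro x hx
    rw [Finset.mem_union] at hx
    by_cases hx2 : x ∈ S2
    · rw [he]
      simp only [if_pos hx2]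
      exact ho2 x hx2
    · rcases hx with hx | hx
      · rw [he]
        simp only [if_neg hx2]
        rw [hS1', Finset.mem_image] at hx
        obtain ⟨l, hl, rfl⟩ := hx
        exact ho1 l hl
      · exact absurd hx hx2)
  rw [Finset.sum_union hdisj, hS1', Finset.sum_image hinj] at h5
  refine le_trans (le_of_eq ?_) h5
  congr 1
  · refine Finset.sum_congr rfl fun l hl => ?_
    rw [he]
    simp only [if_neg (hS12 l hl)]
  · refine Finset.sum_congr rfl fun x hx => ?_
    rw [he]
    simp only [if_pos hx]

end Pool.Agent.DM
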