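import Pool.Agent.SI.HSL

/-!
# DM: left and right form of a differential operator with polynomial coefficients
-/

namespace Pool.Agent.DM

open Finset Polynomial Pool.Agent.ZC Pool.Agent.SI

variable {K : Type*} [Field K]

/-- `∑_r D_r F_r = ∑_k (lf F)_k D_k` -/
noncomputable def lf (S : ℕ) (F : ℕ → K[X]) (k : ℕ) : K[X] :=
  ∑ r ∈ Icc k S, hasseDeriv (r - k) (F r)

/-- `∑_k P_k D_k = ∑_r D_r (rf P)_r` -/
noncomputable def rf (S : ℕ) (P : ℕ → K[X]) (r : ℕ) : K[X] :=
  ∑ k ∈ Icc r S, C ((-1) ^ (k - r)) * hasseDeriv (k - r) (P k)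

/-- composition of Hasse derivatives -/
private theorem dic_comp (k l : ℕ) (f : K[X]) :
    hasseDeriv k (hasseDeriv l f) = C (((k + l).choose k : ℕ) : K) * hasseDeriv (k + l) f := by
  have h := congrArg (fun g => g f) (Polynomial.hasseDeriv_comp (R := K) k l)
  simp only [LinearMap.comp_apply, LinearMap.smul_apply] at h
  rw [h, nsmul_eq_mul, map_natCast C]

private theorem dic_sum_comp (s : Finset ℕ) (g : ℕ → K[X]) (q : K[X]) :
    (∑ k ∈ s, g k).comp q = ∑ k ∈ s, (g k).comp q := by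
  have h := map_sum (compRingHom q) g s
  simpa only [coe_compRingHom_apply] using h

private theorem dic_C_mul (k : ℕ) (c : K) (f : K[X]) :
    hasseDeriv k (C c * f) = C c * hasseDeriv k f := by
  rw [← smul_eq_C_mul, ← smul_eq_C_mul, map_smul]

/-- the two triangular index sets -/
private theorem dic_swap {M : Type*} [AddCommMonoid M] (r S : ℕ) (g : ℕ → ℕ → M) :
    ∑ k ∈ Icc r S, ∑ s ∈ Icc k S, g k s = ∑ s ∈ Icc r S, ∑ k ∈ Icc r s, g k s := by
  refine Finset.sum_comm' fun k s => ?_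
  simp only [Finset.mem_Icc]
  omega

private theorem dic_alt (r s : ℕ) (h : r ≤ s) :
    ∑ k ∈ Icc r s, (-1 : K) ^ (k - r) * ((s - r).choose (k - r) : ℕ) = if s = r then 1 else 0 := by
  have h1 : ∑ k ∈ Icc r s, (-1 : K) ^ (k - r) * ((s - r).choose (k - r) : ℕ) =
      ∑ i ∈ range (s - r + 1), (-1 : K) ^ i * ((s - r).choose i : ℕ) := by
    refine Finset.sum_nbij' (fun k => k - r) (fun i => i + r) ?_ ?_ ?_ ?_ ?_
    · intro k hk; rw [mem_Icc] at hk; rw [mem_range]; omega
    · intro i hi; rw [mem_range] at hi; rw [mem_Icc]; omega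
    · intro k hk; rw [mem_Icc] at hk; omega
    · intro i hi; omega
    · intro k hk; rfl
  rw [h1]
  have h2 := Int.alternating_sum_range_choose (n := s - r)
  have h3 := congrArg (Int.cast : ℤ → K) h2
  push_cast at h3
  rw [h3]
  by_cases h4 : s = r
  · rw [if_pos (by omega), if_pos h4]
  · rw [if_neg (by omega), if_neg h4]

theorem rf_lf (S : ℕ) (F : ℕ → K[X]) (r : ℕ) (hr : r ≤ S) : rf S (lf S F) r = F r := by
  unfold rf lf
  have h1 : ∀ k ∈ Icc r S, C ((-1 : K) ^ (k - r)) * hasseDeriv (k - r)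
      (∑ s ∈ Icc k S, hasseDeriv (s - k) (F s)) =
      ∑ s ∈ Icc k S, C ((-1 : K) ^ (k - r) * ((s - r).choose (k - r) : ℕ)) *
        hasseDeriv (s - r) (F s) := by
    intro k hk
    rw [mem_Icc] at hk
    rw [map_sum, Finset.mul_sum]
    refine Finset.sum_congr rfl fun s hs => ?_
    rw [mem_Icc] at hs
    rw [dic_comp, ← mul_assoc, ← C_mul, show k - r + (s - k) = s - r by omega]
  rw [Finset.sum_congr rfl h1, dic_swap]
  have h2 : ∀ s ∈ Icc r S, ∑ k ∈ Icc r s, C ((-1 : K) ^ (k - r) * ((s - r).choose (k - r) : ℕ)) *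
        hasseDeriv (s - r) (F s) = if s = r then F r else 0 := by
    intro s hs
    rw [mem_Icc] at hs
    rw [← Finset.sum_mul, ← map_sum, dic_alt r s hs.1]
    split_ifs with h
    · subst h; simp
    · simp
  rw [Finset.sum_congr rfl h2, Finset.sum_ite_eq', if_pos (mem_Icc.2 ⟨le_rfl, hr⟩)]

theorem lf_rf (S : ℕ) (P : ℕ → K[X]) (k : ℕ) (hk : k ≤ S) : lf S (rf S P) k = P k := by
  unfold rf lf
  have h1 : ∀ r ∈ Icc k S, hasseDeriv (r - k)
      (∑ s ∈ Icc r S, C ((-1 : K) ^ (s - r)) * hasseDeriv (s - r) (P s)) =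
      ∑ s ∈ Icc r S, C ((-1 : K) ^ (s - r) * ((s - k).choose (s - r) : ℕ)) *
        hasseDeriv (s - k) (P s) := by
    intro r hr
    rw [mem_Icc] at hr
    rw [map_sum]
    refine Finset.sum_congr rfl fun s hs => ?_
    rw [mem_Icc] at hs
    rw [dic_C_mul, dic_comp, ← mul_assoc, ← C_mul, show r - k + (s - r) = s - k by omega,
      Nat.choose_symm_of_eq_add (show s - k = (r - k) + (s - r) by omega)]
  rw [Finset.sum_congr rfl h1, dic_swap]
  have h2 : ∀ s ∈ Icc k S, ∑ r ∈ Icc k s, C ((-1 : K) ^ (s - r) * ((s - k).choose (s - r) : ℕ)) *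
        hasseDeriv (s - k) (P s) = if s = k then P k else 0 := by
    intro s hs
    rw [mem_Icc] at hs
    have h3 : ∑ r ∈ Icc k s, ((-1 : K) ^ (s - r) * ((s - k).choose (s - r) : ℕ)) =
        ∑ r ∈ Icc k s, ((-1 : K) ^ (r - k) * ((s - k).choose (r - k) : ℕ)) := by
      refine Finset.sum_nbij' (fun r => s + k - r) (fun r => s + k - r) ?_ ?_ ?_ ?_ ?_
      · intro r hr; rw [mem_Icc] at hr ⊢; omega
      · intro r hr; rw [mem_Icc] at hr ⊢; omega
      · intro r hr; rw [mem_Icc] at hr; omega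
      · intro r hr; rw [mem_Icc] at hr; omega
      · intro r hr
        rw [mem_Icc] at hr
        rw [show s + k - r - k = s - r by omega]
    rw [← Finset.sum_mul, ← map_sum, h3, dic_alt k s hs.1]
    split_ifs with h
    · subst h; simp
    · simp
  rw [Finset.sum_congr rfl h2, Finset.sum_ite_eq', if_pos (mem_Icc.2 ⟨le_rfl, hk⟩)]

/-- Leibniz -/
theorem sum_hs_loc [CharZero K] (S l : ℕ) (F : ℕ → K[X]) (G : PowerSeries K) :
    ∑ r ∈ range (S + 1), hs K r (loc K l (F r) * G) =
      ∑ k ∈ range (S + 1), loc K l (lf S F k) * hs K k G := by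
  unfold lf
  simp only [hs_loc_mul, map_sum, Finset.sum_mul]
  refine Finset.sum_comm' fun r k => ?_
  simp only [Finset.mem_range, Finset.mem_Icc]
  omega

private theorem dic_X_sub_zero (x : K) (P : K[X]) :
    (hasseDeriv 0 ((X - C x) * P)).eval x = 0 := by
  rw [hasseDeriv_zero]
  simp

private theorem dic_X_sub_succ (m : ℕ) (x : K) (P : K[X]) :
    (hasseDeriv (m + 1) ((X - C x) * P)).eval x = (hasseDeriv m P).eval x := by
  rw [hasseDeriv_mul, Polynomial.eval_finsetSum, Finset.sum_eq_single (1, m)]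
  · simp [hasseDeriv_one]
  · rintro ⟨i, j⟩ hij hne
    rw [HasAntidiagonal.mem_antidiagonal] at hij
    dsimp only at hij ⊢
    rcases i with _ | _ | i
    · rw [hasseDeriv_zero]; simp
    · exfalso; apply hne; rw [Prod.mk.injEq]; omega
    · have h1 : hasseDeriv (i + 1 + 1) (X - C x : K[X]) = 0 := by
        rw [map_sub, hasseDeriv_X _ (by omega), hasseDeriv_C _ _ (by omega), sub_zero]
      rw [h1, zero_mul, eval_zero]
  · intro h
    exfalso
    apply h
    rw [HasAntidiagonal.mem_antidiagonal]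
    ring

/-- multiplication by `X - x` shifts the right form at `x` -/
theorem rf_X_sub (S : ℕ) (P : ℕ → K[X]) (r : ℕ) (x : K) :
    (rf S (fun k => (X - C x) * P k) r).eval x = -((rf S P (r + 1)).eval x) := by
  unfold rf
  rw [Polynomial.eval_finsetSum, Polynomial.eval_finsetSum, ← Finset.sum_neg_distrib]
  by_cases hr : r ≤ S
  · have h1 : Icc r S = insert r (Icc (r + 1) S) := by
      ext k; simp only [mem_Icc, mem_insert]; omega
    rw [h1, Finset.sum_insert (by simp), Nat.sub_self, eval_mul, dic_X_sub_zero, mul_zero, zero_add]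
    refine Finset.sum_congr rfl fun k hk => ?_
    rw [mem_Icc] at hk
    rw [eval_mul, eval_mul, show k - r = (k - (r + 1)) + 1 by omega, dic_X_sub_succ, eval_C, eval_C,
      pow_succ]
    ring
  · rw [Icc_eq_empty (by omega), Icc_eq_empty (by omega)]
    simp

/-- translation -/
theorem rf_shift [CharZero K] (S : ℕ) (P : ℕ → K[X]) (r : ℕ) (s : K) :
    rf S (fun k => (P k).comp (X + C s)) r = (rf S P r).comp (X + C s) := by
  unfold rf
  rw [dic_sum_comp]
  refine Finset.sum_congr rfl fun k _ => ?_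
  rw [mul_comp, C_comp, hasseDeriv_comp_shift]

private theorem dic_refl [CharZero K] (k : ℕ) (f : K[X]) (c : K) :
    hasseDeriv k (f.comp (C c - X)) = C ((-1) ^ k) * (hasseDeriv k f).comp (C c - X) := by
  have h1 : ∀ (n : ℕ) (f : K[X]), (derivative^[n]) (f.comp (C c - X)) =
      C ((-1) ^ n) * ((derivative^[n]) f).comp (C c - X) := by
    intro n
    induction n with
    | zero => intro f; simp
    | succ n ih =>
      intro f
      rw [Function.iterate_succ_apply, Function.iterate_succ_apply, derivative_comp]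
      have h : derivative (C c - X : K[X]) = C (-1) := by
        rw [map_sub, derivative_C, derivative_X, C_neg, C_1, zero_sub]
      rw [h, iterate_derivative_C_mul, ih, pow_succ, C_mul]
      ring
  have h2 : ∀ g : K[X], (k.factorial : ℕ) • hasseDeriv k g = (derivative^[k]) g := by
    intro g
    have := Polynomial.factorial_smul_hasseDeriv (R := K) k
    have h3 := congrFun this g
    simpa using h3
  have h3 : (k.factorial : ℕ) • hasseDeriv k (f.comp (C c - X)) =
      (k.factorial : ℕ) • (C ((-1) ^ k) * (hasseDeriv k f).comp (C c - X)) := by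
    rw [h2, h1, ← h2]
    simp only [nsmul_eq_mul, mul_comp, natCast_comp]
    ring
  have h4 : (k.factorial : ℕ) ≠ 0 := Nat.factorial_ne_zero k
  exact smul_right_injective K[X] h4 h3

/-- reflection `t → c - t` -/
theorem rf_refl [CharZero K] (S : ℕ) (P : ℕ → K[X]) (r : ℕ) (c : K) :
    rf S (fun k => C ((-1) ^ k) * (P k).comp (C c - X)) r =
      C ((-1) ^ r) * (rf S P r).comp (C c - X) := by
  unfold rf
  rw [dic_sum_comp, Finset.mul_sum]
  refine Finset.sum_congr rfl fun k hk => ?_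
  rw [mem_Icc] at hk
  rw [mul_comp, C_comp, dic_C_mul, dic_refl, ← mul_assoc, ← mul_assoc, ← mul_assoc, ← C_mul, ← C_mul,
    ← C_mul]
  congr 2
  obtain ⟨i, rfl⟩ : ∃ i, k = r + i := ⟨k - r, by omega⟩
  rw [Nat.add_sub_cancel_left, pow_add]
  have h : ((-1 : K) ^ i) * (-1) ^ i = 1 := by rw [← mul_pow]; simp
  linear_combination ((-1 : K) ^ r * (-1) ^ i) * h

private theorem dic_deg {s : Finset ℕ} {g : ℕ → K[X]} {D : ℕ} (hD : 0 < D)
    (h : ∀ k ∈ s, (g k).natDegree < D) : (∑ k ∈ s, g k).natDegree < D := by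
  have h1 : (∑ k ∈ s, g k).natDegree ≤ D - 1 :=
    Polynomial.natDegree_sum_le_of_forall_le s g fun k hk => by have := h k hk; omega
  omega

theorem natDegree_rf_lt (S : ℕ) (P : ℕ → K[X]) (r D : ℕ) (hD : 0 < D)
    (hP : ∀ k ≤ S, (P k).natDegree < D) : (rf S P r).natDegree < D := by
  unfold rf
  refine dic_deg hD fun k hk => ?_
  rw [mem_Icc] at hk
  have h1 := Polynomial.natDegree_C_mul_le ((-1 : K) ^ (k - r)) (hasseDeriv (k - r) (P k))
  have h2 := Polynomial.natDegree_hasseDeriv_le (P k) (k - r)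
  have h3 := hP k hk.2
  omega

theorem natDegree_lf_lt (S : ℕ) (F : ℕ → K[X]) (k D : ℕ) (hD : 0 < D)
    (hF : ∀ r ≤ S, (F r).natDegree < D) : (lf S F k).natDegree < D := by
  unfold lf
  refine dic_deg hD fun r hr => ?_
  rw [mem_Icc] at hr
  have h2 := Polynomial.natDegree_hasseDeriv_le (F r) (r - k)
  have h3 := hF r hr.2
  omega

end Pool.Agent.DM
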