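import Pool.Agent.SI.Defs

/-!
# DM (dimension of the span of odd zeta values): definitions

`b = 2β + 1`, `β < B ≤ H`, `n = 4Hp`; `F` rows `(β, r, j)`: `hs r (w^(r%2) A_b(y) Cn_j(y) Gs_b)`,
with the extra coordinates `hs r (w^(r%2) A_b(y) Cn_j(y) zs_b c)`.
-/

namespace Pool.Agent.DM

open Finset Pool.Agent.ZC Pool.Agent.SI

noncomputable section

variable (K : Type*) [Field K]

/-- polynomial of the `F` rows -/
def fB (M p β j : ℕ) : Polynomial K := An K M p (2 * β + 1) * Cn K M j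

/-- `F` row `(β, r, j)` at the pole `l`, with zeta values `z` -/
def dRow (M p T : ℕ) (z : ℕ → K) (l β r j : ℕ) : PowerSeries K :=
  hs K r (hl K p l ^ (r % 2) * ev K p l (fB K M p β j) * Gs K p (2 * β + 1) l (oddS T) z)

/-- extra coordinate of the `F` row `(β, r, j)` at the pole `l`, coefficients `c` -/
def yRow (M p T : ℕ) (c : ℕ → K) (l β r j : ℕ) : PowerSeries K :=
  hs K r (hl K p l ^ (r % 2) * ev K p l (fB K M p β j) * zs K (2 * β + 1) (oddS T) c)

/-- index type of the `F` rows -/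
abbrev FI (B H S p : ℕ) : Type :=
  Σ β : Fin B, Fin (S + 1) × Fin ((4 * H - 2 * (2 * (β : ℕ) + 1)) * p)

end

end Pool.Agent.DM
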