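import Pool.Agent.DM.ZDF

/-!
# DM, zero estimate: expansion of a family in independent polynomials
-/

namespace Pool.Agent.DM

open Finset Polynomial Pool.Agent.ZC Pool.Agent.SI

variable {K : Type*} [Field K]

theorem pw_eq_zero [CharZero K] {p e : ℕ} {f : K[X]} (h : pw p e f = 0) : f = 0 := by
  unfold pw at h
  rcases mul_eq_zero.1 h with h | h
  · exact absurd h (pow_ne_zero _ (wpol_ne_zero p))
  · apply comp_tp_injective (K := K) p
    simpa using h

theorem wpol_refl (p : ℕ) : (wpol K p).comp (C (-(2 * (p : K) - 1)) - X) = -wpol K p := by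
  unfold wpol
  simp only [add_comp, mul_comp, C_comp, X_comp]
  rw [map_neg, mul_sub, mul_neg]
  have h : (C 2 : K[X]) * C (2 * (p : K) - 1) = C (2 * (p : K) - 1) + C (2 * (p : K) - 1) := by
    rw [← map_mul, ← map_add]
    congr 1
    ring
  rw [h]
  ring

theorem pw_refl (p e : ℕ) (f : K[X]) :
    (pw p e f).comp (C (-(2 * (p : K) - 1)) - X) = C ((-1) ^ e) * pw p e f := by
  unfold pw
  have h : (tp K p).comp (C (-(2 * (p : K) - 1)) - X) = tp K p := by
    rw [← wpol_sq, pow_comp, wpol_refl, neg_sq]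
  rw [mul_comp, pow_comp, wpol_refl, comp_assoc, h, neg_pow, map_pow, map_neg, map_one, mul_assoc]

theorem pw_natDegree_le [CharZero K] {p e n : ℕ} (he : e ≤ 1) {f : K[X]} (hf : f ∈ degreeLT K n) :
    (pw p e f).natDegree ≤ 2 * n - 1 := by
  by_cases h0 : f = 0
  · rw [h0]
    unfold pw
    rw [zero_comp, mul_zero, natDegree_zero]
    exact Nat.zero_le _
  have hfn : f.natDegree < n := by
    rw [mem_degreeLT] at hf
    exact (natDegree_lt_iff_degree_lt h0).2 hf
  unfold pw
  refine natDegree_mul_le.trans ?_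
  rw [natDegree_comp_tp, natDegree_pow, natDegree_wpol]
  omega

theorem fam_eps_le {B S s0 : ℕ} {m : ℕ} {ε : Fin m → ℕ} {w : Fin m → ℕ → ℕ → K}
    (hw : Fam B S s0 ε w) (i : Fin m) : ε i ≤ 1 := by
  have h0 := hw.1.ne_zero i
  obtain ⟨β, hβ⟩ := Function.ne_iff.1 h0
  obtain ⟨k, hk⟩ := Function.ne_iff.1 hβ
  have := (hw.2 i β k hk).2.2.2
  omega

theorem comb_apply {m : ℕ} (w : Fin m → ℕ → ℕ → K) (f : Fin m → K[X]) (β k : ℕ) :
    comb w f β k = ∑ i, f i * C (w i β k) := rfl

theorem ext_fam [CharZero K] (B S s0 : ℕ) {m : ℕ} (ε : Fin m → ℕ) (w : Fin m → ℕ → ℕ → K)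
    (hw : Fam B S s0 ε w) (p n : ℕ) (f : Fin m → K[X]) (hf : ∀ i, f i ∈ degreeLT K n)
    (hne : f ≠ 0) :
    ∃ (ζ : ℕ) (ε' : Fin ζ → ℕ) (w' : Fin ζ → ℕ → ℕ → K) (u : Fin ζ → K[X]),
      0 < ζ ∧ ζ ≤ m ∧ Fam B S s0 ε' w' ∧ LinearIndependent K u ∧
      (∀ z, (u z).natDegree ≤ 2 * n) ∧ comb w' u = comb w (fun i => pw p (ε i) (f i)) := by
  classical
  set v : Fin m → K[X] := fun i => pw p (ε i) (f i) with hv
  obtain ⟨κ, a, hainj, hspan, hli⟩ := exists_linearIndependent' K v
  have hκ : Finite κ := Finite.of_injective a hainj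
  have : Fintype κ := Fintype.ofFinite κ
  set ζ : ℕ := Fintype.card κ with hζ
  set e : Fin ζ ≃ κ := (Fintype.equivFin κ).symm with he
  set b := Module.Basis.span hli with hb
  have hbz : ∀ z, (b z : K[X]) = v (a z) := fun z => by
    rw [hb, Module.Basis.span_apply]
    rfl
  have hmem : ∀ i, v i ∈ Submodule.span K (Set.range (v ∘ a)) := fun i => by
    rw [hspan]
    exact Submodule.subset_span ⟨i, rfl⟩
  set c : Fin m → κ → K := fun i z => b.repr ⟨v i, hmem i⟩ z with hc
  have hexp : ∀ i, v i = ∑ z, c i z • v (a z) := by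
    intro i
    have h1 := congrArg (Subtype.val) (b.sum_repr ⟨v i, hmem i⟩)
    rw [Submodule.coe_sum] at h1
    refine h1.symm.trans (Finset.sum_congr rfl fun z _ => ?_)
    rw [Submodule.coe_smul, hbz]
  have hca : ∀ z z', c (a z) z' = if z = z' then 1 else 0 := by
    intro z z'
    have h1 : (⟨v (a z), hmem (a z)⟩ : Submodule.span K (Set.range (v ∘ a))) = b z :=
      Subtype.ext (hbz z).symm
    simp only [hc]
    rw [h1, Module.Basis.repr_self, Finsupp.single_apply]
  have hpar : ∀ i z, c i z ≠ 0 → ε i = ε (a z) := by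
    intro i
    have h1 : ∑ z, (c i z * ((-1) ^ ε (a z) - (-1) ^ ε i)) • v (a z) = 0 := by
      have h2 := congrArg (fun g : K[X] => g.comp (C (-(2 * (p : K) - 1)) - X)) (hexp i)
      simp only [hv, pw_refl, Polynomial.sum_comp, smul_comp] at h2
      have h3 : C ((-1) ^ ε i) * pw p (ε i) (f i) = ∑ z, (c i z * (-1) ^ ε i) • v (a z) := by
        have h4 : pw p (ε i) (f i) = ∑ z, c i z • v (a z) := hexp i
        rw [h4, Finset.mul_sum]
        refine Finset.sum_congr rfl fun z _ => ?_
        rw [← smul_eq_C_mul, smul_smul, mul_comm]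
      rw [h3] at h2
      have h5 : ∑ z, (c i z * ((-1) ^ ε (a z) - (-1) ^ ε i)) • v (a z) =
          ∑ z, c i z • (C ((-1) ^ ε (a z)) * pw p (ε (a z)) (f (a z))) -
            ∑ z, (c i z * (-1) ^ ε i) • v (a z) := by
        rw [← Finset.sum_sub_distrib]
        refine Finset.sum_congr rfl fun z _ => ?_
        rw [mul_sub, sub_smul]
        congr 1
        rw [← smul_eq_C_mul, smul_smul]
      rw [h5, ← h2, sub_self]
    intro z hz
    have h2 := Fintype.linearIndependent_iff.1 hli
      (fun z => c i z * ((-1) ^ ε (a z) - (-1) ^ ε i)) h1 z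
    have h3 : ((-1 : K) ^ ε (a z) - (-1) ^ ε i) = 0 := by
      rcases mul_eq_zero.1 h2 with h | h
      · exact absurd h hz
      · exact h
    have e1 := fam_eps_le hw i
    have e2 := fam_eps_le hw (a z)
    by_contra hcon
    have h4 : (ε i = 0 ∧ ε (a z) = 1) ∨ (ε i = 1 ∧ ε (a z) = 0) := by omega
    have h5 : (2 : K) ≠ 0 := two_ne_zero
    rcases h4 with ⟨h6, h7⟩ | ⟨h6, h7⟩
    · rw [h6, h7] at h3
      apply h5
      linear_combination -h3
    · rw [h6, h7] at h3
      apply h5
      linear_combination h3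
  refine ⟨ζ, fun z => ε (a (e z)), fun z => ∑ i, c i (e z) • w i, fun z => v (a (e z)),
    ?_, ?_, ⟨?_, ?_⟩, ?_, ?_, ?_⟩
  · rw [hζ, Fintype.card_pos_iff]
    by_contra hemp
    rw [not_nonempty_iff] at hemp
    apply hne
    funext i
    apply pw_eq_zero (p := p) (e := ε i)
    have := hexp i
    rw [Finset.univ_eq_empty, Finset.sum_empty] at this
    exact this
  · have := Fintype.card_le_of_injective a hainj
    rwa [Fintype.card_fin] at this
  · rw [Fintype.linearIndependent_iff]
    intro g hg z'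
    have h1 : ∑ i, (∑ z, g z * c i (e z)) • w i = 0 := by
      rw [← hg]
      simp only [Finset.smul_sum, Finset.sum_smul, smul_smul]
      rw [Finset.sum_comm]
    have h2 := Fintype.linearIndependent_iff.1 hw.1 (fun i => ∑ z, g z * c i (e z)) h1 (a (e z'))
    rw [Finset.sum_eq_single z'] at h2
    · rw [hca, if_pos rfl, mul_one] at h2
      exact h2
    · intro z _ hz
      rw [hca, if_neg, mul_zero]
      exact fun h => hz (e.injective h).symm
    · intro h
      exact absurd (Finset.mem_univ _) h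
  · intro z β k h
    have h' : (∑ i, c i (e z) • w i) β k ≠ 0 := h
    rw [Finset.sum_apply, Finset.sum_apply] at h'
    obtain ⟨i, _, hi⟩ := Finset.exists_ne_zero_of_sum_ne_zero h'
    simp only [Pi.smul_apply, smul_eq_mul] at hi
    have h1 : c i (e z) ≠ 0 := left_ne_zero_of_mul hi
    have h2 : w i β k ≠ 0 := right_ne_zero_of_mul hi
    obtain ⟨h3, h4, h5, h6⟩ := hw.2 i β k h2
    exact ⟨h3, h4, h5, by rw [h6, hpar i _ h1]⟩
  · exact hli.comp e e.injective
  · intro z
    refine (pw_natDegree_le (fam_eps_le hw _) (hf _)).trans (by omega)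
  · funext β k
    rw [comb_apply, comb_apply]
    have h1 : ∀ i, pw p (ε i) (f i) * C (w i β k) =
        ∑ z, v (a (e z)) * (C (c i (e z)) * C (w i β k)) := by
      intro i
      have h2 : pw p (ε i) (f i) = ∑ z, c i z • v (a z) := hexp i
      rw [h2, ← e.sum_comp, Finset.sum_mul]
      refine Finset.sum_congr rfl fun z _ => ?_
      rw [smul_eq_C_mul]
      ring
    rw [Finset.sum_congr rfl fun i _ => h1 i, Finset.sum_comm]
    refine Finset.sum_congr rfl fun z _ => ?_
    rw [Finset.sum_apply, Finset.sum_apply, map_sum, Finset.mul_sum]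
    refine Finset.sum_congr rfl fun i _ => ?_
    simp only [Pi.smul_apply, smul_eq_mul, map_mul]

/-- the family of all unit vectors -/
theorem full_fam (B S s0 : ℕ) : ∃ (ε : Fin (B * (S + 1 - s0)) → ℕ)
    (w : Fin (B * (S + 1 - s0)) → ℕ → ℕ → K), Fam B S s0 ε w := by
  classical
  refine ⟨fun i => (s0 + ((finProdFinEquiv.symm i).2 : ℕ)) % 2, fun i β k =>
    if β = ((finProdFinEquiv.symm i).1 : ℕ) ∧ k = s0 + ((finProdFinEquiv.symm i).2 : ℕ) then 1
      else 0, ?_, ?_⟩
  · rw [Fintype.linearIndependent_iff]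
    intro g hg i
    have h1 := congrFun (congrFun hg ((finProdFinEquiv.symm i).1 : ℕ))
      (s0 + ((finProdFinEquiv.symm i).2 : ℕ))
    rw [Finset.sum_apply, Finset.sum_apply, Finset.sum_eq_single i] at h1
    · simpa using h1
    · intro j _ hji
      simp only [Pi.smul_apply, smul_eq_mul]
      rw [if_neg, mul_zero]
      rintro ⟨h2, h3⟩
      apply hji
      apply finProdFinEquiv.symm.injective
      refine Prod.ext (Fin.ext h2.symm) (Fin.ext ?_)
      omega
    · intro h
      exact absurd (Finset.mem_univ _) h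
  · intro i β k h
    simp only [ne_eq, ite_eq_right_iff, one_ne_zero, imp_false, not_not] at h
    obtain ⟨h1, h2⟩ := h
    have h3 := (finProdFinEquiv.symm i).1.2
    have h4 := (finProdFinEquiv.symm i).2.2
    refine ⟨by omega, by omega, by omega, by rw [h2]⟩

theorem card_fam_le (B S s0 : ℕ) {m : ℕ} (ε : Fin m → ℕ) (w : Fin m → ℕ → ℕ → K)
    (hw : Fam B S s0 ε w) : m ≤ B * (S + 1) := by
  have hli : LinearIndependent K
      (fun (i : Fin m) (x : Fin B × Fin (S + 1)) => w i (x.1 : ℕ) (x.2 : ℕ)) := by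
    rw [Fintype.linearIndependent_iff]
    intro g hg
    refine Fintype.linearIndependent_iff.1 hw.1 g ?_
    funext β k
    rw [Finset.sum_apply, Finset.sum_apply]
    by_cases hβ : β < B ∧ k < S + 1
    · have h1 := congrFun hg (⟨β, hβ.1⟩, ⟨k, hβ.2⟩)
      rw [Finset.sum_apply] at h1
      exact h1
    · refine Finset.sum_eq_zero fun i _ => ?_
      have : w i β k = 0 := by
        by_contra h
        obtain ⟨h1, _, h3, _⟩ := hw.2 i β k h
        exact hβ ⟨h1, by omega⟩
      simp only [Pi.smul_apply, this, smul_zero]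
  have h := hli.fintype_card_le_finrank
  simpa [Module.finrank_fintype_fun_eq_card] using h

/-- the polynomials are determined by the operator -/
theorem comb_pw_inj [CharZero K] (B S s0 : ℕ) {m : ℕ} (ε : Fin m → ℕ) (w : Fin m → ℕ → ℕ → K)
    (hw : Fam B S s0 ε w) (p : ℕ) (f : Fin m → K[X])
    (h : comb w (fun i => pw p (ε i) (f i)) = 0) : f = 0 := by
  funext i
  apply pw_eq_zero (p := p) (e := ε i)
  ext n
  rw [coeff_zero]
  refine Fintype.linearIndependent_iff.1 hw.1 (fun i => (pw p (ε i) (f i)).coeff n) ?_ i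
  funext β k
  have h1 := congrArg (fun g : K[X] => g.coeff n) (congrFun (congrFun h β) k)
  simp only [comb_apply, finsetSum_coeff, coeff_mul_C, Pi.zero_apply, coeff_zero] at h1
  rw [Finset.sum_apply, Finset.sum_apply]
  exact h1

/-- parity of the coefficients -/
theorem comb_pw_parity [CharZero K] (B S s0 : ℕ) {m : ℕ} (ε : Fin m → ℕ)
    (w : Fin m → ℕ → ℕ → K) (hw : Fam B S s0 ε w) (p : ℕ) (f : Fin m → K[X]) (β k : ℕ) :
    C ((-1) ^ k) * (comb w (fun i => pw p (ε i) (f i)) β k).comp (C (-(2 * (p : K) - 1)) - X) =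
      comb w (fun i => pw p (ε i) (f i)) β k := by
  rw [comb_apply, Polynomial.sum_comp, Finset.mul_sum]
  refine Finset.sum_congr rfl fun i _ => ?_
  by_cases h0 : w i β k = 0
  · rw [h0, map_zero, mul_zero, zero_comp, mul_zero]
  have h1 := (hw.2 i β k h0).2.2.2
  have h2 : ((-1 : K) ^ k) = (-1) ^ ε i := by
    rw [← h1]
    exact neg_one_pow_eq_pow_mod_two (R := K) k
  rw [mul_comp, pw_refl, C_comp, h2, ← mul_assoc, ← mul_assoc, ← map_mul, ← mul_pow, neg_one_mul,
    neg_neg, one_pow, map_one, one_mul]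

theorem comb_pw_natDegree [CharZero K] (B S s0 : ℕ) {m : ℕ} (ε : Fin m → ℕ)
    (w : Fin m → ℕ → ℕ → K) (hw : Fam B S s0 ε w) (p n : ℕ) (hn : 0 < n) (f : Fin m → K[X])
    (hf : ∀ i, f i ∈ degreeLT K n) (β k : ℕ) :
    (comb w (fun i => pw p (ε i) (f i)) β k).natDegree < 2 * n := by
  have h : (comb w (fun i => pw p (ε i) (f i)) β k).natDegree ≤ 2 * n - 1 := by
    rw [comb_apply]
    refine natDegree_sum_le_of_forall_le _ _ fun i _ => ?_
    exact (natDegree_mul_C_le _ _).trans (pw_natDegree_le (fam_eps_le hw i) (hf i))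
  omega

end Pool.Agent.DM
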