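import Mathlib

/-!
# DM: choice of the parameters (section 5 of the paper)

`a = ⌊W/2⌋`, `S = x + W - a`, `f0 = ⌊a/4⌋`, `B = ⌈sqrt(d W / x)⌉ + 1`, `H = ⌈4 (x/W) B⌉`.
-/

namespace Pool.Agent.DM

private theorem num_cube {B s Q K0 : ℝ} (hs0 : 0 ≤ s) (hB0 : 0 ≤ B) (hB : B ≤ s + 2) (hK0 : 0 < K0)
    (hQ : 64 * K0 ≤ Q) (hs : s ^ 3 ≤ 1 / (16 * K0) * Q) : B ^ 3 < Q / K0 := by
  have h1 : B ^ 3 ≤ (s + 2) ^ 3 := pow_le_pow_left₀ hB0 hB 3
  have h2 : (s + 2) ^ 3 ≤ 4 * (s ^ 3 + 8) := by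
    nlinarith [mul_nonneg (add_nonneg hs0 (by norm_num : (0 : ℝ) ≤ 2)) (sq_nonneg (s - 2))]
  have h3 : (1 : ℝ) / (16 * K0) * Q = Q / K0 / 16 := by
    field_simp
  have h4 : 64 ≤ Q / K0 := by
    rw [le_div_iff₀ hK0]
    exact hQ
  rw [h3] at hs
  linarith

theorem dm_num (C1 : ℝ) (hC1 : 0 < C1) : ∃ c C x0 : ℝ, 0 < c ∧ 0 < C ∧ ∀ x W d : ℕ, x0 ≤ x →
    C * (x : ℝ) ^ (3 / 4 : ℝ) * (Real.log x) ^ (1 / 4 : ℝ) ≤ W → W ≤ x →
    (d : ℝ) < c * (W : ℝ) ^ (5 / 3 : ℝ) / ((x : ℝ) * (Real.log x) ^ (2 / 3 : ℝ)) →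
    ∃ B H a S f0 : ℕ, 1 ≤ B ∧ B ≤ H ∧ a + S = x + W ∧
      2 * B ^ 2 * (S + 1) + d * a + f0 ≤ 4 * H * B * (S + 1 - x) ∧ f0 + 12 * H + 1 ≤ a ∧
      C1 * ((B : ℝ) * (S + 1) + 1) * (H : ℝ) ^ 2 * (1 + Real.log (a + S + 1)) < (f0 : ℝ) ^ 2 := by
  set K0 : ℝ := 76800 * (C1 + 1) with hK0
  have hK0' : (76800 : ℝ) ≤ K0 := by rw [hK0]; linarith
  have hK0p : 0 < K0 := by linarith
  refine ⟨1 / (16 * K0), 64 * K0, 3, by positivity, by positivity, ?_⟩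
  intro x W d hx hCW hWx hd
  have hx0 : (0 : ℝ) < x := by linarith
  have hWx' : (W : ℝ) ≤ x := by exact_mod_cast hWx
  set L := Real.log x with hL
  have hlog3 : (1 : ℝ) < Real.log 3 := by
    rw [Real.lt_log_iff_exp_lt (by norm_num)]
    have := Real.exp_one_lt_d9
    linarith
  have hL3 : Real.log 3 ≤ L := Real.log_le_log (by norm_num) hx
  have hL1 : 1 ≤ L := by linarith
  have hL0 : 0 < L := by linarith
  -- fourth powers
  have hW4 : (64 * K0) ^ 4 * (x : ℝ) ^ 3 * L ≤ (W : ℝ) ^ 4 := by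
    have h1 : (64 * K0 * (x : ℝ) ^ (3 / 4 : ℝ) * L ^ (1 / 4 : ℝ)) ^ 4 ≤ (W : ℝ) ^ 4 :=
      pow_le_pow_left₀ (by positivity) hCW 4
    have h2 : ((x : ℝ) ^ (3 / 4 : ℝ)) ^ 4 = (x : ℝ) ^ 3 := by
      rw [← Real.rpow_natCast, ← Real.rpow_mul hx0.le, ← Real.rpow_natCast]
      norm_num
    have h3 : (L ^ (1 / 4 : ℝ)) ^ 4 = L := by
      rw [← Real.rpow_natCast, ← Real.rpow_mul hL0.le]
      norm_num
    rw [mul_pow, mul_pow, h2, h3] at h1
    exact h1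
  have hWK : 64 * K0 ≤ (W : ℝ) := by
    have h1 : (64 * K0) ^ 4 ≤ (W : ℝ) ^ 4 := by
      refine le_trans ?_ hW4
      have h2 : (1 : ℝ) ≤ (x : ℝ) ^ 3 * L := by
        have : (1 : ℝ) ≤ (x : ℝ) ^ 3 := one_le_pow₀ (by linarith)
        exact one_le_mul_of_one_le_of_one_le this hL1
      have h3 : (0 : ℝ) ≤ (64 * K0) ^ 4 := by positivity
      calc (64 * K0) ^ 4 = (64 * K0) ^ 4 * 1 := (mul_one _).symm
        _ ≤ (64 * K0) ^ 4 * ((x : ℝ) ^ 3 * L) := mul_le_mul_of_nonneg_left h2 h3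
        _ = (64 * K0) ^ 4 * (x : ℝ) ^ 3 * L := by ring
    exact le_of_pow_le_pow_left₀ (by norm_num) (Nat.cast_nonneg W) h1
  have hWbig : (4000000 : ℝ) ≤ W := by linarith
  have hW0 : (0 : ℝ) < W := by linarith
  -- the quantity Q
  set Q : ℝ := (W : ℝ) ^ 4 / ((x : ℝ) ^ 3 * L) with hQ
  have hQ64 : 64 * K0 ≤ Q := by
    rw [hQ, le_div_iff₀ (by positivity)]
    have h1 : 64 * K0 ≤ (64 * K0) ^ 4 := by
      have : (1 : ℝ) ≤ 64 * K0 := by linarith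
      calc 64 * K0 = (64 * K0) ^ 1 := by ring
        _ ≤ (64 * K0) ^ 4 := pow_le_pow_right₀ this (by norm_num)
    have h2 : 64 * K0 * ((x : ℝ) ^ 3 * L) ≤ (64 * K0) ^ 4 * ((x : ℝ) ^ 3 * L) :=
      mul_le_mul_of_nonneg_right h1 (by positivity)
    linarith [h2, hW4]
  have hQ0 : 0 < Q := by linarith
  set s : ℝ := Real.sqrt ((d : ℝ) * W / x) with hs
  have hs0 : 0 ≤ s := Real.sqrt_nonneg _
  have hs2 : s ^ 2 = (d : ℝ) * W / x := Real.sq_sqrt (by positivity)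
  have hs3 : s ^ 3 ≤ 1 / (16 * K0) * Q := by
    set D : ℝ := (W : ℝ) ^ (5 / 3 : ℝ) / ((x : ℝ) * L ^ (2 / 3 : ℝ)) with hD
    have hD3 : D ^ 3 = (W : ℝ) ^ 5 / ((x : ℝ) ^ 3 * L ^ 2) := by
      rw [hD, div_pow, mul_pow]
      congr 1
      · rw [← Real.rpow_natCast, ← Real.rpow_mul hW0.le, ← Real.rpow_natCast]
        norm_num
      · congr 1
        rw [← Real.rpow_natCast, ← Real.rpow_mul hL0.le, ← Real.rpow_natCast]
        norm_num
    have hD0 : 0 ≤ D := by positivity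
    have hdD : (d : ℝ) ≤ 1 / (16 * K0) * D := by
      rw [hD, ← mul_div_assoc]
      exact hd.le
    have hc1 : 1 / (16 * K0) ≤ 1 := by
      rw [div_le_one (by positivity)]
      linarith
    have hc0 : 0 < 1 / (16 * K0) := by positivity
    have h1 : s ^ 2 ≤ 1 / (16 * K0) * (D * W / x) := by
      rw [hs2]
      have : (d : ℝ) * W / x ≤ 1 / (16 * K0) * D * W / x := by gcongr
      calc (d : ℝ) * W / x ≤ 1 / (16 * K0) * D * W / x := this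
        _ = 1 / (16 * K0) * (D * W / x) := by ring
    have h2 : (D * W / x) ^ 3 = Q ^ 2 := by
      rw [div_pow, mul_pow, hD3, hQ]
      field_simp
    have h3 : (s ^ 3) ^ 2 ≤ (1 / (16 * K0) * Q) ^ 2 := by
      calc (s ^ 3) ^ 2 = (s ^ 2) ^ 3 := by ring
        _ ≤ (1 / (16 * K0) * (D * W / x)) ^ 3 := pow_le_pow_left₀ (by positivity) h1 3
        _ = (1 / (16 * K0)) ^ 3 * Q ^ 2 := by rw [mul_pow, h2]
        _ ≤ (1 / (16 * K0)) ^ 2 * Q ^ 2 := by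
            refine mul_le_mul_of_nonneg_right ?_ (by positivity)
            exact pow_le_pow_of_le_one hc0.le hc1 (by norm_num)
        _ = (1 / (16 * K0) * Q) ^ 2 := by ring
    exact le_of_pow_le_pow_left₀ (by norm_num) (by positivity) h3
  -- the parameters
  set B : ℕ := ⌈s⌉₊ + 1 with hB
  have hBs : s ≤ (B : ℝ) := by
    rw [hB]
    push_cast
    linarith [Nat.le_ceil s]
  have hBs2 : (B : ℝ) ≤ s + 2 := by
    rw [hB]
    push_cast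
    linarith [Nat.ceil_lt_add_one hs0]
  have hB1 : 1 ≤ B := by omega
  have hB1' : (1 : ℝ) ≤ B := by exact_mod_cast hB1
  have hB3 : (B : ℝ) ^ 3 < Q / K0 := num_cube hs0 (by linarith) hBs2 hK0p hQ64 hs3
  have hBsq : (d : ℝ) * W ≤ (x : ℝ) * (B : ℝ) ^ 2 := by
    have h1 : s ^ 2 ≤ (B : ℝ) ^ 2 := pow_le_pow_left₀ hs0 hBs 2
    rw [hs2, div_le_iff₀ hx0] at h1
    linarith
  set H : ℕ := ⌈4 * ((x : ℝ) / W) * B⌉₊ with hH
  have hxW : (1 : ℝ) ≤ (x : ℝ) / W := by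
    rw [one_le_div hW0]
    exact hWx'
  have hxWB : (1 : ℝ) ≤ (x : ℝ) / W * B := one_le_mul_of_one_le_of_one_le hxW hB1'
  have hH1 : 4 * ((x : ℝ) / W) * B ≤ H := Nat.le_ceil _
  have hH2 : (H : ℝ) ≤ 5 * ((x : ℝ) / W) * B := by
    have := Nat.ceil_lt_add_one (a := 4 * ((x : ℝ) / W) * B) (by positivity)
    rw [← hH] at this
    linarith
  have hBH : B ≤ H := by
    have h0 : 1 * (B : ℝ) ≤ (x : ℝ) / W * B := mul_le_mul_of_nonneg_right hxW (by linarith)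
    have h1 : (B : ℝ) ≤ H := by linarith
    exact_mod_cast h1
  set a : ℕ := W / 2 with ha
  have ha1 : (W : ℝ) ≤ 2 * a + 1 := by
    have : W ≤ 2 * a + 1 := by omega
    exact_mod_cast this
  have ha2 : 2 * (a : ℝ) ≤ W := by
    have : 2 * a ≤ W := by omega
    exact_mod_cast this
  set f0 : ℕ := a / 4 with hf0
  have hf1 : (a : ℝ) ≤ 4 * f0 + 3 := by
    have : a ≤ 4 * f0 + 3 := by omega
    exact_mod_cast this
  have hf2 : 4 * (f0 : ℝ) ≤ a := by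
    have : 4 * f0 ≤ a := by omega
    exact_mod_cast this
  have haW : a ≤ W := by omega
  have hSx : (((x + (W - a) : ℕ)) : ℝ) = (x : ℝ) + W - a := by
    rw [Nat.cast_add, Nat.cast_sub haW]
    ring
  -- x B ≤ W ^ 2 / 400
  have hxB : (x : ℝ) * B * 400 ≤ (W : ℝ) ^ 2 := by
    have h1 : ((x : ℝ) * B * 400) ^ 3 ≤ ((W : ℝ) ^ 2) ^ 3 := by
      have h2 : (x : ℝ) ^ 3 * (B : ℝ) ^ 3 ≤ (x : ℝ) ^ 3 * (Q / K0) :=
        mul_le_mul_of_nonneg_left hB3.le (by positivity)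
      have h3 : (x : ℝ) ^ 3 * (Q / K0) = (W : ℝ) ^ 4 / (L * K0) := by
        rw [hQ]
        field_simp
      have h4 : (W : ℝ) ^ 4 / (L * K0) ≤ (W : ℝ) ^ 4 := by
        exact div_le_self (by positivity) (one_le_mul_of_one_le_of_one_le hL1 (by linarith))
      calc ((x : ℝ) * B * 400) ^ 3 = 64000000 * ((x : ℝ) ^ 3 * (B : ℝ) ^ 3) := by ring
        _ ≤ 64000000 * (W : ℝ) ^ 4 := by linarith
        _ ≤ (W : ℝ) ^ 2 * (W : ℝ) ^ 4 := by
            refine mul_le_mul_of_nonneg_right ?_ (by positivity)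
            have h5 : (4000000 : ℝ) ^ 2 ≤ (W : ℝ) ^ 2 := pow_le_pow_left₀ (by norm_num) hWbig 2
            linarith
        _ = ((W : ℝ) ^ 2) ^ 3 := by ring
    exact le_of_pow_le_pow_left₀ (by norm_num) (by positivity) h1
  have hxBW : (x : ℝ) / W * B ≤ (W : ℝ) / 400 := by
    rw [div_mul_eq_mul_div, div_le_iff₀ hW0]
    linarith
  refine ⟨B, H, a, x + (W - a), f0, hB1, hBH, by omega, ?_, ?_, ?_⟩
  · -- (I1)
    have e1 : x + (W - a) + 1 - x = W - a + 1 := by omega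
    rw [e1]
    have h1 : (2 * (B : ℝ) ^ 2 * ((x : ℝ) + W - a + 1) + d * a + f0) ≤
        4 * (H : ℝ) * B * ((W : ℝ) - a + 1) := by
      have h2 : (x : ℝ) + W - a + 1 ≤ 3 * x := by linarith
      have h3 : 2 * (B : ℝ) ^ 2 * ((x : ℝ) + W - a + 1) ≤ 2 * (B : ℝ) ^ 2 * (3 * x) :=
        mul_le_mul_of_nonneg_left h2 (by positivity)
      have h4 : (d : ℝ) * a ≤ (x : ℝ) * (B : ℝ) ^ 2 / 2 := by
        have : (d : ℝ) * (2 * a) ≤ (d : ℝ) * W := mul_le_mul_of_nonneg_left ha2 (Nat.cast_nonneg d)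
        linarith
      have h5 : (f0 : ℝ) ≤ (x : ℝ) * (B : ℝ) ^ 2 := by
        have h6 : (1 : ℝ) ≤ (B : ℝ) ^ 2 := one_le_pow₀ hB1'
        have h7 : (x : ℝ) * 1 ≤ (x : ℝ) * (B : ℝ) ^ 2 := mul_le_mul_of_nonneg_left h6 hx0.le
        linarith
      have h8 : 4 * ((x : ℝ) / W * B) * W ≤ (H : ℝ) * W := by
        refine mul_le_mul_of_nonneg_right ?_ hW0.le
        linarith
      have h9 : 4 * ((x : ℝ) / W * B) * W = 4 * x * B := by
        field_simp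
      rw [h9] at h8
      have h10 : (W : ℝ) ≤ 2 * ((W : ℝ) - a + 1) := by linarith
      have h11 : 4 * (H : ℝ) * B * (W / 2) ≤ 4 * (H : ℝ) * B * ((W : ℝ) - a + 1) :=
        mul_le_mul_of_nonneg_left (by linarith) (by positivity)
      have h12 : 4 * (x : ℝ) * B * (2 * B) ≤ (H : ℝ) * W * (2 * B) :=
        mul_le_mul_of_nonneg_right h8 (by positivity)
      have h13 : 0 ≤ (x : ℝ) * (B : ℝ) ^ 2 := by positivity
      have h14 : 4 * (x : ℝ) * B * (2 * B) = 8 * ((x : ℝ) * (B : ℝ) ^ 2) := by ring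
      have h15 : 2 * (B : ℝ) ^ 2 * (3 * x) = 6 * ((x : ℝ) * (B : ℝ) ^ 2) := by ring
      have h16 : (H : ℝ) * W * (2 * B) = 4 * (H : ℝ) * B * (W / 2) := by ring
      linarith
    have h2 : ((2 * B ^ 2 * (x + (W - a) + 1) + d * a + f0 : ℕ) : ℝ) ≤
        ((4 * H * B * (W - a + 1) : ℕ) : ℝ) := by
      push_cast [Nat.cast_sub haW]
      have e2 : (x : ℝ) + (W - a) + 1 = (x : ℝ) + W - a + 1 := by ring
      rw [e2]
      exact h1
    exact_mod_cast h2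
  · -- (I2)
    have h1 : (f0 : ℝ) + 12 * H + 1 ≤ a := by
      have h2 : 12 * (H : ℝ) ≤ 60 * ((x : ℝ) / W * B) := by linarith
      linarith
    exact_mod_cast h1
  · -- (II)
    rw [hSx]
    have e1 : (a : ℝ) + ((x : ℝ) + W - a) + 1 = x + W + 1 := by ring
    rw [e1]
    have hlog : 1 + Real.log ((x : ℝ) + W + 1) ≤ 3 * L := by
      have h1 : Real.log ((x : ℝ) + W + 1) ≤ Real.log (3 * x) :=
        Real.log_le_log (by positivity) (by linarith)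
      rw [Real.log_mul (by norm_num) hx0.ne'] at h1
      linarith
    have hlog0 : 0 ≤ 1 + Real.log ((x : ℝ) + W + 1) := by
      have : 0 ≤ Real.log ((x : ℝ) + W + 1) := Real.log_nonneg (by linarith)
      linarith
    have h1 : (B : ℝ) * ((x : ℝ) + W - a + 1) + 1 ≤ 4 * (B * x) := by
      have h2 : (B : ℝ) * ((x : ℝ) + W - a + 1) ≤ B * (3 * x) :=
        mul_le_mul_of_nonneg_left (by linarith) (by linarith)
      have h0 : (1 : ℝ) ≤ B * x := one_le_mul_of_one_le_of_one_le hB1' (by linarith)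
      linarith
    have h10 : 0 ≤ (B : ℝ) * ((x : ℝ) + W - a + 1) + 1 := by
      have : 0 ≤ (x : ℝ) + W - a + 1 := by linarith
      positivity
    have h2 : (H : ℝ) ^ 2 ≤ (5 * ((x : ℝ) / W) * B) ^ 2 := pow_le_pow_left₀ (by positivity) hH2 2
    have h3 : C1 * ((B : ℝ) * ((x : ℝ) + W - a + 1) + 1) * (H : ℝ) ^ 2 *
        (1 + Real.log ((x : ℝ) + W + 1)) ≤
        C1 * (4 * (B * x)) * (5 * ((x : ℝ) / W) * B) ^ 2 * (3 * L) := by
      gcongr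
    have h4 : C1 * (4 * (B * x)) * (5 * ((x : ℝ) / W) * B) ^ 2 * (3 * L) =
        300 * C1 * ((B : ℝ) ^ 3 * ((x : ℝ) ^ 3 * L / (W : ℝ) ^ 2)) := by
      field_simp
      ring
    have h5 : (B : ℝ) ^ 3 * ((x : ℝ) ^ 3 * L / (W : ℝ) ^ 2) ≤
        Q / K0 * ((x : ℝ) ^ 3 * L / (W : ℝ) ^ 2) :=
      mul_le_mul_of_nonneg_right hB3.le (by positivity)
    have h6 : Q / K0 * ((x : ℝ) ^ 3 * L / (W : ℝ) ^ 2) = (W : ℝ) ^ 2 / K0 := by
      rw [hQ]
      field_simp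
    have h7 : 300 * C1 * ((W : ℝ) ^ 2 / K0) < (W : ℝ) ^ 2 / 256 := by
      rw [hK0, ← mul_div_assoc, div_lt_div_iff₀ (by positivity) (by norm_num)]
      have h0 : (0 : ℝ) < (W : ℝ) ^ 2 := pow_pos hW0 2
      linarith
    have h8 : (W : ℝ) / 16 ≤ f0 := by linarith
    have h9 : (W : ℝ) ^ 2 / 256 ≤ (f0 : ℝ) ^ 2 := by
      have : ((W : ℝ) / 16) ^ 2 ≤ (f0 : ℝ) ^ 2 := pow_le_pow_left₀ (by positivity) h8 2
      calc (W : ℝ) ^ 2 / 256 = ((W : ℝ) / 16) ^ 2 := by ring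
        _ ≤ _ := this
    have h11 : 300 * C1 * ((B : ℝ) ^ 3 * ((x : ℝ) ^ 3 * L / (W : ℝ) ^ 2)) ≤
        300 * C1 * ((W : ℝ) ^ 2 / K0) := by
      refine mul_le_mul_of_nonneg_left ?_ (by positivity)
      linarith
    linarith

end Pool.Agent.DM
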