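import Mathlib

/-!
# DM: order of a determinant whose rows lie in the kernel of a linear map
-/

namespace Pool.Agent.DM

open Polynomial Finset

section gl

variable {K : Type*} [Field K] {N : Type*} [Fintype N] [DecidableEq N] {Q : Type*}
  [AddCommGroup Q] [Module K Q]

omit [Fintype N] [DecidableEq N] in
/-- a map whose image equals the image of the multiples of `X - x` is zero -/
theorem gl_image (x : K) (T : (N → K[X]) →ₗ[K] Q)
    (h1 : ∀ r, T r = 0 → T ((X - C x) • r) = 0) (k : ℕ) (h2 : ∀ r, T ((X - C x) ^ k • r) = 0)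
    (h : ∀ r, ∃ r', T r = T ((X - C x) • r')) (r : N → K[X]) : T r = 0 := by
  have key : ∀ k : ℕ, ∀ r, ∃ r', T r = T ((X - C x) ^ k • r') := by
    intro k
    induction k with
    | zero => intro r; exact ⟨r, by simp⟩
    | succ k ih =>
      intro r
      obtain ⟨r1, hr1⟩ := h r
      obtain ⟨r2, hr2⟩ := ih r1
      refine ⟨r2, ?_⟩
      have h3 : T (r1 - (X - C x) ^ k • r2) = 0 := by rw [map_sub, hr2, sub_self]
      have h4 := h1 _ h3
      rw [smul_sub, map_sub, sub_eq_zero, smul_smul, ← pow_succ'] at h4
      rw [hr1, h4]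
  obtain ⟨r', hr'⟩ := key k r
  rw [hr', h2]

/-- a functional vanishing on the multiples of `X - x` is a combination of the values at `x` -/
theorem gl_functional (x : K) (μ : (N → K[X]) →ₗ[K] K) (h : ∀ r, μ ((X - C x) • r) = 0)
    (r : N → K[X]) : μ r = ∑ i, μ (Pi.single i 1) * (r i).eval x := by
  have h1 : r = (X - C x) • (fun i => r i /ₘ (X - C x)) +
      ∑ i, (r i).eval x • (Pi.single i (1 : K[X]) : N → K[X]) := by
    funext i
    rw [Pi.add_apply, Pi.smul_apply, Finset.sum_apply]
    simp only [Pi.smul_apply, smul_eq_mul]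
    rw [Finset.sum_eq_single i]
    · rw [Pi.single_eq_same]
      have h2 := Polynomial.modByMonic_add_div (r i) (X - C x)
      rw [Polynomial.modByMonic_X_sub_C_eq_C_eval] at h2
      rw [smul_eq_C_mul, mul_one, add_comm]
      exact h2.symm
    · intro j _ hj
      rw [Pi.single_eq_of_ne (Ne.symm hj), smul_zero]
    · intro hi
      exact absurd (mem_univ _) hi
  conv_lhs => rw [h1]
  rw [map_add, h, zero_add, map_sum]
  refine Finset.sum_congr rfl fun i _ => ?_
  rw [map_smul, smul_eq_mul, mul_comm]

/-- **order lemma** -/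
theorem gl_aux (x : K) (c : ℕ) : ∀ (T : (N → K[X]) →ₗ[K] Q)
    (_ : ∀ r, T r = 0 → T ((X - C x) • r) = 0) (k : ℕ) (_ : ∀ r, T ((X - C x) ^ k • r) = 0)
    (_ : c ≤ Module.finrank K (LinearMap.range T))
    (M : Matrix N N K[X]) (_ : ∀ i, T (M i) = 0), (X - C x) ^ c ∣ M.det := by
  induction c with
  | zero => intro T _ k _ _ M _; rw [pow_zero]; exact one_dvd _
  | succ c ih =>
    intro T h1 k h2 hc M hM
    have hfin : FiniteDimensional K (LinearMap.range T) :=
      Module.finite_of_finrank_pos (by omega)
    -- a vector outside of the image of the multiples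
    obtain ⟨r0, hr0⟩ : ∃ r0, ∀ r', T r0 ≠ T ((X - C x) • r') := by
      by_contra hcon
      push Not at hcon
      have h0 := gl_image x T h1 k h2 hcon
      have : LinearMap.range T = ⊥ := by
        rw [LinearMap.range_eq_bot]
        exact LinearMap.ext h0
      rw [this, finrank_bot] at hc
      omega
    -- multiplication by `X - x`
    set mu : (N → K[X]) →ₗ[K] (N → K[X]) :=
      ((LinearMap.lsmul K[X] (N → K[X]) (X - C x)).restrictScalars K) with hmu
    have hmu' : ∀ r, mu r = (X - C x) • r := fun r => rfl
    have hnot : T r0 ∉ LinearMap.range (T ∘ₗ mu) := by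
      rintro ⟨r', hr'⟩
      exact hr0 r' hr'.symm
    obtain ⟨lam, hlam0, hlam1⟩ := Submodule.exists_dual_map_eq_bot_of_notMem hnot inferInstance
    have hlam : ∀ r, lam (T ((X - C x) • r)) = 0 := by
      intro r
      have h3 : lam (T ((X - C x) • r)) ∈ Submodule.map lam (LinearMap.range (T ∘ₗ mu)) :=
        Submodule.mem_map_of_mem ⟨r, rfl⟩
      rw [hlam1] at h3
      exact (Submodule.mem_bot K).1 h3
    set μ : (N → K[X]) →ₗ[K] K := lam ∘ₗ T with hμ
    have hμ1 := gl_functional x μ (fun r => hlam r)
    set lv : N → K := fun i => μ (Pi.single i 1) with hlv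
    obtain ⟨i0, hi0⟩ : ∃ i0, lv i0 ≠ 0 := by
      by_contra hcon
      push Not at hcon
      apply hlam0
      have := hμ1 r0
      rw [Finset.sum_eq_zero fun i _ => by
        have := hcon i
        rw [hlv] at this
        simp only at this
        rw [this, zero_mul]] at this
      exact this
    set av : N → K := fun j => lv j / lv i0 with hav
    have hav0 : av i0 = 1 := div_self hi0
    -- the substitution
    set E : (N → K[X]) →ₗ[K] (N → K[X]) := LinearMap.pi fun i =>
      if i = i0 then ((LinearMap.lsmul K[X] K[X] (X - C x + 1)).restrictScalars K ∘ₗ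
        LinearMap.proj i0) - ∑ j, ((LinearMap.lsmul K[X] K[X] (C (av j))).restrictScalars K ∘ₗ
        LinearMap.proj j) else LinearMap.proj i with hE
    have hE0 : ∀ r, E r i0 = (X - C x + 1) * r i0 - ∑ j, C (av j) * r j := by
      intro r
      simp [hE]
      ring
    have hE1 : ∀ r i, i ≠ i0 → E r i = r i := by
      intro r i hi
      simp [hE, hi]
    have hEs : ∀ (p : K[X]) r, E (p • r) = p • E r := by
      intro p r
      funext i
      by_cases hi : i = i0
      · subst hi
        rw [hE0, Pi.smul_apply, Pi.smul_apply, hE0, smul_eq_mul, smul_eq_mul, mul_sub,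
          Finset.mul_sum]
        congr 1
        · ring
        · refine Finset.sum_congr rfl fun j _ => ?_
          rw [Pi.smul_apply, smul_eq_mul]; ring
      · rw [hE1 _ _ hi, Pi.smul_apply, Pi.smul_apply, hE1 _ _ hi]
    -- sum of the values
    have hsplit : ∀ F : N → K[X], ∑ j, C (av j) * F j = F i0 + ∑ j ∈ univ.erase i0, C (av j) * F j := by
      intro F
      rw [← Finset.add_sum_erase univ _ (mem_univ i0), hav0, C_1, one_mul]
    have hE0' : ∀ r, E r i0 = (X - C x) * r i0 - ∑ j ∈ univ.erase i0, C (av j) * r j := by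
      intro r
      rw [hE0, hsplit]; ring
    have hker : ∀ r, μ (E r) = 0 := by
      intro r
      rw [hμ1]
      have h3 : ∀ i, μ (Pi.single i 1) = lv i0 * av i := by
        intro i
        rw [hav]
        simp only
        rw [mul_div_cancel₀ _ hi0]
      have h4 : ∑ i, μ (Pi.single i 1) * (E r i).eval x =
          lv i0 * (∑ i, C (av i) * E r i).eval x := by
        rw [Polynomial.eval_finsetSum, Finset.mul_sum]
        refine Finset.sum_congr rfl fun i _ => ?_
        rw [h3, eval_mul, eval_C, mul_assoc]
      rw [h4, hsplit, hE0']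
      have h5 : ∑ j ∈ univ.erase i0, C (av j) * E r j = ∑ j ∈ univ.erase i0, C (av j) * r j :=
        Finset.sum_congr rfl fun j hj => by rw [hE1 _ _ (Finset.ne_of_mem_erase hj)]
      rw [h5]
      simp
    -- every row in the kernel of `μ` comes from the substitution
    have hsurj : ∀ r, μ r = 0 → ∃ m : K[X], (X - C x) * m = ∑ j, C (av j) * r j ∧
        E (Function.update r i0 m) = r := by
      intro r hr
      have h3 : (∑ j, C (av j) * r j).eval x = 0 := by
        rw [Polynomial.eval_finsetSum]
        have h4 : lv i0 * ∑ j, (C (av j) * r j).eval x = 0 := by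
          rw [← hr, hμ1, Finset.mul_sum]
          refine Finset.sum_congr rfl fun j _ => ?_
          rw [eval_mul, eval_C, hav]
          simp only
          have : μ (Pi.single j 1) = lv j := rfl
          rw [this]
          field_simp
        exact (mul_eq_zero.1 h4).resolve_left hi0
      obtain ⟨m, hm⟩ := Polynomial.dvd_iff_isRoot.2 h3
      refine ⟨m, hm.symm, ?_⟩
      funext i
      by_cases hi : i = i0
      · subst hi
        rw [hE0', Function.update_self, ← hm, hsplit]
        have h5 : ∑ j ∈ univ.erase i, C (av j) * Function.update r i m j =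
            ∑ j ∈ univ.erase i, C (av j) * r j :=
          Finset.sum_congr rfl fun j hj => by
            rw [Function.update_of_ne (Finset.ne_of_mem_erase hj)]
        rw [h5]; ring
      · rw [hE1 _ _ hi, Function.update_of_ne hi]
    have hrow : ∀ i, μ (M i) = 0 := by
      intro i
      rw [hμ, LinearMap.comp_apply, hM i, map_zero]
    choose m hm1 hm2 using fun i => hsurj (M i) (hrow i)
    set M' : Matrix N N K[X] := M.updateCol i0 m with hM'
    have hM'row : ∀ i, M' i = Function.update (M i) i0 (m i) := by
      intro i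
      funext j
      rw [hM', Matrix.updateCol_apply]
      by_cases hj : j = i0
      · subst hj; rw [if_pos rfl, Function.update_self]
      · rw [if_neg hj, Function.update_of_ne hj]
    have hdet : M.det = (X - C x) * M'.det := by
      have e1 := Matrix.det_updateCol_sum M i0 (fun j => C (av j))
      rw [hav0, C_1, one_smul] at e1
      rw [← e1, hM', ← Matrix.det_updateCol_smul]
      congr 2
      funext i
      simp only [Pi.smul_apply, smul_eq_mul]
      rw [hm1]
    rw [hdet, pow_succ']
    apply mul_dvd_mul_left
    refine ih (T ∘ₗ E) ?_ k ?_ ?_ M' ?_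
    · intro r hr
      rw [LinearMap.comp_apply] at hr ⊢
      rw [hEs]
      exact h1 _ hr
    · intro r
      rw [LinearMap.comp_apply, hEs]
      exact h2 _
    · -- dimension
      have hle : LinearMap.range T ≤ LinearMap.range (T ∘ₗ E) ⊔ Submodule.span K {T r0} := by
        rintro _ ⟨r, rfl⟩
        have h3 : μ (r - (μ r / μ r0) • r0) = 0 := by
          have h0 : μ r0 ≠ 0 := hlam0
          rw [map_sub, map_smul, smul_eq_mul, div_mul_cancel₀ _ h0, sub_self]
        obtain ⟨m1, _, hm1⟩ := hsurj _ h3
        rw [Submodule.mem_sup]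
        refine ⟨T (r - (μ r / μ r0) • r0), ⟨_, congrArg T hm1⟩, (μ r / μ r0) • T r0,
          Submodule.smul_mem _ _ (Submodule.mem_span_singleton_self _), ?_⟩
        rw [map_sub, map_smul, sub_add_cancel]
      have hle2 : LinearMap.range (T ∘ₗ E) ≤ LinearMap.range T := LinearMap.range_comp_le_range _ _
      have hf2 : FiniteDimensional K (LinearMap.range (T ∘ₗ E)) :=
        Submodule.finiteDimensional_of_le hle2
      have h4 := Submodule.finrank_mono hle
      have h5 := Submodule.finrank_add_le_finrank_add_finrank (LinearMap.range (T ∘ₗ E))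
        (Submodule.span K {T r0})
      have h6 : Module.finrank K (Submodule.span K {T r0}) ≤ 1 := by
        refine (finrank_span_le_card {T r0}).trans ?_
        simp
      omega
    · intro i
      rw [LinearMap.comp_apply, hM'row, hm2]
      exact hM i

/-- **order lemma** -/
theorem gl (x : K) (T : (N → K[X]) →ₗ[K] Q)
    (h1 : ∀ r, T r = 0 → T ((X - C x) • r) = 0) (k : ℕ) (h2 : ∀ r, T ((X - C x) ^ k • r) = 0)
    (M : Matrix N N K[X]) (hM : ∀ i, T (M i) = 0) :
    (X - C x) ^ (Module.finrank K (LinearMap.range T)) ∣ M.det :=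
  gl_aux x _ T h1 k h2 le_rfl M hM

end gl

end Pool.Agent.DM
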