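import Pool.Agent.DM.CND

/-!
# DM, zero estimate: dimension count and minimal family
-/

namespace Pool.Agent.DM

open Finset Polynomial Pool.Agent.ZC Pool.Agent.SI

theorem cnt_inf {K V Q ι : Type*} [Field K] [AddCommGroup V] [Module K V] [FiniteDimensional K V]
    [AddCommGroup Q] [Module K Q] (s : Finset ι) (T : ι → V →ₗ[K] Q) :
    Module.finrank K V ≤ Module.finrank K ((⨅ x ∈ s, LinearMap.ker (T x) : Submodule K V)) +
      ∑ x ∈ s, Module.finrank K (LinearMap.range (T x)) := by
  classical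
  induction s using Finset.induction_on with
  | empty =>
    have h0 : (⨅ x ∈ (∅ : Finset ι), LinearMap.ker (T x) : Submodule K V) = ⊤ := by simp
    rw [h0, finrank_top, Finset.sum_empty, add_zero]
  | insert x s hx ih =>
    rw [Finset.sum_insert hx, Finset.iInf_insert]
    set W : Submodule K V := ⨅ y ∈ s, LinearMap.ker (T y) with hW
    set g : W →ₗ[K] Q := T x ∘ₗ W.subtype with hg
    have h1 := LinearMap.finrank_range_add_finrank_ker g
    have h2 : Module.finrank K (LinearMap.range g) ≤ Module.finrank K (LinearMap.range (T x)) :=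
      Submodule.finrank_mono (LinearMap.range_comp_le_range _ _)
    have h3 : Module.finrank K (LinearMap.ker g) ≤
        Module.finrank K ((LinearMap.ker (T x) ⊓ W : Submodule K V)) := by
      refine LinearMap.finrank_le_finrank_of_injective
        (f := LinearMap.codRestrict _ (W.subtype ∘ₗ (LinearMap.ker g).subtype) (fun v => ?_)) ?_
      · rw [Submodule.mem_inf]
        refine ⟨?_, (v : W).2⟩
        have := v.2
        rw [LinearMap.mem_ker] at this ⊢
        exact this
      · intro v v' h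
        have h4 := congrArg (fun y : (LinearMap.ker (T x) ⊓ W : Submodule K V) => (y : V)) h
        exact Subtype.ext (Subtype.ext h4)
    omega

variable {K : Type*} [Field K]

/-- sum of the numbers of conditions over the positive positions -/
noncomputable def ks (B S a p : ℕ) {J : Type*} (θ : J → ℕ → PowerSeries K) {m : ℕ}
    (w : Fin m → ℕ → ℕ → K) : ℕ :=
  ∑ w0 ∈ posP B p, kap B S a θ (fun β => odp β w0) (isPole p w0) w

theorem ks_mono (B S a p : ℕ) {J : Type*} [Fintype J] (θ : J → ℕ → PowerSeries K) {m : ℕ}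
    (w : Fin (m + 1) → ℕ → ℕ → K) :
    ks B S a p θ (fun i : Fin m => w i.castSucc) ≤ ks B S a p θ w :=
  Finset.sum_le_sum fun _ _ => kap_mono _ _ _ _ _ _ w

theorem Fam.castSucc {B S s0 m : ℕ} {ε : Fin (m + 1) → ℕ}
    {w : Fin (m + 1) → ℕ → ℕ → K} (h : Fam B S s0 ε w) :
    Fam B S s0 (fun i : Fin m => ε i.castSucc) (fun i : Fin m => w i.castSucc) :=
  ⟨h.1.comp _ (Fin.castSucc_injective m), fun i β k => h.2 i.castSucc β k⟩

/-- a minimal family -/
theorem min_fam (B S s0 a p n N : ℕ) (hN : 0 < N + n) {J : Type*} [Fintype J]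
    (θ : J → ℕ → PowerSeries K)
    (hfull : ∃ (m : ℕ) (ε : Fin m → ℕ) (w : Fin m → ℕ → ℕ → K), Fam B S s0 ε w ∧
      N + ks B S a p θ w ≤ n * m) :
    ∃ (m : ℕ) (ε : Fin m → ℕ) (w : Fin m → ℕ → ℕ → K), Fam B S s0 ε w ∧
      N + ks B S a p θ w ≤ n * m ∧
      ∀ (ζ : ℕ) (ε' : Fin ζ → ℕ) (w' : Fin ζ → ℕ → ℕ → K), ζ ≤ m → Fam B S s0 ε' w' →
        n * ζ < N + n + ks B S a p θ w' := by
  classical
  set good : ℕ → Prop := fun m => ∃ (ε : Fin m → ℕ) (w : Fin m → ℕ → ℕ → K),
    Fam B S s0 ε w ∧ N + ks B S a p θ w ≤ n * m with hgood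
  have hex : ∃ m, good m := hfull
  have hmin : ∀ m < Nat.find hex, ¬ good m := fun m hm => Nat.find_min hex hm
  obtain ⟨ε, w, hw, hw2⟩ := Nat.find_spec hex
  refine ⟨Nat.find hex, ε, w, hw, hw2, ?_⟩
  intro ζ ε' w' hζ hw'
  rcases lt_or_eq_of_le hζ with hlt | heq
  · have h1 := hmin ζ hlt
    by_contra hcon
    apply h1
    exact ⟨ε', w', hw', by omega⟩
  · rcases ζ with _ | ζ
    · rw [Nat.mul_zero]; omega
    · have h1 := hmin ζ (by omega)
      have h2 : n * ζ < N + ks B S a p θ (fun i : Fin ζ => w' i.castSucc) := by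
        by_contra hcon
        apply h1
        exact ⟨_, _, hw'.castSucc, by omega⟩
      have h3 := ks_mono B S a p θ w'
      have h4 : n * (ζ + 1) = n * ζ + n := by ring
      omega

end Pool.Agent.DM
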