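import Pool.Agent.ZC.NSQ
import Pool.Agent.SI.ZEL

/-!
# DM: non-summability of the combinations of the Hasse derivatives of the functionals
-/

namespace Pool.Agent.DM

open Finset Polynomial Pool.Agent.ZC Pool.Agent.SI

/-- common denominator of the shift functions of `hs k (Gs (2β+1))`, `β < B`, `k ≤ S` -/
noncomputable def dend (K : Type*) [Field K] (B p S : ℕ) : K[X] :=
  ∏ x : Pol B, (X - C (yp K B p x)) ^ (S + 1)

/-- numerator of the shift function of `hs k (Gs (2β+1))` -/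
noncomputable def numd (K : Type*) [Field K] (B p S β k : ℕ) : K[X] :=
  C ((-1) ^ (k + 1)) * ∑ x : Pol B, if (x.1.1 : ℕ) = β then
    (X - C (yp K B p x)) ^ (S - k) *
      ∏ x' ∈ univ.erase x, (X - C (yp K B p x')) ^ (S + 1) else 0

variable {K : Type*} [Field K]

theorem dend_ne_zero (B p S : ℕ) : dend K B p S ≠ 0 :=
  Finset.prod_ne_zero_iff.2 fun _ _ => pow_ne_zero _ (Polynomial.X_sub_C_ne_zero _)

theorem natDegree_dend (B p S : ℕ) : (dend K B p S).natDegree = 2 * B ^ 2 * (S + 1) := by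
  rw [dend, Polynomial.natDegree_prod_of_monic _ _ fun _ _ => (Polynomial.monic_X_sub_C _).pow _]
  simp only [Polynomial.natDegree_pow, Polynomial.natDegree_X_sub_C, Finset.sum_const, Finset.card_univ,
    smul_eq_mul, mul_one]
  rw [card_Pol]

theorem natDegree_numd_le (B p S β k : ℕ) (hk : k ≤ S) :
    (numd K B p S β k).natDegree ≤ (dend K B p S).natDegree := by
  rw [natDegree_dend, numd]
  refine (Polynomial.natDegree_C_mul_le _ _).trans ?_
  refine Polynomial.natDegree_sum_le_of_forall_le _ _ fun x _ => ?_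
  split_ifs
  · refine (Polynomial.natDegree_mul_le).trans ?_
    have h1 : ((X - C (yp K B p x)) ^ (S - k)).natDegree ≤ S + 1 := by
      rw [Polynomial.natDegree_pow, Polynomial.natDegree_X_sub_C]
      omega
    have h2 : (∏ x' ∈ univ.erase x, (X - C (yp K B p x')) ^ (S + 1)).natDegree ≤
        (2 * B ^ 2 - 1) * (S + 1) := by
      refine (Polynomial.natDegree_prod_le _ _).trans ?_
      simp only [Polynomial.natDegree_pow, Polynomial.natDegree_X_sub_C, Finset.sum_const, smul_eq_mul,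
        mul_one]
      rw [Finset.card_erase_of_mem (Finset.mem_univ x), Finset.card_univ, card_Pol]
    have h3 : 0 < 2 * B ^ 2 := by
      rw [← card_Pol, Fintype.card_pos_iff]
      exact ⟨x⟩
    calc _ ≤ (S + 1) + (2 * B ^ 2 - 1) * (S + 1) := Nat.add_le_add h1 h2
      _ = (1 + (2 * B ^ 2 - 1)) * (S + 1) := by ring
      _ = 2 * B ^ 2 * (S + 1) := by congr 1; omega
  · simp

/-- the shift function as a sum of polar parts -/
theorem numd_div_dend (B p S β k : ℕ) (hk : k ≤ S) :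
    emb K (numd K B p S β k) / emb K (dend K B p S) =
    ∑ x : Pol B, emb K (C (if (x.1.1 : ℕ) = β then (-1) ^ (k + 1) else 0)) *
      pin (yp K B p x) ^ (k + 1) := by
  have hden : emb K (dend K B p S) ≠ 0 := emb_ne_zero (dend_ne_zero B p S)
  rw [div_eq_iff hden, numd, map_mul, map_sum, Finset.mul_sum, Finset.sum_mul]
  refine Finset.sum_congr rfl fun x _ => ?_
  by_cases hx : (x.1.1 : ℕ) = β
  · rw [if_pos hx, if_pos hx]
    have h1 : emb K (dend K B p S) = emb K (X - C (yp K B p x)) ^ (S + 1) *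
        emb K (∏ x' ∈ univ.erase x, (X - C (yp K B p x')) ^ (S + 1)) := by
      rw [← map_pow, ← map_mul, dend, ← Finset.mul_prod_erase univ _ (Finset.mem_univ x)]
    have h2 := pin_mul_self (yp K B p x)
    have h3 : emb K (X - C (yp K B p x)) ^ (S + 1) * pin (yp K B p x) ^ (k + 1) =
        emb K (X - C (yp K B p x)) ^ (S - k) := by
      have : S + 1 = (S - k) + (k + 1) := by omega
      rw [this, pow_add, mul_assoc, ← mul_pow, h2, one_pow, mul_one]
    have h4 : emb K ((X - C (yp K B p x)) ^ (S - k) *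
        ∏ x' ∈ univ.erase x, (X - C (yp K B p x')) ^ (S + 1)) = emb K (X - C (yp K B p x)) ^ (S - k) *
        emb K (∏ x' ∈ univ.erase x, (X - C (yp K B p x')) ^ (S + 1)) := by
      rw [map_mul, map_pow]
    rw [h1, h4]
    linear_combination (-(emb K (C ((-1 : K) ^ (k + 1))) *
      emb K (∏ x' ∈ univ.erase x, (X - C (yp K B p x')) ^ (S + 1)))) * h3
  · rw [if_neg hx, if_neg hx]
    simp

theorem hs_sum' (k : ℕ) {ι : Type*} (s : Finset ι) (f : ι → PowerSeries K) :
    hs K k (∑ i ∈ s, f i) = ∑ i ∈ s, hs K k (f i) := by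
  classical
  ext r
  simp only [coeff_hs, map_sum, Finset.mul_sum]

theorem hs_Gs_shift [CharZero K] (B p β l S k : ℕ) (hβ : β < B) (hk : k ≤ S)
    (hl : l + 1 ≤ 2 * p - 1) (I : Finset ℕ) (z : ℕ → K) :
    loc K (l + 1) (dend K B p S) * (hs K k (Gs K p (2 * β + 1) l I z) -
      hs K k (Gs K p (2 * β + 1) (l + 1) I z)) = loc K (l + 1) (numd K B p S β k) := by
  classical
  set b : ℕ := 2 * β + 1 with hb
  have hbne : (b : K) ≠ 0 := Nat.cast_ne_zero.2 (by omega)
  set A : ℕ → PowerSeries K := fun k => (PowerSeries.C ((k : K) / b) - PowerSeries.X)⁻¹ with hA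
  set D : ℕ → PowerSeries K := fun k => (PowerSeries.C ((k : K) / b) + PowerSeries.X)⁻¹ with hD
  obtain ⟨L, hL⟩ : ∃ L : ℕ, 2 * p - 1 = l + 1 + L := ⟨2 * p - 1 - (l + 1), by omega⟩
  have h1 : Gs K p b l I z - Gs K p b (l + 1) I z =
      ∑ j ∈ range b, A (b * l + j + 1) - ∑ j ∈ range b, D (b * L + j + 1) := by
    unfold Gs gs
    have e1 : 2 * p - 1 - l = L + 1 := by omega
    have e2 : 2 * p - 1 - (l + 1) = L := by omega
    have hs : ∀ (F : ℕ → PowerSeries K) (m : ℕ), ∑ k ∈ range (m + b), F (k + 1) =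
        ∑ k ∈ range m, F (k + 1) + ∑ j ∈ range b, F (m + j + 1) :=
      fun F m => Finset.sum_range_add (fun k => F (k + 1)) m b
    rw [e1, e2, sum_Icc_eq_range, sum_Icc_eq_range, sum_Icc_eq_range, sum_Icc_eq_range]
    rw [show b * (L + 1) = b * L + b from Nat.mul_succ b L, show b * (l + 1) = b * l + b from Nat.mul_succ b l,
      hs (fun k => (PowerSeries.C ((k : K) / b) + PowerSeries.X)⁻¹) (b * L),
      hs (fun k => (PowerSeries.C ((k : K) / b) - PowerSeries.X)⁻¹) (b * l)]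
    simp only [hA, hD]
    abel
  have hAne : ∀ j, ((b * l + j + 1 : ℕ) : K) / b ≠ 0 := fun j =>
    div_ne_zero (Nat.cast_ne_zero.2 (by omega)) hbne
  have hDne : ∀ j, ((b * L + j + 1 : ℕ) : K) / b ≠ 0 := fun j =>
    div_ne_zero (Nat.cast_ne_zero.2 (by omega)) hbne
  have h1' : hs K k (Gs K p b l I z) - hs K k (Gs K p b (l + 1) I z) =
      ∑ j ∈ range b, A (b * l + j + 1) ^ (k + 1) -
      ∑ j ∈ range b, PowerSeries.C ((-1) ^ k) * D (b * L + j + 1) ^ (k + 1) := by
    rw [← hs_sub, h1, hs_sub, hs_sum', hs_sum']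
    congr 1
    · exact Finset.sum_congr rfl fun j _ => hs_inv_sub k _ (hAne j)
    · exact Finset.sum_congr rfl fun j _ => hs_inv_add_gen k _ (hDne j)
  have h2 : loc K (l + 1) (numd K B p S β k) = PowerSeries.C ((-1) ^ (k + 1)) *
      (∑ j ∈ range b, (loc K (l + 1) (X - C (yp K B p
          (⟨⟨⟨β, hβ⟩, ⟨j % b, Nat.mod_lt _ (by omega)⟩⟩, true⟩ : Pol B))) ^ (S - k) *
        ∏ x' ∈ univ.erase ((⟨⟨⟨β, hβ⟩, ⟨j % b, Nat.mod_lt _ (by omega)⟩⟩, true⟩ : Pol B)),
        loc K (l + 1) (X - C (yp K B p x')) ^ (S + 1)) +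
      ∑ j ∈ range b, (loc K (l + 1) (X - C (yp K B p
          (⟨⟨⟨β, hβ⟩, ⟨j % b, Nat.mod_lt _ (by omega)⟩⟩, false⟩ : Pol B))) ^ (S - k) *
        ∏ x' ∈ univ.erase ((⟨⟨⟨β, hβ⟩, ⟨j % b, Nat.mod_lt _ (by omega)⟩⟩, false⟩ : Pol B)),
        loc K (l + 1) (X - C (yp K B p x')) ^ (S + 1))) := by
    rw [numd, map_mul, map_sum]
    have hc : loc K (l + 1) (C ((-1 : K) ^ (k + 1))) = PowerSeries.C ((-1) ^ (k + 1)) := by
      rw [loc_apply, Polynomial.C_comp, Polynomial.coe_C]
    rw [hc]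
    congr 1
    rw [← Finset.sum_add_distrib]
    rw [Fintype.sum_prod_type, Fintype.sum_sigma]
    rw [Finset.sum_eq_single (⟨β, hβ⟩ : Fin B)]
    · rw [Finset.sum_range]
      refine Finset.sum_congr rfl fun j _ => ?_
      rw [Fintype.sum_bool]
      have hj : (⟨(j : ℕ) % b, Nat.mod_lt _ (by omega)⟩ : Fin (2 * β + 1)) = j := by
        ext
        exact Nat.mod_eq_of_lt j.2
      simp only [if_true, map_prod, map_mul, map_pow, hj]
    · intro β' _ hne
      refine Finset.sum_eq_zero fun j _ => Finset.sum_eq_zero fun s _ => ?_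
      rw [if_neg, map_zero]
      intro h0
      apply hne
      ext
      exact h0
    · intro h0
      exact absurd (Finset.mem_univ _) h0
  have h3 : ∀ x : Pol B, loc K (l + 1) (dend K B p S) = loc K (l + 1) (X - C (yp K B p x)) ^ (S + 1) *
      ∏ x' ∈ univ.erase x, loc K (l + 1) (X - C (yp K B p x')) ^ (S + 1) := by
    intro x
    rw [dend, map_prod]
    simp only [map_pow]
    exact (Finset.mul_prod_erase univ (fun x' => loc K (l + 1) (X - C (yp K B p x')) ^ (S + 1))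
      (Finset.mem_univ x)).symm
  have hpw : ∀ x y : PowerSeries K, x * y = 1 → x ^ (S + 1) * y ^ (k + 1) = x ^ (S - k) := by
    intro x y hxy
    have : S + 1 = (S - k) + (k + 1) := by omega
    rw [this, pow_add, mul_assoc, ← mul_pow, hxy, one_pow, mul_one]
  have hC1 : (PowerSeries.C ((-1 : K) ^ (k + 1)) : PowerSeries K) = (-1) ^ (k + 1) := by
    rw [map_pow, map_neg, map_one]
  have hC2 : (PowerSeries.C ((-1 : K) ^ k) : PowerSeries K) = (-1) ^ k := by
    rw [map_pow, map_neg, map_one]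
  rw [h1', h2, hC1, hC2, mul_sub, Finset.mul_sum, Finset.mul_sum, mul_add, Finset.mul_sum, Finset.mul_sum,
    sub_eq_add_neg, ← Finset.sum_neg_distrib]
  congr 1
  · refine Finset.sum_congr rfl fun j hj => ?_
    rw [Finset.mem_range] at hj
    rw [h3 ⟨⟨⟨β, hβ⟩, ⟨j % b, Nat.mod_lt _ (by omega)⟩⟩, true⟩]
    have e1 : ((l + 1 : ℕ) : K) + yp K B p ⟨⟨⟨β, hβ⟩, ⟨j % b, Nat.mod_lt _ (by omega)⟩⟩, true⟩ =
        ((b * l + j + 1 : ℕ) : K) / b := by
      unfold yp
      simp only [if_true, Nat.mod_eq_of_lt hj]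
      have : (2 * (β : K) + 1) = b := by rw [hb]; push_cast; ring
      rw [this]
      push_cast
      field_simp
      ring
    have e2 : (PowerSeries.C (((b * l + j + 1 : ℕ) : K) / b) - PowerSeries.X) * A (b * l + j + 1) = 1 := by
      rw [hA]
      refine PowerSeries.mul_inv_cancel _ ?_
      simp only [map_sub, PowerSeries.constantCoeff_C, PowerSeries.constantCoeff_X, sub_zero]
      exact hAne j
    have e3 : loc K (l + 1) (X - C (yp K B p ⟨⟨⟨β, hβ⟩, ⟨j % b, Nat.mod_lt _ (by omega)⟩⟩, true⟩)) *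
        (-A (b * l + j + 1)) = 1 := by
      rw [loc_X_sub_C, e1]
      linear_combination e2
    have e4 := hpw _ _ e3
    have e5 : (-A (b * l + j + 1)) ^ (k + 1) = (-1) ^ (k + 1) * A (b * l + j + 1) ^ (k + 1) := neg_pow _ _
    rw [e5] at e4
    have e6 : ((-1 : PowerSeries K)) ^ (k + 1) * (-1) ^ (k + 1) = 1 := by
      rw [← mul_pow]; simp
    set U := loc K (l + 1) (X - C (yp K B p ⟨⟨⟨β, hβ⟩, ⟨j % b, Nat.mod_lt _ (by omega)⟩⟩, true⟩)) with hU
    set Pr := ∏ x' ∈ univ.erase ((⟨⟨⟨β, hβ⟩, ⟨j % b, Nat.mod_lt _ (by omega)⟩⟩, true⟩ : Pol B)),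
        loc K (l + 1) (X - C (yp K B p x')) ^ (S + 1) with hPr
    linear_combination ((-1 : PowerSeries K) ^ (k + 1) * Pr) * e4 -
      (U ^ (S + 1) * Pr * A (b * l + j + 1) ^ (k + 1)) * e6
  · refine Finset.sum_congr rfl fun j hj => ?_
    rw [Finset.mem_range] at hj
    rw [h3 ⟨⟨⟨β, hβ⟩, ⟨j % b, Nat.mod_lt _ (by omega)⟩⟩, false⟩]
    have e1 : ((l + 1 : ℕ) : K) + yp K B p ⟨⟨⟨β, hβ⟩, ⟨j % b, Nat.mod_lt _ (by omega)⟩⟩, false⟩ =
        -(((b * L + j + 1 : ℕ) : K) / b) := by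
      unfold yp
      simp only [Bool.false_eq_true, if_false, Nat.mod_eq_of_lt hj]
      have : (2 * (β : K) + 1) = b := by rw [hb]; push_cast; ring
      rw [this]
      have hp : (2 * (p : K) - 1) = (l : K) + 1 + L := by
        have h5 : ((2 * p : ℕ) : K) = ((l + 1 + L + 1 : ℕ) : K) := by
          congr 1; omega
        push_cast at h5
        linear_combination h5
      rw [hp]
      push_cast
      field_simp
      ring
    have e2 : (PowerSeries.C (((b * L + j + 1 : ℕ) : K) / b) + PowerSeries.X) * D (b * L + j + 1) = 1 := by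
      rw [hD]
      refine PowerSeries.mul_inv_cancel _ ?_
      simp only [map_add, PowerSeries.constantCoeff_C, PowerSeries.constantCoeff_X, add_zero]
      exact hDne j
    have e3 : loc K (l + 1) (X - C (yp K B p ⟨⟨⟨β, hβ⟩, ⟨j % b, Nat.mod_lt _ (by omega)⟩⟩, false⟩)) *
        D (b * L + j + 1) = 1 := by
      rw [loc_X_sub_C, e1, map_neg]
      linear_combination e2
    have e4 := hpw _ _ e3
    set U := loc K (l + 1) (X - C (yp K B p ⟨⟨⟨β, hβ⟩, ⟨j % b, Nat.mod_lt _ (by omega)⟩⟩, false⟩)) with hU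
    set Pr := ∏ x' ∈ univ.erase ((⟨⟨⟨β, hβ⟩, ⟨j % b, Nat.mod_lt _ (by omega)⟩⟩, false⟩ : Pol B)),
        loc K (l + 1) (X - C (yp K B p x')) ^ (S + 1) with hPr
    have e7 : (-1 : PowerSeries K) ^ (k + 1) = -(-1) ^ k := by rw [pow_succ]; ring
    rw [e7]
    linear_combination (-((-1 : PowerSeries K) ^ k) * Pr) * e4

/-- **non-summability** -/
theorem nonsum_dm [CharZero K] (B p S : ℕ) (γ : Fin B → Fin (S + 1) → K)
    (α : FractionRing K[X])
    (h : emb K (∑ β, ∑ k, C (γ β k) * numd K B p S (β : ℕ) (k : ℕ)) / emb K (dend K B p S) =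
      α - shf K α) : ∀ β k, γ β k = 0 := by
  classical
  by_contra hcon
  push Not at hcon
  obtain ⟨β1, k1, hc1⟩ := hcon
  -- the largest one
  obtain ⟨β0, hβ0, hmax⟩ := Finset.exists_max_image ((univ : Finset (Fin B)).filter fun β => ∃ k, γ β k ≠ 0)
    (fun β => (β : ℕ)) ⟨β1, by rw [Finset.mem_filter]; exact ⟨Finset.mem_univ _, k1, hc1⟩⟩
  rw [Finset.mem_filter] at hβ0
  obtain ⟨-, k0, hk0⟩ := hβ0
  set b0 : K := 2 * (β0 : K) + 1 with hb0
  have hbpos : ∀ β : ℕ, (2 * (β : K) + 1) ≠ 0 := by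
    intro β
    have : ((2 * β + 1 : ℕ) : K) ≠ 0 := Nat.cast_ne_zero.2 (by omega)
    push_cast at this
    exact this
  set c : Pol B → ℕ → K := fun x k => if hk : k < S + 1 then (-1) ^ (k + 1) * γ x.1.1 ⟨k, hk⟩ else 0 with hcdef
  have hsum : ∑ x : Pol B, ppl (S + 1) (c x) (pin (yp K B p x)) = α - shf K α := by
    rw [← h, map_sum, Finset.sum_div]
    have h1 : ∀ β : Fin B, emb K (∑ k, C (γ β k) * numd K B p S (β : ℕ) (k : ℕ)) / emb K (dend K B p S) =
        ∑ x : Pol B, ∑ k : Fin (S + 1),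
          emb K (C (if x.1.1 = β then (-1) ^ ((k : ℕ) + 1) * γ β k else 0)) *
          pin (yp K B p x) ^ ((k : ℕ) + 1) := by
      intro β
      rw [map_sum, Finset.sum_div, Finset.sum_comm]
      refine Finset.sum_congr rfl fun k _ => ?_
      rw [map_mul, mul_div_assoc, numd_div_dend _ _ _ _ _ (Nat.lt_succ_iff.1 k.2), Finset.mul_sum]
      refine Finset.sum_congr rfl fun x _ => ?_
      rw [← mul_assoc, ← map_mul, ← Polynomial.C_mul]
      congr 3
      by_cases hx : x.1.1 = β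
      · rw [if_pos hx, if_pos (congrArg Fin.val hx)]; ring
      · rw [if_neg hx, if_neg (fun h0 => hx (Fin.ext h0)), mul_zero]
    rw [Finset.sum_congr rfl fun β _ => h1 β, Finset.sum_comm]
    refine Finset.sum_congr rfl fun x _ => ?_
    rw [Finset.sum_comm]
    unfold ppl
    rw [Finset.sum_range]
    refine Finset.sum_congr rfl fun k _ => ?_
    rw [← Finset.sum_mul, ← map_sum, ← map_sum]
    congr 3
    rw [Finset.sum_ite_eq univ x.1.1 (fun β => (-1) ^ ((k : ℕ) + 1) * γ β k), if_pos (Finset.mem_univ _)]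
    simp only [hcdef]
    rw [dif_pos k.2]
  have h2 := nonsum_multi (S + 1) c (yp K B p) (1 / b0) α hsum k0 k0.2
  -- terms in the class
  have h3 : ∀ x : Pol B, (if ∃ m : ℤ, yp K B p x = 1 / b0 + m then c x k0 else 0) =
      (if (∃ m : ℤ, yp K B p x = 1 / b0 + m) ∧ x.1.1 = β0 then (-1) ^ ((k0 : ℕ) + 1) * γ β0 k0 else 0) := by
    intro x
    by_cases hx : ∃ m : ℤ, yp K B p x = 1 / b0 + m
    · by_cases hxβ : x.1.1 = β0
      · rw [if_pos hx, if_pos ⟨hx, hxβ⟩]
        simp only [hcdef]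
        rw [dif_pos k0.2, hxβ]
      · rw [if_pos hx, if_neg (fun h => hxβ h.2)]
        by_contra hcx
        have hcx' : γ x.1.1 k0 ≠ 0 := by
          intro h0
          apply hcx
          simp only [hcdef]
          rw [dif_pos k0.2, h0, mul_zero]
        have hlt : (x.1.1 : ℕ) < β0 := by
          have h4 := hmax x.1.1 (by rw [Finset.mem_filter]; exact ⟨Finset.mem_univ _, k0, hcx'⟩)
          have h5 : (x.1.1 : ℕ) ≠ β0 := fun h0 => hxβ (Fin.ext h0)
          omega
        -- divisibility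
        obtain ⟨m, hm⟩ := hx
        set b : K := 2 * ((x.1.1 : ℕ) : K) + 1 with hb
        have hbne : b ≠ 0 := hbpos _
        have hb0ne : b0 ≠ 0 := hbpos _
        have key : ∃ w : ℤ, b = b0 * w := by
          unfold yp at hm
          split_ifs at hm with hx2
          · refine ⟨((x.1.2 : ℕ) : ℤ) + 1 - (2 * ((x.1.1 : ℕ) : ℤ) + 1) - m * (2 * ((x.1.1 : ℕ) : ℤ) + 1), ?_⟩
            push_cast
            rw [← hb] at hm ⊢
            field_simp at hm
            linear_combination -hm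
          · refine ⟨-(2 * (p : ℤ) - 1) * (2 * ((x.1.1 : ℕ) : ℤ) + 1) - (((x.1.2 : ℕ) : ℤ) + 1) -
              m * (2 * ((x.1.1 : ℕ) : ℤ) + 1), ?_⟩
            push_cast
            rw [← hb] at hm ⊢
            field_simp at hm
            linear_combination -hm
        obtain ⟨w, hw⟩ := key
        have hwZ : (2 * ((x.1.1 : ℕ) : ℤ) + 1) = (2 * ((β0 : ℕ) : ℤ) + 1) * w := by
          have : (((2 * ((x.1.1 : ℕ) : ℤ) + 1) : ℤ) : K) = (((2 * ((β0 : ℕ) : ℤ) + 1) * w : ℤ) : K) := by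
            push_cast
            rw [← hb, ← hb0]
            exact hw
          exact_mod_cast this
        have hdvd : (2 * ((β0 : ℕ) : ℤ) + 1) ∣ (2 * ((x.1.1 : ℕ) : ℤ) + 1) := ⟨w, hwZ⟩
        have := Int.le_of_dvd (by positivity) hdvd
        omega
    · rw [if_neg hx, if_neg (fun h => hx h.1)]
  simp only [h3] at h2
  rw [← Finset.sum_filter, Finset.sum_const, nsmul_eq_mul] at h2
  have h4 : (⟨⟨β0, ⟨0, by simp⟩⟩, true⟩ : Pol B) ∈ univ.filter (fun x : Pol B =>
      (∃ m : ℤ, yp K B p x = 1 / b0 + m) ∧ x.1.1 = β0) := by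
    rw [Finset.mem_filter]
    refine ⟨Finset.mem_univ _, ⟨-1, ?_⟩, rfl⟩
    unfold yp
    simp only [if_true]
    push_cast
    ring
  rcases mul_eq_zero.1 h2 with h5 | h5
  · rw [Nat.cast_eq_zero, Finset.card_eq_zero] at h5
    rw [h5] at h4
    exact absurd h4 (Finset.notMem_empty _)
  · exact hk0 ((mul_eq_zero.1 h5).resolve_left (pow_ne_zero _ (neg_ne_zero.2 one_ne_zero)))

end Pool.Agent.DM
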