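import Pool.Agent.DM.ZDF

/-!
# DM, zero estimate: positions
-/

namespace Pool.Agent.DM

open Finset

theorem odp_add (β : ℕ) (w0 : ℚ) (s : ℤ) : odp β (w0 + 2 * (s : ℚ)) ↔ odp β w0 := by
  constructor
  · rintro ⟨k, hk⟩
    refine ⟨k - (2 * β + 1) * s, ?_⟩
    push_cast
    linarith
  · rintro ⟨k, hk⟩
    refine ⟨k + (2 * β + 1) * s, ?_⟩
    push_cast
    linarith

theorem odp_neg (β : ℕ) (w0 : ℚ) : odp β (-w0) ↔ odp β w0 := by
  constructor
  · rintro ⟨k, hk⟩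
    refine ⟨-k - 1, ?_⟩
    push_cast
    linarith
  · rintro ⟨k, hk⟩
    refine ⟨-k - 1, ?_⟩
    push_cast
    linarith

theorem isPole_neg (p : ℕ) (w0 : ℚ) : isPole p (-w0) ↔ isPole p w0 := by
  unfold isPole
  rw [odp_neg, abs_neg]

/-- the positions of one family -/
private theorem mem_one (β p : ℕ) (w0 : ℚ) (h0 : 0 < w0) (h1 : w0 < 4 * (p : ℚ))
    (h : odp β w0) : ∃ k ∈ range (2 * (2 * β + 1) * p),
      (2 * (k : ℚ) + 1) / (2 * (β : ℚ) + 1) = w0 := by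
  obtain ⟨k, hk⟩ := h
  have hβ : (0 : ℚ) < 2 * (β : ℚ) + 1 := by positivity
  have hk0 : 0 ≤ k := by
    have h2 : (0 : ℚ) < 2 * (k : ℚ) + 1 := by rw [← hk]; positivity
    have h3 : (0 : ℤ) < 2 * k + 1 := by exact_mod_cast h2
    omega
  obtain ⟨n, rfl⟩ := Int.eq_ofNat_of_zero_le hk0
  rw [Int.cast_natCast] at hk
  refine ⟨n, ?_, ?_⟩
  · rw [mem_range]
    have h2 : 2 * (n : ℚ) + 1 < (2 * (β : ℚ) + 1) * (4 * (p : ℚ)) := by
      rw [← hk]; exact mul_lt_mul_of_pos_left h1 hβ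
    have h3 : 2 * n + 1 < (2 * β + 1) * (4 * p) := by exact_mod_cast h2
    have h4 : (2 * β + 1) * (4 * p) = 2 * (2 * (2 * β + 1) * p) := by ring
    omega
  · rw [← hk]
    field_simp

private theorem of_one (β p k : ℕ) (hk : k < 2 * (2 * β + 1) * p) :
    0 < (2 * (k : ℚ) + 1) / (2 * (β : ℚ) + 1) ∧
      (2 * (k : ℚ) + 1) / (2 * (β : ℚ) + 1) < 4 * (p : ℚ) ∧
      odp β ((2 * (k : ℚ) + 1) / (2 * (β : ℚ) + 1)) := by
  have hβ : (0 : ℚ) < 2 * (β : ℚ) + 1 := by positivity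
  refine ⟨by positivity, ?_, ⟨(k : ℤ), ?_⟩⟩
  · rw [div_lt_iff₀ hβ]
    have h4 : 2 * k + 1 < 4 * p * (2 * β + 1) := by
      have : 4 * p * (2 * β + 1) = 2 * (2 * (2 * β + 1) * p) := by ring
      omega
    exact_mod_cast h4
  · rw [Int.cast_natCast]
    field_simp

theorem mem_posP (B p : ℕ) (w0 : ℚ) :
    w0 ∈ posP B p ↔ 0 < w0 ∧ w0 < 4 * (p : ℚ) ∧ ∃ β < B, odp β w0 := by
  unfold posP
  simp only [mem_biUnion, mem_image]
  constructor
  · rintro ⟨β, hβ, k, hk, rfl⟩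
    obtain ⟨h1, h2, h3⟩ := of_one β p k (mem_range.1 hk)
    exact ⟨h1, h2, β, mem_range.1 hβ, h3⟩
  · rintro ⟨h0, h1, β, hβ, h2⟩
    obtain ⟨k, hk, h3⟩ := mem_one β p w0 h0 h1 h2
    exact ⟨β, mem_range.2 hβ, k, hk, h3⟩

/-- the poles -/
theorem isPole_iff (p : ℕ) (w0 : ℚ) :
    isPole p w0 ↔ ∃ l : ℕ, l ≤ 2 * p - 1 ∧ 1 ≤ p ∧ w0 = 2 * (p : ℚ) - 1 - 2 * (l : ℚ) := by
  constructor
  · rintro ⟨⟨k, hk⟩, h1⟩
    have hw : w0 = 2 * (k : ℚ) + 1 := by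
      rw [← hk]; push_cast; ring
    obtain ⟨h2, h3⟩ := abs_lt.1 h1
    rw [hw] at h2 h3
    have h4 : -(2 * (p : ℤ)) < 2 * k + 1 := by exact_mod_cast h2
    have h5 : 2 * k + 1 < 2 * (p : ℤ) := by exact_mod_cast h3
    refine ⟨((p : ℤ) - 1 - k).toNat, ?_, ?_, ?_⟩
    · omega
    · omega
    · have h6 : ((((p : ℤ) - 1 - k).toNat : ℤ)) = (p : ℤ) - 1 - k := Int.toNat_of_nonneg (by omega)
      have h7 : ((((p : ℤ) - 1 - k).toNat : ℕ) : ℚ) = (p : ℚ) - 1 - k := by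
        have := congrArg (fun z : ℤ => (z : ℚ)) h6
        push_cast at this
        exact this
      rw [h7, hw]; ring
  · rintro ⟨l, hl, hp, rfl⟩
    have hl' : (l : ℚ) ≤ 2 * (p : ℚ) - 1 := by
      have : l + 1 ≤ 2 * p := by omega
      have h2 : (l : ℚ) + 1 ≤ 2 * (p : ℚ) := by exact_mod_cast this
      linarith
    have hp' : (1 : ℚ) ≤ p := by exact_mod_cast hp
    have hl0 : (0 : ℚ) ≤ l := Nat.cast_nonneg l
    refine ⟨⟨(p : ℤ) - 1 - l, ?_⟩, ?_⟩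
    · push_cast; ring
    · rw [abs_lt]
      constructor <;> linarith

open Classical in
theorem sum_card_posP (B p : ℕ) :
    ∑ w0 ∈ posP B p, ((range B).filter fun β => odp β w0).card ≤ 2 * B ^ 2 * p := by
  have h1 : ∑ w0 ∈ posP B p, ((range B).filter fun β => odp β w0).card =
      ∑ β ∈ range B, ((posP B p).filter fun w0 => odp β w0).card := by
    simp only [card_filter]
    exact sum_comm
  rw [h1]
  have h2 : ∀ β ∈ range B, ((posP B p).filter fun w0 => odp β w0).card ≤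
      2 * (2 * β + 1) * p := by
    intro β _
    have h3 : (posP B p).filter (fun w0 => odp β w0) ⊆ (range (2 * (2 * β + 1) * p)).image
        fun k : ℕ => (2 * (k : ℚ) + 1) / (2 * (β : ℚ) + 1) := by
      intro w0 hw
      obtain ⟨hw1, hw2⟩ := mem_filter.1 hw
      obtain ⟨h4, h5, -⟩ := (mem_posP B p w0).1 hw1
      obtain ⟨k, hk, h6⟩ := mem_one β p w0 h4 h5 hw2
      exact mem_image.2 ⟨k, hk, h6⟩
    calc _ ≤ _ := card_le_card h3
      _ ≤ _ := card_image_le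
      _ = _ := card_range _
  refine (sum_le_sum h2).trans (le_of_eq ?_)
  clear h1 h2
  induction B with
  | zero => simp
  | succ B ih => rw [sum_range_succ, ih]; ring

open Classical in
theorem card_posP_pole (B p : ℕ) : ((posP B p).filter (isPole p)).card ≤ p := by
  have h3 : (posP B p).filter (isPole p) ⊆ (range p).image fun k : ℕ => 2 * (k : ℚ) + 1 := by
    intro w0 hw
    obtain ⟨hw1, hw2⟩ := mem_filter.1 hw
    obtain ⟨h4, -, -⟩ := (mem_posP B p w0).1 hw1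
    obtain ⟨l, hl, hp, h5⟩ := (isPole_iff p w0).1 hw2
    rw [h5] at h4
    have h6 : 2 * (l : ℚ) + 1 < 2 * (p : ℚ) := by linarith
    have h7 : 2 * l + 1 < 2 * p := by exact_mod_cast h6
    refine mem_image.2 ⟨p - 1 - l, mem_range.2 (by omega), ?_⟩
    have h8 : ((p - 1 - l : ℕ) : ℚ) = (p : ℚ) - 1 - l := by
      rw [Nat.cast_sub (by omega), Nat.cast_sub (by omega)]
      simp
    rw [h8, h5]; ring
  calc _ ≤ _ := card_le_card h3
    _ ≤ _ := card_image_le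
    _ = _ := card_range _

/-- all positions -/
private theorem mem_U (B p : ℕ) (w0 : ℚ) :
    w0 ∈ posP B p ∪ (posP B p).image (fun w => -w) ↔
      |w0| < 4 * (p : ℚ) ∧ (∃ β < B, odp β w0) ∧ w0 ≠ 0 := by
  rw [mem_union, mem_posP, mem_image]
  constructor
  · rintro (⟨h0, h1, h2⟩ | ⟨w, hw, rfl⟩)
    · exact ⟨by rw [abs_of_pos h0]; exact h1, h2, ne_of_gt h0⟩
    · obtain ⟨h0, h1, β, hβ, h2⟩ := (mem_posP B p w).1 hw
      refine ⟨by rw [abs_neg, abs_of_pos h0]; exact h1, ⟨β, hβ, (odp_neg β w).2 h2⟩, ?_⟩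
      exact neg_ne_zero.2 (ne_of_gt h0)
  · rintro ⟨h1, ⟨β, hβ, h2⟩, h3⟩
    rcases lt_or_gt_of_ne h3 with h4 | h4
    · right
      refine ⟨-w0, (mem_posP B p _).2 ⟨by linarith, ?_, β, hβ, (odp_neg β w0).2 h2⟩, neg_neg w0⟩
      rwa [abs_of_neg h4] at h1
    · left
      refine ⟨h4, ?_, β, hβ, h2⟩
      rwa [abs_of_pos h4] at h1

theorem mem_posS (B p ζ : ℕ) (x : ℚ) : x ∈ posS B p ζ ↔
    |2 * x + (2 * (p : ℚ) - 1)| < 4 * (p : ℚ) ∧ (∃ β < B, odp β (2 * x + (2 * (p : ℚ) - 1))) ∧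
      2 * x + (2 * (p : ℚ) - 1) ≠ 0 ∧
      ¬ isPole p (2 * x + (2 * (p : ℚ) - 1)) ∧
      2 * x + (2 * (p : ℚ) - 1) + 2 * (ζ : ℚ) < 4 * (p : ℚ) := by
  classical
  unfold posS
  rw [mem_image]
  constructor
  · rintro ⟨w0, hw, rfl⟩
    obtain ⟨h1, h2, h3⟩ := mem_filter.1 hw
    obtain ⟨h4, h5, h6⟩ := (mem_U B p w0).1 h1
    have e : 2 * ((w0 - (2 * (p : ℚ) - 1)) / 2) + (2 * (p : ℚ) - 1) = w0 := by ring
    rw [e]
    exact ⟨h4, h5, h6, h2, h3⟩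
  · rintro ⟨h4, h5, h6, h2, h3⟩
    refine ⟨2 * x + (2 * (p : ℚ) - 1), mem_filter.2 ⟨(mem_U B p _).2 ⟨h4, h5, h6⟩, h2, h3⟩, ?_⟩
    ring

/-- the positions close to `4p` -/
private theorem card_far (B p ζ : ℕ) (U : Finset ℚ)
    (hU : ∀ w ∈ U, w < 4 * (p : ℚ) ∧ 4 * (p : ℚ) ≤ w + 2 * (ζ : ℚ) ∧ ∃ β < B, odp β w) :
    U.card ≤ ζ * B ^ 2 := by
  classical
  have h3 : U ⊆ (range B).biUnion fun β => (range (ζ * (2 * β + 1))).image
      fun k : ℕ => 4 * (p : ℚ) - (2 * (k : ℚ) + 1) / (2 * (β : ℚ) + 1) := by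
    intro w hw
    obtain ⟨h1, h2, β, hβ, k, hk⟩ := hU w hw
    have hb : (0 : ℚ) < 2 * (β : ℚ) + 1 := by positivity
    rw [mem_biUnion]
    refine ⟨β, mem_range.2 hβ, mem_image.2 ?_⟩
    -- the integer `2 p (2 β + 1) - 1 - k`
    have h4 : 2 * (k : ℚ) + 1 < (2 * (β : ℚ) + 1) * (4 * (p : ℚ)) := by
      rw [← hk]; exact mul_lt_mul_of_pos_left h1 hb
    have h5 : (2 * (β : ℚ) + 1) * (4 * (p : ℚ)) ≤
        (2 * (k : ℚ) + 1) + 2 * (ζ : ℚ) * (2 * (β : ℚ) + 1) := by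
      rw [← hk]
      have := mul_le_mul_of_nonneg_left h2 hb.le
      linarith
    have h4' : 2 * k + 1 < (2 * (β : ℤ) + 1) * (4 * (p : ℤ)) := by exact_mod_cast h4
    have h5' : (2 * (β : ℤ) + 1) * (4 * (p : ℤ)) ≤
        (2 * k + 1) + 2 * (ζ : ℤ) * (2 * (β : ℤ) + 1) := by exact_mod_cast h5
    have e1 : (2 * (β : ℤ) + 1) * (4 * (p : ℤ)) = 2 * ((2 * (β : ℤ) + 1) * (2 * (p : ℤ))) := by ring
    have e2 : 2 * (ζ : ℤ) * (2 * (β : ℤ) + 1) = 2 * ((ζ : ℤ) * (2 * (β : ℤ) + 1)) := by ring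
    rw [e1] at h4' h5'
    rw [e2] at h5'
    refine ⟨((2 * (β : ℤ) + 1) * (2 * (p : ℤ)) - 1 - k).toNat, ?_, ?_⟩
    · rw [mem_range]
      have h6 : (((((2 * (β : ℤ) + 1) * (2 * (p : ℤ)) - 1 - k).toNat : ℕ)) : ℤ) <
          ((ζ * (2 * β + 1) : ℕ) : ℤ) := by
        rw [Int.toNat_of_nonneg (by omega)]
        push_cast
        omega
      exact_mod_cast h6
    · have h7 : (((((2 * (β : ℤ) + 1) * (2 * (p : ℤ)) - 1 - k).toNat : ℕ)) : ℚ) =
          (2 * (β : ℚ) + 1) * (2 * (p : ℚ)) - 1 - k := by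
        have h8 : (((((2 * (β : ℤ) + 1) * (2 * (p : ℤ)) - 1 - k).toNat : ℕ)) : ℤ) =
          (2 * (β : ℤ) + 1) * (2 * (p : ℤ)) - 1 - k := Int.toNat_of_nonneg (by omega)
        have := congrArg (fun z : ℤ => (z : ℚ)) h8
        push_cast at this
        exact this
      rw [h7]
      field_simp
      linear_combination -hk
  calc U.card ≤ _ := card_le_card h3
    _ ≤ ∑ β ∈ range B, _ := card_biUnion_le
    _ ≤ ∑ β ∈ range B, ζ * (2 * β + 1) :=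
      sum_le_sum fun β _ => card_image_le.trans (le_of_eq (card_range _))
    _ = ζ * B ^ 2 := by
      clear h3 hU
      induction B with
      | zero => simp
      | succ B ih => rw [sum_range_succ, ih]; ring

/-- the positions which are not in `posS` and not among the safe poles are few -/
theorem pos_sum (B p ζ : ℕ) (hB : 1 ≤ B) (hp : ζ + 1 ≤ p) (g : ℚ → ℕ) (Cg : ℕ)
    (hg1 : ∀ w, g (-w) = g w) (hg2 : ∀ w, g w ≤ Cg) :
    2 * ∑ w0 ∈ posP B p, g w0 ≤ ∑ l ∈ Icc ζ (2 * p - 1), g (2 * (p : ℚ) - 1 - 2 * (l : ℚ)) +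
      ∑ x ∈ posS B p ζ, g (2 * x + (2 * (p : ℚ) - 1)) + ζ * (1 + B ^ 2) * Cg := by
  classical
  set P := posP B p with hP
  set N := (posP B p).image (fun w : ℚ => -w) with hN
  have hdis : Disjoint P N := by
    rw [disjoint_left]
    intro w h1 h2
    have h3 := ((mem_posP B p w).1 h1).1
    obtain ⟨v, hv, rfl⟩ := mem_image.1 h2
    have h4 := ((mem_posP B p v).1 hv).1
    linarith
  have hNs : ∑ w ∈ N, g w = ∑ w ∈ P, g w := by
    rw [hN, sum_image (fun x _ y _ h => neg_injective h)]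
    exact sum_congr rfl fun w _ => hg1 w
  have h2 : 2 * ∑ w0 ∈ P, g w0 = ∑ w ∈ P ∪ N, g w := by
    rw [sum_union hdis, hNs]; ring
  rw [h2]
  -- split
  set U := P ∪ N with hU
  have hs1 : ∑ w ∈ U, g w = ∑ w ∈ U.filter (isPole p), g w +
      ∑ w ∈ U.filter (fun w => ¬ isPole p w), g w := (sum_filter_add_sum_filter_not _ _ _).symm
  have hs2 : ∑ w ∈ U.filter (fun w => ¬ isPole p w), g w =
      ∑ w ∈ (U.filter (fun w => ¬ isPole p w)).filter (fun w => w + 2 * (ζ : ℚ) < 4 * (p : ℚ)), g w +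
      ∑ w ∈ (U.filter (fun w => ¬ isPole p w)).filter
        (fun w => ¬ (w + 2 * (ζ : ℚ) < 4 * (p : ℚ))), g w :=
    (sum_filter_add_sum_filter_not _ _ _).symm
  -- the poles
  have a1 : ∑ w ∈ U.filter (isPole p), g w ≤
      ∑ l ∈ Icc ζ (2 * p - 1), g (2 * (p : ℚ) - 1 - 2 * (l : ℚ)) + ζ * Cg := by
    have hsub : U.filter (isPole p) ⊆ (range (2 * p)).image
        fun l : ℕ => 2 * (p : ℚ) - 1 - 2 * (l : ℚ) := by
      intro w hw
      obtain ⟨l, hl, hp1, h5⟩ := (isPole_iff p w).1 (mem_filter.1 hw).2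
      exact mem_image.2 ⟨l, mem_range.2 (by omega), h5.symm⟩
    have hinj : Set.InjOn (fun l : ℕ => 2 * (p : ℚ) - 1 - 2 * (l : ℚ))
        (range (2 * p) : Finset ℕ) := by
      intro x _ y _ h
      have h' : 2 * (p : ℚ) - 1 - 2 * (x : ℚ) = 2 * (p : ℚ) - 1 - 2 * (y : ℚ) := h
      have : (x : ℚ) = y := by linarith
      exact_mod_cast this
    have hsplit : range (2 * p) = range ζ ∪ Icc ζ (2 * p - 1) := by
      ext l
      rw [mem_union, mem_range, mem_range, mem_Icc]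
      omega
    have hd : Disjoint (range ζ) (Icc ζ (2 * p - 1)) := by
      rw [disjoint_left]
      intro l h1 h2
      rw [mem_range] at h1
      rw [mem_Icc] at h2
      omega
    calc ∑ w ∈ U.filter (isPole p), g w ≤ _ := sum_le_sum_of_subset hsub
      _ = ∑ l ∈ range (2 * p), g (2 * (p : ℚ) - 1 - 2 * (l : ℚ)) := sum_image hinj
      _ = ∑ l ∈ range ζ, g (2 * (p : ℚ) - 1 - 2 * (l : ℚ)) +
          ∑ l ∈ Icc ζ (2 * p - 1), g (2 * (p : ℚ) - 1 - 2 * (l : ℚ)) := by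
        rw [hsplit, sum_union hd]
      _ ≤ ∑ l ∈ range ζ, Cg +
          ∑ l ∈ Icc ζ (2 * p - 1), g (2 * (p : ℚ) - 1 - 2 * (l : ℚ)) :=
        Nat.add_le_add_right (sum_le_sum fun l _ => hg2 _) _
      _ = _ := by rw [sum_const, card_range, smul_eq_mul]; ring
  -- the ordinary positions
  have a2 : ∑ w ∈ (U.filter (fun w => ¬ isPole p w)).filter
      (fun w => w + 2 * (ζ : ℚ) < 4 * (p : ℚ)), g w =
      ∑ x ∈ posS B p ζ, g (2 * x + (2 * (p : ℚ) - 1)) := by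
    unfold posS
    rw [sum_image (fun x _ y _ h => by
      have h' : (x - (2 * (p : ℚ) - 1)) / 2 = (y - (2 * (p : ℚ) - 1)) / 2 := h
      linarith), filter_filter]
    refine sum_congr rfl fun w _ => ?_
    congr 1
    ring
  -- the positions close to 4p
  have a3 : ∑ w ∈ (U.filter (fun w => ¬ isPole p w)).filter
        (fun w => ¬ (w + 2 * (ζ : ℚ) < 4 * (p : ℚ))), g w ≤ ζ * B ^ 2 * Cg := by
    refine (sum_le_card_nsmul _ _ Cg fun w _ => hg2 w).trans ?_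
    rw [smul_eq_mul]
    refine Nat.mul_le_mul_right _ (card_far B p ζ _ ?_)
    intro w hw
    obtain ⟨h5, h6⟩ := mem_filter.1 hw
    obtain ⟨h7, -⟩ := mem_filter.1 h5
    obtain ⟨h8, h9, -⟩ := (mem_U B p w).1 h7
    exact ⟨(abs_lt.1 h8).2, not_lt.1 h6, h9⟩
  rw [hs1, hs2, a2]
  have e : ζ * (1 + B ^ 2) * Cg = ζ * Cg + ζ * B ^ 2 * Cg := by ring
  rw [e]
  omega

end Pool.Agent.DM
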