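import Pool.Agent.DM.CND
import Pool.Agent.DM.EXT
import Pool.Agent.DM.POS
import Pool.Agent.DM.MNF
import Pool.Agent.ZC.ZEK

/-!
# DM, zero estimate: a relation gives a family with few conditions
-/

namespace Pool.Agent.DM

open Finset Polynomial Pool.Agent.ZC Pool.Agent.SI

theorem cnd_of_imp {K : Type*} [Field K] (B S a : ℕ) {J : Type*} (θ : J → ℕ → PowerSeries K)
    (A : ℕ → Prop) (c c' : Prop) (hc : c' → c) (t0 : K) (P : ℕ → ℕ → K[X])
    (h : cnd B S a θ A c t0 P = 0) : cnd B S a θ A c' t0 P = 0 := by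
  have h1 := congrArg Prod.fst h
  have h2 := congrArg Prod.snd h
  refine Prod.ext ?_ ?_
  · exact h1
  · funext j m
    have h3 := congrFun (congrFun h2 j) m
    simp only [cnd, LinearMap.coe_mk, AddHom.coe_mk] at h3 ⊢
    by_cases hc' : c'
    · rw [if_pos (hc hc')] at h3
      rw [if_pos hc']
      exact h3
    · rw [if_neg hc']
      rfl

theorem comb_smul {K : Type*} [Field K] {m : ℕ} (w : Fin m → ℕ → ℕ → K) (g : K[X])
    (f : Fin m → K[X]) : comb w (g • f) = fun β k => g * comb w f β k := by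
  funext β k
  simp only [comb, LinearMap.coe_mk, AddHom.coe_mk, Pi.smul_apply, smul_eq_mul, Finset.mul_sum,
    mul_assoc]

theorem comb_comp {K : Type*} [Field K] {m : ℕ} (w : Fin m → ℕ → ℕ → K) (g : K[X])
    (f : Fin m → K[X]) : comb w (fun i => (f i).comp g) = fun β k => (comb w f β k).comp g := by
  funext β k
  simp only [comb, LinearMap.coe_mk, AddHom.coe_mk, Polynomial.sum_comp, mul_comp, C_comp]

/-- constant in the estimate -/
def cRel (B S a cJ : ℕ) : ℕ :=
  B * (S + 1) * (a + 2 * B ^ 2 * (S + 1) + (1 + B ^ 2) * (B * (S + 1) + cJ * a))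

theorem rel_est {K : Type*} [Field K] [CharZero K] (B H a S s0 p : ℕ) (hB : 1 ≤ B)
    (hp : B * (S + 1) + 1 ≤ p) {J : Type*}
    [Fintype J] (θ : J → ℕ → PowerSeries K) (I : Finset ℕ) (z : ℕ → K) {m : ℕ} (ε : Fin m → ℕ)
    (w : Fin m → ℕ → ℕ → K) (hw : Fam B S s0 ε w) (f : Fin m → K[X])
    (hf : ∀ i, f i ∈ degreeLT K (4 * H * p)) (hne : f ≠ 0) (q : K[X])
    (hq : q.natDegree ≤ 2 * (4 * H * p))
    (hcnd : ∀ w0 : ℚ, |w0| < 4 * (p : ℚ) → (∃ β < B, odp β w0) →
      cnd B S a θ (fun β => odp β w0) (isPole p w0) (((w0 - (2 * (p : ℚ) - 1)) / 2 : ℚ) : K)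
        (comb w (fun i => pw p (ε i) (f i))) = 0)
    (hrel : ∀ l ≤ 2 * p - 1, (PowerSeries.X : PowerSeries K) ^ a ∣ loc K l q +
      ∑ β ∈ range B, ∑ k ∈ range (S + 1), loc K l (comb w (fun i => pw p (ε i) (f i)) β k) *
        hs K k (Gs K p (2 * β + 1) l I z)) :
    ∃ (ζ : ℕ) (ε' : Fin ζ → ℕ) (w' : Fin ζ → ℕ → ℕ → K), ζ ≤ m ∧ Fam B S s0 ε' w' ∧
      2 * ks B S a p θ w' + a * (2 * p) ≤
        2 * (4 * H * p) * ζ + 2 * (4 * H * p) + cRel B S a (Fintype.card J) := by
  classical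
  obtain ⟨ζ, ε', w', u, hζ0, hζm, hw', hu, huD, hcomb⟩ :=
    ext_fam B S s0 ε w hw p (4 * H * p) f hf hne
  have hmB := card_fam_le B S s0 ε w hw
  refine ⟨ζ, ε', w', hζm, hw', ?_⟩
  set P := comb w (fun i => pw p (ε i) (f i)) with hP
  set L := 2 * p - 1 with hL
  have hp1 : 1 ≤ p := by omega
  have hcinj : Function.Injective (fun r : ℚ => (r : K)) := Rat.cast_injective
  -- the data of the Casorati estimate
  set η : Fin ζ → ℕ → PowerSeries K := fun y l => ∑ β ∈ range B, ∑ k ∈ range (S + 1),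
    PowerSeries.C (w' y β k) * hs K k (Gs K p (2 * β + 1) l I z) with hη
  set num : Fin ζ → K[X] := fun y => ∑ β ∈ range B, ∑ k ∈ range (S + 1),
    C (w' y β k) * numd K B p S β k with hnum
  have hη1 : ∀ l, ∑ y, loc K l (u y) * η y l = ∑ β ∈ range B, ∑ k ∈ range (S + 1),
      loc K l (P β k) * hs K k (Gs K p (2 * β + 1) l I z) := by
    intro l
    simp only [hη, Finset.mul_sum]
    rw [Finset.sum_comm]
    refine Finset.sum_congr rfl fun β _ => ?_
    rw [Finset.sum_comm]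
    refine Finset.sum_congr rfl fun k _ => ?_
    have h1 : P β k = ∑ y, u y * C (w' y β k) := by
      rw [← hcomb]; rfl
    rw [h1, map_sum, Finset.sum_mul]
    refine Finset.sum_congr rfl fun y _ => ?_
    rw [map_mul, loc_C]
    ring
  set fl : K → ℕ → Prop := fun x β => ∃ r : ℚ, (r : K) = x ∧ odp β (2 * r + (2 * (p : ℚ) - 1))
    with hfl
  set fc : K → Prop := fun x => ∃ r : ℚ, (r : K) = x ∧ isPole p (2 * r + (2 * (p : ℚ) - 1))
    with hfc
  have hfl1 : ∀ r : ℚ, fl (r : K) = fun β => odp β (2 * r + (2 * (p : ℚ) - 1)) := by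
    intro r
    funext β
    refine propext ⟨?_, fun h => ⟨r, rfl, h⟩⟩
    rintro ⟨r', hr', h⟩
    rw [← hcinj hr']
    exact h
  have hfc1 : ∀ r : ℚ, fc (r : K) = isPole p (2 * r + (2 * (p : ℚ) - 1)) := by
    intro r
    refine propext ⟨?_, fun h => ⟨r, rfl, h⟩⟩
    rintro ⟨r', hr', h⟩
    rw [← hcinj hr']
    exact h
  set T : K → (Fin ζ → K[X]) →ₗ[K] (Fin B → Fin (S + 1) → K) × (J → Fin a → K) := fun x =>
    cnd B S a θ (fl x) (fc x) x ∘ₗ comb w' with hT
  have hTk : ∀ r : ℚ, Module.finrank K (LinearMap.range (T (r : K))) = kap B S a θ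
      (fun β => odp β (2 * r + (2 * (p : ℚ) - 1))) (isPole p (2 * r + (2 * (p : ℚ) - 1))) w' := by
    intro r
    have h1 := kap_eq B S a θ (fun β => odp β (2 * r + (2 * (p : ℚ) - 1)))
      (isPole p (2 * r + (2 * (p : ℚ) - 1))) w' (r : K)
    rw [← h1]
    have h2 : T (r : K) = cnd B S a θ (fun β => odp β (2 * r + (2 * (p : ℚ) - 1)))
        (isPole p (2 * r + (2 * (p : ℚ) - 1))) (r : K) ∘ₗ comb w' := by
      rw [hT]
      simp only
      rw [hfl1, hfc1]
    rw [h2]
  -- shifts of the independent polynomials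
  have hTs : ∀ (r : ℚ) (s : ℕ),
      |2 * (r + s) + (2 * (p : ℚ) - 1)| < 4 * (p : ℚ) →
      (∃ β < B, odp β (2 * r + (2 * (p : ℚ) - 1))) →
      (isPole p (2 * r + (2 * (p : ℚ) - 1)) → isPole p (2 * (r + s) + (2 * (p : ℚ) - 1))) →
      T (r : K) (fun y => (u y).comp (X + C (s : K))) = 0 := by
    intro r s h1 h2 h3
    rw [hT]
    simp only [LinearMap.comp_apply]
    rw [comb_comp, cnd_shift, hcomb, hfl1, hfc1]
    have hodp : ∀ β, odp β (2 * (r + s) + (2 * (p : ℚ) - 1)) ↔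
        odp β (2 * r + (2 * (p : ℚ) - 1)) := by
      intro β
      have := odp_add β (2 * r + (2 * (p : ℚ) - 1)) (s : ℤ)
      rw [← this]
      push_cast
      rw [show 2 * r + (2 * (p : ℚ) - 1) + 2 * (s : ℚ) = 2 * (r + s) + (2 * (p : ℚ) - 1) by ring]
    have h4 := hcnd (2 * (r + s) + (2 * (p : ℚ) - 1)) h1
      (h2.imp fun β hβ => ⟨hβ.1, (hodp β).2 hβ.2⟩)
    have h5 : (fun β => odp β (2 * (r + s) + (2 * (p : ℚ) - 1))) =
        fun β => odp β (2 * r + (2 * (p : ℚ) - 1)) := funext fun β => propext (hodp β)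
    rw [h5, show (2 * (r + (s : ℚ)) + (2 * (p : ℚ) - 1) - (2 * (p : ℚ) - 1)) / 2 = r + s by ring]
      at h4
    rw [Rat.cast_add, Rat.cast_natCast] at h4
    exact cnd_of_imp _ _ _ _ _ _ _ h3 _ _ h4
  have hpoleL : ∀ l ≤ L, isPole p (2 * (-(l : ℚ)) + (2 * (p : ℚ) - 1)) := by
    intro l hl
    rw [isPole_iff]
    exact ⟨l, hl, hp1, by ring⟩
  have hcast : ∀ l : ℕ, -(l : K) = ((-(l : ℚ) : ℚ) : K) := by
    intro l
    rw [Rat.cast_neg, Rat.cast_natCast]
  have hcz := cz u hu q (2 * (4 * H * p)) huD hq η a L (fun l hl => by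
      rw [hη1]; exact hrel l hl)
    (dend K B p S) (dend_ne_zero B p S) num (by
      intro y
      rw [hnum]
      refine Polynomial.natDegree_sum_le_of_forall_le _ _ fun β _ => ?_
      refine Polynomial.natDegree_sum_le_of_forall_le _ _ fun k hk => ?_
      rw [Finset.mem_range] at hk
      exact (Polynomial.natDegree_C_mul_le _ _).trans (natDegree_numd_le B p S β k (by omega)))
    (by
      intro l hl y
      simp only [hη, hnum]
      rw [← Finset.sum_sub_distrib, Finset.mul_sum, map_sum]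
      refine Finset.sum_congr rfl fun β hβ => ?_
      rw [← Finset.sum_sub_distrib, Finset.mul_sum, map_sum]
      refine Finset.sum_congr rfl fun k hk => ?_
      rw [Finset.mem_range] at hβ hk
      rw [map_mul, loc_C, ← hs_Gs_shift B p β l S k hβ (by omega) (by omega) I z]
      ring)
    (by
      intro α hα
      set y0 : Fin ζ := ⟨0, hζ0⟩ with hy0
      have h1 := nonsum_dm B p S (fun (β : Fin B) (k : Fin (S + 1)) => w' y0 (β : ℕ) (k : ℕ))
        (α y0) (by
          rw [← hα y0, hnum]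
          congr 2
          simp only []
          rw [← Fin.sum_univ_eq_sum_range
            (fun β => ∑ k ∈ range (S + 1), C (w' y0 β k) * numd K B p S β k) B]
          refine Finset.sum_congr rfl fun β _ => ?_
          rw [← Fin.sum_univ_eq_sum_range (fun k => C (w' y0 (β : ℕ) k) * numd K B p S β k) (S + 1)])
      have h2 : w' y0 = 0 := by
        funext β k
        by_contra hcon
        have h3 := hw'.2 y0 β k hcon
        exact hcon (h1 ⟨β, h3.1⟩ ⟨k, by omega⟩)
      exact hw'.1.ne_zero y0 h2)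
    T
    (by
      intro x r hr
      rw [hT] at hr ⊢
      simp only [LinearMap.comp_apply] at hr ⊢
      rw [comb_smul]
      exact cnd_X_sub _ _ _ _ _ _ _ _ hr)
    (by
      intro x
      refine ⟨a + S + 1, fun r => ?_⟩
      rw [hT]
      simp only [LinearMap.comp_apply]
      rw [comb_smul]
      exact cnd_X_sub_pow _ _ _ _ _ _ _ _)
    (Icc ζ L) (fun l hl => Finset.mem_Icc.1 hl) ((posS B p ζ).image fun r : ℚ => (r : K))
    (by
      intro l hl h1
      rw [hcast, Finset.mem_image] at h1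
      obtain ⟨r, hr, hr'⟩ := h1
      rw [hcinj hr', mem_posS] at hr
      exact hr.2.2.2.1 (hpoleL l (Finset.mem_Icc.1 hl).2))
    (by
      intro l hl s hs
      rw [Finset.mem_Icc] at hl
      have h1 : -(l : ℚ) + (s : ℚ) = -((l - s : ℕ) : ℚ) := by
        rw [Nat.cast_sub (by omega)]; ring
      have h2 := hpoleL (l - s) (by omega)
      have h3 := hpoleL l hl.2
      rw [← h1] at h2
      rw [hcast]
      refine hTs _ _ ?_ ⟨0, by omega, h3.1⟩ (fun _ => h2)
      refine h2.2.trans_le ?_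
      have : (0 : ℚ) ≤ p := Nat.cast_nonneg p
      linarith)
    (by
      intro x hx s hs
      rw [Finset.mem_image] at hx
      obtain ⟨r, hr, rfl⟩ := hx
      rw [mem_posS] at hr
      have hs' : (s : ℚ) ≤ ζ := by exact_mod_cast hs
      have hs0 : (0 : ℚ) ≤ s := Nat.cast_nonneg s
      refine hTs _ _ ?_ hr.2.1 (fun h => absurd h hr.2.2.2.1)
      have h1 := abs_lt.1 hr.1
      rw [abs_lt]
      constructor
      · linarith [h1.1]
      · linarith [hr.2.2.2.2])
  -- the sums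
  have hg1 : ∀ w0 : ℚ, kap B S a θ (fun β => odp β (-w0)) (isPole p (-w0)) w' =
      kap B S a θ (fun β => odp β w0) (isPole p w0) w' := by
    intro w0
    have e1 : (fun β => odp β (-w0)) = fun β => odp β w0 := funext fun β => propext (odp_neg β w0)
    have e2 : isPole p (-w0) = isPole p w0 := propext (isPole_neg p w0)
    rw [e1, e2]
  have hps := pos_sum B p ζ hB (by omega)
    (fun w0 => kap B S a θ (fun β => odp β w0) (isPole p w0) w')
    (B * (S + 1) + Fintype.card J * a) hg1 (fun w0 => kap_le' _ _ _ _ _ _ _)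
  beta_reduce at hps
  rw [natDegree_dend, Finset.sum_image (fun x _ y _ h => hcinj h)] at hcz
  have hT5 : ∀ l : ℕ, Module.finrank K (LinearMap.range (T (-(l : K)))) =
      kap B S a θ (fun β => odp β (2 * (-(l : ℚ)) + (2 * (p : ℚ) - 1)))
        (isPole p (2 * (-(l : ℚ)) + (2 * (p : ℚ) - 1))) w' := by
    intro l
    rw [hcast l]
    exact hTk _
  rw [Finset.sum_add_distrib, Finset.sum_const, Nat.card_Icc, smul_eq_mul,
    Finset.sum_congr rfl fun (l : ℕ) _ => hT5 l,
    Finset.sum_congr rfl fun (r : ℚ) _ => hTk r] at hcz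
  have hks : ks B S a p θ w' = ∑ w0 ∈ posP B p, kap B S a θ (fun β => odp β w0) (isPole p w0) w' := rfl
  rw [← hks, ← hL] at hps
  have hsum : ∑ l ∈ Icc ζ L, kap B S a θ (fun β => odp β (2 * (-(l : ℚ)) + (2 * (p : ℚ) - 1)))
      (isPole p (2 * (-(l : ℚ)) + (2 * (p : ℚ) - 1))) w' =
      ∑ l ∈ Icc ζ L, kap B S a θ (fun β => odp β (2 * (p : ℚ) - 1 - 2 * (l : ℚ)))
      (isPole p (2 * (p : ℚ) - 1 - 2 * (l : ℚ))) w' := by
    refine Finset.sum_congr rfl fun l _ => ?_
    rw [show 2 * (-(l : ℚ)) + (2 * (p : ℚ) - 1) = 2 * (p : ℚ) - 1 - 2 * (l : ℚ) by ring]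
  rw [hsum] at hcz
  have hζB : ζ ≤ B * (S + 1) := hζm.trans hmB
  have hC : ζ * a + ζ * (2 * B ^ 2 * (S + 1)) + ζ * (1 + B ^ 2) * (B * (S + 1) + Fintype.card J * a) ≤
      cRel B S a (Fintype.card J) := by
    unfold cRel
    have h1 : ζ * a + ζ * (2 * B ^ 2 * (S + 1)) +
        ζ * (1 + B ^ 2) * (B * (S + 1) + Fintype.card J * a) =
        ζ * (a + 2 * B ^ 2 * (S + 1) + (1 + B ^ 2) * (B * (S + 1) + Fintype.card J * a)) := by ring
    rw [h1]
    exact Nat.mul_le_mul_right _ hζB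
  have ha2 : (L + 1 - ζ) * a + ζ * a = a * (2 * p) := by
    rw [← Nat.add_mul, Nat.sub_add_cancel (by omega), mul_comm]
    congr 1
    omega
  have e1 : (ζ + 1) * (2 * (4 * H * p)) = 2 * (4 * H * p) * ζ + 2 * (4 * H * p) := by ring
  omega

end Pool.Agent.DM
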