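import Pool.Agent.DM.DIC
import Pool.Agent.DM.Defs
import Pool.Agent.DM.CZ
import Pool.Agent.DM.NSM
import Pool.Agent.SI.ZER

/-!
# DM, zero estimate: definitions

Operators in left form `P β k` (coefficient of the `k`-th Hasse derivative of the functional `β`);
conditions at a point; families of constant vectors.
-/

namespace Pool.Agent.DM

open Finset Polynomial Pool.Agent.ZC Pool.Agent.SI

section

variable {K : Type*} [Field K]

/-- expansion of a polynomial at `t0` -/
noncomputable def jet (t0 : K) : K[X] →+* PowerSeries K :=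
  (Polynomial.coeToPowerSeries.ringHom).comp (Polynomial.compRingHom (X + C t0))

theorem jet_neg (l : ℕ) : jet (-(l : K)) = loc K l := by
  unfold jet loc
  rw [C_neg, ← sub_eq_add_neg]

/-- value of an operator on `θ`, jet at `t0` -/
noncomputable def opj (B S : ℕ) (θ : ℕ → PowerSeries K) (t0 : K) (P : ℕ → ℕ → K[X]) :
    PowerSeries K :=
  ∑ β ∈ range B, ∑ k ∈ range (S + 1), jet t0 (P β k) * hs K k (θ β)

theorem rf_add (S : ℕ) (P P' : ℕ → K[X]) (r : ℕ) :
    rf S (fun k => P k + P' k) r = rf S P r + rf S P' r := by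
  unfold rf
  simp only [map_add, mul_add, Finset.sum_add_distrib]

theorem rf_smul (S : ℕ) (P : ℕ → K[X]) (r : ℕ) (c : K) :
    rf S (fun k => c • P k) r = c • rf S P r := by
  unfold rf
  simp only [map_smul, Finset.smul_sum, mul_smul_comm]

theorem opj_add (B S : ℕ) (θ : ℕ → PowerSeries K) (t0 : K) (P P' : ℕ → ℕ → K[X]) :
    opj B S θ t0 (P + P') = opj B S θ t0 P + opj B S θ t0 P' := by
  unfold opj
  simp only [Pi.add_apply, map_add, add_mul, Finset.sum_add_distrib]

theorem opj_smul (B S : ℕ) (θ : ℕ → PowerSeries K) (t0 : K) (P : ℕ → ℕ → K[X]) (c : K) :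
    opj B S θ t0 (c • P) = PowerSeries.C c * opj B S θ t0 P := by
  unfold opj
  have hc : ∀ f : K[X], jet t0 (c • f) = PowerSeries.C c * jet t0 f := by
    intro f
    rw [smul_eq_C_mul, map_mul]
    congr 1
    simp [jet]
  simp only [Pi.smul_apply, hc, Finset.mul_sum, mul_assoc]

open Classical in
/-- the conditions at `t0`: active families `A`, `c` iff `t0` is a pole -/
noncomputable def cnd (B S a : ℕ) {J : Type*} (θ : J → ℕ → PowerSeries K) (A : ℕ → Prop)
    (c : Prop) (t0 : K) :
    (ℕ → ℕ → K[X]) →ₗ[K] (Fin B → Fin (S + 1) → K) × (J → Fin a → K) where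
  toFun P := (fun β r => if A β then (rf S (P β) r).eval t0 else 0,
    fun j m => if c then PowerSeries.coeff (m : ℕ) (opj B S (θ j) t0 P) else 0)
  map_add' P P' := by
    refine Prod.ext ?_ ?_
    · funext β r
      simp only [Prod.fst_add, Pi.add_apply]
      split_ifs with h
      · have := rf_add S (P β) (P' β) r
        rw [← eval_add, ← this]
        rfl
      · rw [add_zero]
    · funext j m
      simp only [Prod.snd_add, Pi.add_apply]
      split_ifs with h
      · rw [opj_add, map_add]
      · rw [add_zero]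
  map_smul' x P := by
    refine Prod.ext ?_ ?_
    · funext β r
      simp only [Prod.smul_fst, Pi.smul_apply, RingHom.id_apply, smul_eq_mul]
      split_ifs with h
      · have := rf_smul S (P β) r x
        rw [← smul_eq_mul, ← eval_smul, ← this]
        rfl
      · rw [mul_zero]
    · funext j m
      simp only [Prod.smul_snd, Pi.smul_apply, RingHom.id_apply, smul_eq_mul]
      split_ifs with h
      · rw [opj_smul, PowerSeries.coeff_C_mul]
      · rw [mul_zero]

/-- the operator with polynomial coefficients `f i` at the constant vectors `w i` -/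
noncomputable def comb {m : ℕ} (w : Fin m → ℕ → ℕ → K) :
    (Fin m → K[X]) →ₗ[K] (ℕ → ℕ → K[X]) where
  toFun f := fun β k => ∑ i, f i * C (w i β k)
  map_add' f f' := by
    funext β k
    simp only [Pi.add_apply, add_mul, Finset.sum_add_distrib]
  map_smul' x f := by
    funext β k
    simp only [Pi.smul_apply, smul_mul_assoc, ← Finset.smul_sum, RingHom.id_apply]

/-- number of conditions -/
noncomputable def kap (B S a : ℕ) {J : Type*} (θ : J → ℕ → PowerSeries K) (A : ℕ → Prop)
    (c : Prop) {m : ℕ} (w : Fin m → ℕ → ℕ → K) : ℕ :=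
  Module.finrank K (LinearMap.range ((cnd B S a θ A c (0 : K)) ∘ₗ comb w))

/-- homogeneous independent families -/
def Fam (B S s0 : ℕ) {m : ℕ} (ε : Fin m → ℕ) (w : Fin m → ℕ → ℕ → K) : Prop :=
  LinearIndependent K w ∧ ∀ i β k, w i β k ≠ 0 → β < B ∧ s0 ≤ k ∧ k ≤ S ∧ k % 2 = ε i

/-- `w^e f(w^2)` as a polynomial in `t` -/
noncomputable def pw (p e : ℕ) (f : K[X]) : K[X] := wpol K p ^ e * f.comp (tp K p)

end

/-- `(2β+1) w0` is an odd integer -/
def odp (β : ℕ) (w0 : ℚ) : Prop := ∃ k : ℤ, (2 * (β : ℚ) + 1) * w0 = 2 * (k : ℚ) + 1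

/-- `w0` is a pole -/
def isPole (p : ℕ) (w0 : ℚ) : Prop := odp 0 w0 ∧ |w0| < 2 * (p : ℚ)

/-- the positive positions below `4p` -/
noncomputable def posP (B p : ℕ) : Finset ℚ :=
  (range B).biUnion fun β => (range (2 * (2 * β + 1) * p)).image
    fun k : ℕ => (2 * (k : ℚ) + 1) / (2 * (β : ℚ) + 1)

open Classical in
/-- the points `t` of the positions which are not poles and stay below `4p` -/
noncomputable def posS (B p ζ : ℕ) : Finset ℚ :=
  ((posP B p ∪ (posP B p).image (fun w => -w)).filter
    (fun w0 => ¬ isPole p w0 ∧ w0 + 2 * (ζ : ℚ) < 4 * (p : ℚ))).image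
      fun w0 => (w0 - (2 * (p : ℚ) - 1)) / 2

/-- right form of the combination `x` -/
noncomputable def fx {K : Type*} [Field K] (B H S p M : ℕ) (x : FI B H S p → K) (β r : ℕ) :
    K[X] :=
  if h : β < B ∧ r < S + 1 then
    pw p (r % 2) (An K M p (2 * β + 1) *
      ∑ j, C (x ⟨⟨β, h.1⟩, (⟨r, h.2⟩, j)⟩) * Cn K M (j : ℕ)) else 0

/-- left form of the combination `x` -/
noncomputable def thx {K : Type*} [Field K] (B H S p M : ℕ) (x : FI B H S p → K) (β k : ℕ) :
    K[X] :=
  lf S (fx B H S p M x β) k

end Pool.Agent.DM
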